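import Pool.Agent.H.MP_7783b9_co.Core

/-!
# The incidence graph
-/

set_option autoImplicit false

open Finset

namespace Pool.MP7783b9

variable {V : Type*} [Fintype V] [DecidableEq V]

private theorem incid_edges {A B : Type*} [Finite A] [Finite B] (G : SimpleGraph (A ⊕ B))
    (h1 : ∀ a a', ¬ G.Adj (Sum.inl a) (Sum.inl a'))
    (h2 : ∀ b b', ¬ G.Adj (Sum.inr b) (Sum.inr b'))
    (hc : ∀ b, Nat.card {a // G.Adj (Sum.inl a) (Sum.inr b)} = 3) :
    Nat.card G.edgeSet = 3 * Nat.card B := by
  classical
  have : Fintype A := Fintype.ofFinite A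
  have : Fintype B := Fintype.ofFinite B
  let φ : (Σ b : B, {a : A // G.Adj (Sum.inl a) (Sum.inr b)}) → G.edgeSet :=
    fun x => ⟨s(Sum.inl x.2.1, Sum.inr x.1), x.2.2⟩
  have hφ : Function.Bijective φ := by
    constructor
    · rintro ⟨b, a, hab⟩ ⟨b', a', hab'⟩ h
      have h' : s((Sum.inl a : A ⊕ B), Sum.inr b) = s(Sum.inl a', Sum.inr b') :=
        congrArg Subtype.val h
      rw [Sym2.eq_iff] at h'
      rcases h' with ⟨e1, e2⟩ | ⟨e1, -⟩
      · obtain rfl := Sum.inl.inj e1
        obtain rfl := Sum.inr.inj e2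
        rfl
      · exact absurd e1 (by simp)
    · rintro ⟨e, he⟩
      induction e using Sym2.ind with
      | _ x y =>
        rw [SimpleGraph.mem_edgeSet] at he
        rcases x with a | b
        · rcases y with a' | b'
          · exact absurd he (h1 a a')
          · exact ⟨⟨b', a, he⟩, rfl⟩
        · rcases y with a' | b'
          · exact ⟨⟨b, a', he.symm⟩, Subtype.ext Sym2.eq_swap⟩
          · exact absurd he (h2 b b')
  rw [← Nat.card_eq_of_bijective φ hφ, Nat.card_sigma]
  simp only [hc]
  rw [Finset.sum_const, Finset.card_univ, smul_eq_mul, Nat.card_eq_fintype_card, mul_comm]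

/-- An acyclic graph has fewer edges than vertices. -/
private theorem incid_le {W : Type*} [Finite W] [Nonempty W] (G : SimpleGraph W)
    (h : G.IsAcyclic) :
    Nat.card G.edgeSet + 1 ≤ Nat.card W ∧
      (G.Connected ↔ Nat.card G.edgeSet + 1 = Nat.card W) := by
  have : Fintype W := Fintype.ofFinite W
  obtain ⟨F, hGF, -, hF⟩ :=
    SimpleGraph.connected_top.exists_isTree_le_of_le_of_isAcyclic (le_top : G ≤ ⊤) h
  obtain ⟨hFc, hFe⟩ := SimpleGraph.isTree_iff_connected_and_card.1 hF
  have hsub : G.edgeSet ⊆ F.edgeSet := SimpleGraph.edgeSet_mono hGF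
  have hfin : F.edgeSet.Finite := Set.toFinite _
  have hle : Nat.card G.edgeSet ≤ Nat.card F.edgeSet := Nat.card_mono hfin hsub
  refine ⟨by omega, fun hc => ?_, fun he => ?_⟩
  · exact (SimpleGraph.isTree_iff_connected_and_card.1 ⟨hc, h⟩).2
  · have heq : G.edgeSet = F.edgeSet := by
      refine Set.eq_of_subset_of_ncard_le hsub ?_ hfin
      rw [← Nat.card_coe_set_eq, ← Nat.card_coe_set_eq]
      omega
    have hGFe : G = F := SimpleGraph.edgeSet_injective heq
    rw [hGFe]
    exact hFc

/-- acyclic incidence graph implies the density form of acyclicity -/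
theorem isAc_of_incidence (E : Finset (Finset V)) (h3 : ∀ f ∈ E, f.card = 3)
    (h : (incidence E).IsAcyclic) : IsAc (Finset.univ : Finset V) E := by
  refine ⟨h3, fun f _ => Finset.subset_univ f, fun E' hE' hne => ?_⟩
  let U := {v : V // v ∈ E'.biUnion id}
  let B := {f : Finset V // f ∈ E'}
  let j : U ⊕ B ↪ V ⊕ {f // f ∈ E} :=
    ⟨Sum.map Subtype.val (fun f => ⟨f.1, hE' f.2⟩), by
      refine Function.Injective.sumMap Subtype.val_injective ?_
      rintro ⟨f, hf⟩ ⟨g, hg⟩ hfg
      have := congrArg Subtype.val hfg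
      exact Subtype.ext this⟩
  have hac : ((incidence E).comap j).IsAcyclic := h.of_comap j
  obtain ⟨f0, hf0⟩ := hne
  have : Nonempty (U ⊕ B) := ⟨Sum.inr ⟨f0, hf0⟩⟩
  have hcard := (incid_le _ hac).1
  have hedges : Nat.card ((incidence E).comap j).edgeSet = 3 * Nat.card B := by
    refine incid_edges _ (fun a a' h0 => h0) (fun b b' h0 => h0) fun b => ?_
    have hb : ∀ v ∈ b.1, v ∈ E'.biUnion id := fun v hv =>
      Finset.mem_biUnion.2 ⟨b.1, b.2, hv⟩
    have e : {a : U // ((incidence E).comap j).Adj (Sum.inl a) (Sum.inr b)} ≃ {v // v ∈ b.1} :=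
      { toFun := fun a => ⟨a.1.1, a.2⟩
        invFun := fun v => ⟨⟨v.1, hb v.1 v.2⟩, v.2⟩
        left_inv := fun _ => rfl
        right_inv := fun _ => rfl }
    rw [Nat.card_congr e, Nat.card_eq_fintype_card, Fintype.card_coe]
    exact h3 _ (hE' b.2)
  rw [hedges, Nat.card_sum] at hcard
  have hU : Nat.card U = (E'.biUnion id).card := by
    rw [Nat.card_eq_fintype_card, Fintype.card_coe]
  have hB : Nat.card B = E'.card := by
    rw [Nat.card_eq_fintype_card, Fintype.card_coe]
  rw [hU, hB] at hcard
  omega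

/-- an acyclic incidence graph is connected iff `|V| = 2 |E| + 1` -/
theorem connected_iff (E : Finset (Finset V)) (h3 : ∀ f ∈ E, f.card = 3)
    (h : (incidence E).IsAcyclic) :
    (incidence E).Connected ↔ Fintype.card V = 2 * E.card + 1 := by
  have hB : Nat.card {f // f ∈ E} = E.card := by
    rw [Nat.card_eq_fintype_card, Fintype.card_coe]
  have hedges : Nat.card (incidence E).edgeSet = 3 * Nat.card {f // f ∈ E} := by
    refine incid_edges _ (fun a a' h0 => h0) (fun b b' h0 => h0) fun b => ?_
    have e : {a : V // (incidence E).Adj (Sum.inl a) (Sum.inr b)} ≃ {v // v ∈ b.1} :=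
      Equiv.refl _
    rw [Nat.card_congr e, Nat.card_eq_fintype_card, Fintype.card_coe]
    exact h3 _ b.2
  rcases isEmpty_or_nonempty V with hV | hV
  · have hE : E = ∅ := by
      rw [Finset.eq_empty_iff_forall_notMem]
      intro f hf
      have h1 := h3 f hf
      have h2 : f = ∅ := Finset.eq_empty_of_isEmpty f
      rw [h2] at h1
      simp at h1
    constructor
    · intro hc
      obtain ⟨x⟩ := hc.nonempty
      rcases x with v | f
      · exact hV.elim v
      · obtain ⟨f, hf⟩ := f
        rw [hE] at hf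
        exact absurd hf (Finset.notMem_empty f)
    · intro hc
      have h0 : Fintype.card V = 0 := Fintype.card_eq_zero
      omega
  · have hk := (incid_le _ h).2
    rw [hk, hedges, Nat.card_sum, hB, Nat.card_eq_fintype_card]
    omega

end Pool.MP7783b9
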