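import Pool.Agent.H.MP_7783b9_co.Core

/-!
# Lower bounds
-/

set_option autoImplicit false

open Finset

namespace Pool.MP7783b9

variable {V : Type*} [Fintype V] [DecidableEq V]

private theorem lower_fano (χ : Fin 7 → Bool) :
    ∃ f ∈ fano, (∀ i ∈ f, χ i = true) ∨ (∀ i ∈ f, χ i = false) := by
  have key : ∀ a b c d e f g : Bool,
      ((a = b ∧ b = d) ∨ (b = c ∧ c = e) ∨ (c = d ∧ d = f) ∨ (d = e ∧ e = g) ∨
        (e = f ∧ f = a) ∨ (f = g ∧ g = b) ∨ (g = a ∧ a = c)) := by
    decide
  have mono : ∀ i j k : Fin 7, χ i = χ j → χ j = χ k →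
      (∀ l ∈ ({i, j, k} : Finset (Fin 7)), χ l = true) ∨
      (∀ l ∈ ({i, j, k} : Finset (Fin 7)), χ l = false) := by
    intro i j k h1 h2
    cases hk : χ k with
    | true =>
      left
      intro l hl
      simp only [Finset.mem_insert, Finset.mem_singleton] at hl
      rcases hl with rfl | rfl | rfl
      · rw [h1, h2, hk]
      · rw [h2, hk]
      · exact hk
    | false =>
      right
      intro l hl
      simp only [Finset.mem_insert, Finset.mem_singleton] at hl
      rcases hl with rfl | rfl | rfl
      · rw [h1, h2, hk]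
      · rw [h2, hk]
      · exact hk
  rcases key (χ 0) (χ 1) (χ 2) (χ 3) (χ 4) (χ 5) (χ 6) with
    h | h | h | h | h | h | h
  · exact ⟨{0, 1, 3}, by simp [fano], mono _ _ _ h.1 h.2⟩
  · exact ⟨{1, 2, 4}, by simp [fano], mono _ _ _ h.1 h.2⟩
  · exact ⟨{2, 3, 5}, by simp [fano], mono _ _ _ h.1 h.2⟩
  · exact ⟨{3, 4, 6}, by simp [fano], mono _ _ _ h.1 h.2⟩
  · exact ⟨{4, 5, 0}, by simp [fano], mono _ _ _ h.1 h.2⟩
  · exact ⟨{5, 6, 1}, by simp [fano], mono _ _ _ h.1 h.2⟩
  · exact ⟨{6, 0, 2}, by simp [fano], mono _ _ _ h.1 h.2⟩

omit [Fintype V] in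
private theorem lower_const (E : Finset (Finset V)) (κ : V ⊕ {f // f ∈ E} → Prop)
    (h : ∀ (v : V) (f : {f // f ∈ E}), v ∈ f.1 → (κ (Sum.inl v) ↔ κ (Sum.inr f)))
    (a b : V ⊕ {f // f ∈ E}) (hab : (incidence E).Reachable a b) : κ a ↔ κ b := by
  obtain ⟨p⟩ := hab
  induction p with
  | nil => exact Iff.rfl
  | cons hadj p ih =>
    refine Iff.trans ?_ ih
    rename_i u v w
    rcases u with u | u <;> rcases v with v | v
    · exact False.elim hadj
    · exact h u v hadj
    · exact (h v u hadj).symm
    · exact False.elim hadj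

/-- two red cliques -/
theorem not_arrows_of_connected (E : Finset (Finset V)) (h3 : ∀ f ∈ E, f.card = 3)
    (hc : (incidence E).Connected) (N : ℕ) (hN : N ≤ 2 * (Fintype.card V - 1)) :
    ¬ Arrows E N := by
  intro hA
  have hne : Nonempty V := by
    obtain ⟨x⟩ := hc.nonempty
    rcases x with v | f
    · exact ⟨v⟩
    · have hf := h3 f.1 f.2
      have : f.1.Nonempty := by rw [← Finset.card_pos]; omega
      exact ⟨this.choose⟩
  have hpos : 0 < Fintype.card V := Fintype.card_pos
  set n := Fintype.card V with hn
  rcases hA (fun f => decide ((∀ x ∈ f, x.val < n - 1) ∨ (∀ x ∈ f, n - 1 ≤ x.val))) with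
    ⟨φ, hφ⟩ | ⟨ψ, hψ⟩
  · have hκ := lower_const E
      (fun a => match a with
        | Sum.inl v => (φ v).val < n - 1
        | Sum.inr f => ∀ v ∈ f.1, (φ v).val < n - 1)
      (by
        intro v f hv
        have hf := hφ f.1 f.2
        simp only [decide_eq_true_eq, Finset.mem_map, forall_exists_index, and_imp,
          forall_apply_eq_imp_iff₂] at hf
        constructor
        · intro h1
          rcases hf with hf | hf
          · exact hf
          · have := hf v hv
            simp only at h1
            omega
        · intro h1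
          exact h1 v hv)
    have hall : ∀ v w : V, (φ v).val < n - 1 ↔ (φ w).val < n - 1 := by
      intro v w
      exact hκ (Sum.inl v) (Sum.inl w) (hc.preconnected _ _)
    obtain ⟨v0⟩ := hne
    by_cases h0 : (φ v0).val < n - 1
    · have : Fintype.card V ≤ Fintype.card (Fin (n - 1)) :=
        Fintype.card_le_of_injective (fun v => (⟨(φ v).val, (hall v0 v).mp h0⟩ : Fin (n - 1)))
          (by
            intro a b hab
            simp only [Fin.mk.injEq] at hab
            exact φ.injective (Fin.ext hab))
      rw [Fintype.card_fin] at this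
      omega
    · have hge : ∀ v, n - 1 ≤ (φ v).val := by
        intro v
        by_contra hlt
        push Not at hlt
        exact h0 ((hall v v0).mp hlt)
      have : Fintype.card V ≤ Fintype.card (Fin (n - 1)) :=
        Fintype.card_le_of_injective
          (fun v => (⟨(φ v).val - (n - 1), by
            have h1 := hge v
            have h2 := (φ v).isLt
            have h3 : 0 < n - 1 := by omega
            omega⟩ : Fin (n - 1)))
          (by
            intro a b hab
            simp only [Fin.mk.injEq] at hab
            have h1 := hge a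
            have h2 := hge b
            exact φ.injective (Fin.ext (by omega)))
      rw [Fintype.card_fin] at this
      omega
  · obtain ⟨f, hf, h⟩ := lower_fano (fun i => decide ((ψ i).val < n - 1))
    have h1 := hψ f hf
    simp only [decide_eq_false_iff_not, not_or, Finset.mem_map, forall_exists_index, and_imp,
      forall_apply_eq_imp_iff₂] at h1
    rcases h with h | h
    · apply h1.1
      intro i hi
      have := h i hi
      simpa using this
    · apply h1.2
      intro i hi
      have := h i hi
      simpa using this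

/-- everything blue -/
theorem not_arrows_of_le_six (E : Finset (Finset V)) (hE : E.Nonempty) (N : ℕ) (hN : N ≤ 6) :
    ¬ Arrows E N := by
  intro hA
  rcases hA (fun _ => false) with ⟨φ, hφ⟩ | ⟨ψ, -⟩
  · obtain ⟨f, hf⟩ := hE
    have := hφ f hf
    simp at this
  · have := Fintype.card_le_of_injective ψ ψ.injective
    rw [Fintype.card_fin, Fintype.card_fin] at this
    omega

end Pool.MP7783b9
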