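import Pool.Agent.H.MP_7783b9_co.ForestL
import Pool.Agent.H.MP_7783b9_co.Incid
import Pool.Agent.H.MP_7783b9_co.Lower

/-!
# The characterisation of the Fano-good acyclic 3-uniform hypergraphs
-/

set_option autoImplicit false

open Finset

namespace Pool.MP7783b9

variable {V : Type*} [Fintype V] [DecidableEq V]

theorem arrows_of (E : Finset (Finset V)) (N : ℕ)
    (h : ∀ R : Finset (Fin N) → Prop, HasRed R (Finset.univ : Finset V) E Finset.univ ∨
      BlueFano R Finset.univ) : Arrows E N := by
  intro c
  rcases h (fun f => c f = true) with h1 | h1
  · left
    obtain ⟨φ, hinj, -, hE⟩ := h1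
    have hi : Function.Injective φ := by
      intro a b hab
      exact hinj (by simp) (by simp) hab
    refine ⟨⟨φ, hi⟩, fun f hf => ?_⟩
    have := hE f hf
    rw [Finset.map_eq_image]
    exact this
  · right
    obtain ⟨ψ, hinj, -, hF⟩ := h1
    refine ⟨⟨ψ, hinj⟩, fun f hf => ?_⟩
    have := hF f hf
    rw [Finset.map_eq_image]
    simpa using this

/-- the value of the Ramsey number -/
private theorem final_ramsey_eq (E : Finset (Finset V)) (n : ℕ) (h1 : Arrows E n)
    (h2 : ∀ m, m < n → ¬ Arrows E m) : ramsey E = n := by
  unfold ramsey
  apply le_antisymm
  · exact Nat.sInf_le h1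
  · by_contra hlt
    push Not at hlt
    have hne : {N | Arrows E N}.Nonempty := ⟨n, h1⟩
    exact h2 _ hlt (Nat.sInf_mem hne)

theorem main (E : Finset (Finset V)) (h3 : ∀ f ∈ E, f.card = 3)
    (hac : (incidence E).IsAcyclic) :
    FanoGood E ↔ ((incidence E).Connected ∧ E.card ≠ 1) ∨ (Fintype.card V = 4 ∧ E.card = 1) := by
  have hAc := isAc_of_incidence E h3 hac
  have hconn := connected_iff E h3 hac
  have hcard : (Finset.univ : Finset V).card = Fintype.card V := Finset.card_univ
  constructor
  · intro hF
    unfold FanoGood at hF
    by_cases hc : (incidence E).Connected
    · left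
      refine ⟨hc, fun hE => ?_⟩
      have hV : Fintype.card V = 3 := by rw [hconn.mp hc, hE]
      have h5 : ramsey E = 5 := by rw [hF, hV]
      have hne : {N | Arrows E N}.Nonempty := by
        by_contra hemp
        rw [Set.not_nonempty_iff_eq_empty] at hemp
        unfold ramsey at h5
        rw [hemp, Nat.sInf_empty] at h5
        omega
      have hmem : Arrows E 5 := by
        have := Nat.sInf_mem hne
        have h5' : sInf {N | Arrows E N} = 5 := h5
        rw [h5'] at this
        exact this
      exact not_arrows_of_le_six E (Finset.card_pos.mp (by omega)) 5 (by norm_num) hmem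
    · right
      by_contra hex
      by_cases hV0 : Fintype.card V = 0
      · have hVe : IsEmpty V := Fintype.card_eq_zero_iff.mp hV0
        have hA0 : Arrows E 0 := by
          intro c
          left
          refine ⟨⟨fun v => (hVe.false v).elim, fun a => (hVe.false a).elim⟩, fun f hf => ?_⟩
          have h3f := h3 f hf
          have : f.card = 0 := by
            rw [Finset.card_eq_zero, Finset.eq_empty_iff_forall_notMem]
            intro v
            exact (hVe.false v).elim
          omega
        have h0 : ramsey E = 0 := by
          unfold ramsey
          exact Nat.le_zero.mp (Nat.sInf_le hA0)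
        omega
      · have hVne : (Finset.univ : Finset V).Nonempty := by
          rw [← Finset.card_pos, hcard]
          omega
        have hge := hAc.card_ge hVne
        rw [hcard] at hge
        have hne : Fintype.card V ≠ 2 * E.card + 1 := fun h => hc (hconn.mpr h)
        have hA : Arrows E (2 * Fintype.card V - 2) := by
          apply arrows_of
          intro R
          apply forest_F R Finset.univ E hAc
          · rw [hcard]; omega
          · rw [hcard, Finset.card_univ, Fintype.card_fin]; omega
          · rw [hcard]; exact hex
        have hle : ramsey E ≤ 2 * Fintype.card V - 2 := by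
          unfold ramsey
          exact Nat.sInf_le hA
        omega
  · intro h
    unfold FanoGood
    rcases h with ⟨hc, hE⟩ | ⟨hV, hE⟩
    · have hV := hconn.mp hc
      have hVne : (Finset.univ : Finset V).Nonempty := by
        rw [← Finset.card_pos, hcard]
        omega
      apply final_ramsey_eq
      · apply arrows_of
        intro R
        apply forest_G R Finset.univ E hAc hVne
        · rw [hcard, Finset.card_univ, Fintype.card_fin]; omega
        · intro _ h1
          exact absurd h1 hE
      · intro m hm
        apply not_arrows_of_connected E h3 hc
        omega
    · have hVne : (Finset.univ : Finset V).Nonempty := by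
        rw [← Finset.card_pos, hcard]
        omega
      apply final_ramsey_eq
      · apply arrows_of
        intro R
        apply forest_G R Finset.univ E hAc hVne
        · rw [hcard, Finset.card_univ, Fintype.card_fin]; omega
        · intro h1 _
          rw [hcard] at h1
          omega
      · intro m hm
        apply not_arrows_of_le_six E (Finset.card_pos.mp (by omega))
        omega

end Pool.MP7783b9
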