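import Pool.Agent.H.MP_7783b9_co.Core

/-!
# Barriers (the deficiency version of Tutte's theorem)
-/

set_option autoImplicit false

open Finset

namespace Pool.MP7783b9

variable {α : Type*} [DecidableEq α]

private theorem barrier_invol {β : Type*} [DecidableEq β] (s : β → β) (k : ℕ) :
    ∀ B : Finset β, (∀ x ∈ B, s x ∈ B) → (∀ x ∈ B, s (s x) = x) → (∀ x ∈ B, s x ≠ x) →
      2 * k ≤ B.card →
      ∃ g : Fin k × Bool → β, Function.Injective g ∧ (∀ p, g p ∈ B) ∧
        ∀ i, g (i, true) = s (g (i, false)) := by
  induction k with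
  | zero =>
    intro B _ _ _ _
    exact ⟨fun p => p.1.elim0, fun p => p.1.elim0, fun p => p.1.elim0, fun i => i.elim0⟩
  | succ k ih =>
    intro B h1 h2 h3 h4
    have hne : B.Nonempty := by
      rw [← Finset.card_pos]; omega
    obtain ⟨x, hx⟩ := hne
    have hsx := h1 x hx
    have hss := h2 x hx
    have hsn := h3 x hx
    set B' := (B.erase x).erase (s x) with hB'
    have hsub : ∀ y ∈ B', y ∈ B ∧ y ≠ x ∧ y ≠ s x := by
      intro y hy
      simp only [hB', Finset.mem_erase] at hy
      exact ⟨hy.2.2, hy.2.1, hy.1⟩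
    have hcard : B'.card = B.card - 2 := by
      have e1 : (B.erase x).card = B.card - 1 := Finset.card_erase_of_mem hx
      have e2 : B'.card = (B.erase x).card - 1 :=
        Finset.card_erase_of_mem (Finset.mem_erase.2 ⟨hsn, hsx⟩)
      omega
    obtain ⟨g, hg1, hg2, hg3⟩ := ih B' (by
        intro y hy
        obtain ⟨hyB, hyx, hysx⟩ := hsub y hy
        rw [hB']
        refine Finset.mem_erase.2 ⟨?_, Finset.mem_erase.2 ⟨?_, h1 y hyB⟩⟩
        · intro h
          apply hyx
          rw [← h2 y hyB, h, hss]
        · intro h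
          apply hysx
          rw [← h, h2 y hyB])
      (fun y hy => h2 y (hsub y hy).1) (fun y hy => h3 y (hsub y hy).1) (by omega)
    refine ⟨fun p => Fin.cases (motive := fun _ => β) (if p.2 then s x else x)
      (fun i => g (i, p.2)) p.1, ?_, ?_, ?_⟩
    · rintro ⟨i, b⟩ ⟨j, c⟩ h
      induction i using Fin.cases with
      | zero =>
        induction j using Fin.cases with
        | zero =>
          simp only [Fin.cases_zero] at h
          cases b <;> cases c <;> simp at h ⊢
          · exact hsn h.symm
          · exact hsn h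
        | succ j =>
          exfalso
          simp only [Fin.cases_zero, Fin.cases_succ] at h
          have := hsub _ (hg2 (j, c))
          rw [← h] at this
          cases b
          · exact this.2.1 rfl
          · exact this.2.2 rfl
      | succ i =>
        induction j using Fin.cases with
        | zero =>
          exfalso
          simp only [Fin.cases_zero, Fin.cases_succ] at h
          have := hsub _ (hg2 (i, b))
          rw [h] at this
          cases c
          · exact this.2.1 rfl
          · exact this.2.2 rfl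
        | succ j =>
          simp only [Fin.cases_succ] at h
          have := hg1 h
          simp only [Prod.mk.injEq] at this
          rw [this.1, this.2]
    · rintro ⟨i, b⟩
      induction i using Fin.cases with
      | zero =>
        cases b
        · simpa using hx
        · simpa using hsx
      | succ i =>
        simpa using (hsub _ (hg2 (i, b))).1
    · intro i
      induction i using Fin.cases with
      | zero => simp
      | succ i => simpa using hg3 i

/-- the auxiliary graph: the old vertices and `m` new vertices adjacent to everything -/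
private def barrier_gr (G : α → α → Prop) (hG : ∀ x y, G x y → G y x) (U : Finset α) (m : ℕ) :
    SimpleGraph ({x // x ∈ U} ⊕ Fin m) where
  Adj a b := match a, b with
    | Sum.inl x, Sum.inl y => x ≠ y ∧ G x y
    | Sum.inl _, Sum.inr _ => True
    | Sum.inr _, Sum.inl _ => True
    | Sum.inr i, Sum.inr j => i ≠ j
  symm := ⟨by
    rintro (x | i) (y | j) h
    · exact ⟨h.1.symm, hG _ _ h.2⟩
    · trivial
    · trivial
    · exact (show i ≠ j from h).symm⟩
  loopless := ⟨by
    rintro (x | i) h
    · exact h.1 rfl
    · exact (show i ≠ i from h) rfl⟩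

private theorem barrier_noPM (G : α → α → Prop) (hG : ∀ x y, G x y → G y x) (U : Finset α)
    (k m : ℕ) (hU : U.card = 2 * k + m) (h : ¬ Mat G U k) :
    ¬ ∃ M : (barrier_gr G hG U m).Subgraph, M.IsPerfectMatching := by
  rintro ⟨M, hM⟩
  apply h
  have hp : ∀ v, ∃ w, M.Adj v w := fun v => (hM.1 (hM.2 v)).exists
  choose s hs using hp
  have huniq : ∀ v w, M.Adj v w → w = s v := fun v w hw =>
    (hM.1 (hM.2 v)).unique hw (hs v)
  have hinv : ∀ v, s (s v) = v := fun v => (huniq (s v) v (hs v).symm).symm
  classical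
  set t : {x // x ∈ U} → {x // x ∈ U} := fun x => Sum.elim id (fun _ => x) (s (Sum.inl x))
    with ht
  set B : Finset {x // x ∈ U} := Finset.univ.filter (fun x => ∃ y, s (Sum.inl x) = Sum.inl y)
    with hB
  have htB : ∀ x ∈ B, s (Sum.inl x) = Sum.inl (t x) := by
    intro x hx
    obtain ⟨y, hy⟩ := (Finset.mem_filter.1 hx).2
    rw [ht]
    simp [hy]
  have h1 : ∀ x ∈ B, t x ∈ B := by
    intro x hx
    refine Finset.mem_filter.2 ⟨Finset.mem_univ _, x, ?_⟩
    rw [← htB x hx, hinv]
  have h2 : ∀ x ∈ B, t (t x) = x := by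
    intro x hx
    have e := htB (t x) (h1 x hx)
    rw [← htB x hx, hinv] at e
    exact (Sum.inl_injective e).symm
  have hadj : ∀ x ∈ B, (x : α) ≠ t x ∧ G x (t x) := by
    intro x hx
    have e := (hs (Sum.inl x)).adj_sub
    rw [htB x hx] at e
    exact ⟨fun hh => e.1 (Subtype.ext hh), e.2⟩
  have h3 : ∀ x ∈ B, t x ≠ x := by
    intro x hx hh
    exact (hadj x hx).1 (congrArg Subtype.val hh.symm)
  have hcard : 2 * k ≤ B.card := by
    have hc : (Finset.univ.filter
        (fun x : {x // x ∈ U} => ¬ ∃ y, s (Sum.inl x) = Sum.inl y)).card ≤ m := by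
      have : ∀ x : {x // x ∈ U}, (¬ ∃ y, s (Sum.inl x) = Sum.inl y) →
          ∃ i : Fin m, s (Sum.inl x) = Sum.inr i := by
        intro x hx
        rcases hsx : s (Sum.inl x) with y | i
        · exact absurd ⟨y, hsx⟩ hx
        · exact ⟨i, rfl⟩
      calc _ ≤ ((Finset.univ : Finset (Fin m)).map
              ⟨(Sum.inr : Fin m → {x // x ∈ U} ⊕ Fin m), Sum.inr_injective⟩).card := by
            refine Finset.card_le_card_of_injOn (fun x => s (Sum.inl x)) ?_ ?_
            · intro x hx
              obtain ⟨i, hi⟩ := this x (Finset.mem_filter.1 (Finset.mem_coe.1 hx)).2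
              rw [Finset.mem_coe, Finset.mem_map]
              exact ⟨i, Finset.mem_univ _, hi.symm⟩
            · intro x _ y _ hxy
              have := congrArg s hxy
              simp only [hinv] at this
              exact Sum.inl_injective this
        _ = m := by simp
    have hsum := Finset.card_filter_add_card_filter_not (s := (Finset.univ : Finset {x // x ∈ U}))
      (fun x => ∃ y, s (Sum.inl x) = Sum.inl y)
    rw [Finset.card_univ, Fintype.card_coe] at hsum
    rw [hB]
    omega
  obtain ⟨g, hg1, hg2, hg3⟩ := barrier_invol t k B h1 h2 h3 hcard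
  refine ⟨fun p => (g p : α), fun p q hpq => hg1 (Subtype.ext hpq), fun p => (g p).2, ?_⟩
  intro i
  show G (g (i, false)) (g (i, true))
  rw [hg3]
  exact (hadj _ (hg2 (i, false))).2

theorem barrier (G : α → α → Prop) (hG : ∀ x y, G x y → G y x) (U : Finset α) (k m : ℕ)
    (hm : 1 ≤ m) (hU : U.card = 2 * k + m) (h : ¬ Mat G U k) :
    ∃ A ⊆ U, ∃ comp : α → ℕ,
      (∀ x ∈ U \ A, ∀ y ∈ U \ A, comp x ≠ comp y → ¬ G x y) ∧
      A.card + m + 2 ≤ ((U \ A).image comp).card := by
  classical
  have hno := barrier_noPM G hG U k m hU h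
  rw [SimpleGraph.tutte] at hno
  obtain ⟨u, hu⟩ := not_forall_not.1 hno
  rw [SimpleGraph.IsTutteViolator] at hu
  set Gr := barrier_gr G hG U m with hGr
  set S := (⊤ : Gr.Subgraph).deleteVerts u with hS
  have hverts : S.verts = uᶜ := by
    rw [hS, SimpleGraph.Subgraph.deleteVerts_verts, SimpleGraph.Subgraph.verts_top,
      Set.compl_eq_univ_sdiff]
  have hSadj : ∀ a b : S.verts, Gr.Adj a b → S.coe.Adj a b := by
    intro a b hab
    rw [SimpleGraph.Subgraph.coe_adj]
    have hdel : ∀ x y, x ∈ uᶜ → y ∈ uᶜ → Gr.Adj x y → S.Adj x y := by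
      intro x y hx hy hxy
      rw [hS, SimpleGraph.Subgraph.deleteVerts_adj]
      exact ⟨trivial, hx, trivial, hy, hxy⟩
    have ha : (a : {x // x ∈ U} ⊕ Fin m) ∈ uᶜ := by
      rw [← hverts]; exact a.2
    have hb : (b : {x // x ∈ U} ⊕ Fin m) ∈ uᶜ := by
      rw [← hverts]; exact b.2
    exact hdel _ _ ha hb hab
  have hcardV : Nat.card ({x // x ∈ U} ⊕ Fin m) = 2 * k + 2 * m := by
    rw [Nat.card_eq_fintype_card, Fintype.card_sum, Fintype.card_coe, Fintype.card_fin, hU]
    ring
  have hcardS : Nat.card S.verts = 2 * k + 2 * m - u.ncard := by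
    rw [hverts, Nat.card_coe_set_eq, Set.ncard_compl, hcardV]
  have hucard : u.ncard ≤ 2 * k + 2 * m := by
    rw [← hcardV]
    exact Set.ncard_le_card u
  have hodd := S.coe.odd_ncard_oddComponents
  rw [hcardS] at hodd
  -- all new vertices are in u
  have hnew : ∀ i : Fin m, Sum.inr i ∈ u := by
    intro i
    by_contra hi
    have hmem : (Sum.inr i : {x // x ∈ U} ⊕ Fin m) ∈ S.verts := by
      rw [hverts]; exact hi
    have hreach : ∀ a : S.verts, S.coe.Reachable a ⟨Sum.inr i, hmem⟩ := by
      intro a
      by_cases ha : a = ⟨Sum.inr i, hmem⟩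
      · rw [ha]
      · apply SimpleGraph.Adj.reachable
        apply hSadj
        rcases a with ⟨x | j, hx⟩
        · trivial
        · show j ≠ i
          intro hj
          apply ha
          subst hj
          rfl
    have hsub : Subsingleton S.coe.ConnectedComponent := by
      refine ⟨fun c d => ?_⟩
      induction c using SimpleGraph.ConnectedComponent.ind with
      | _ a =>
        induction d using SimpleGraph.ConnectedComponent.ind with
        | _ b =>
          exact SimpleGraph.ConnectedComponent.sound ((hreach a).trans (hreach b).symm)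
    have hle : S.coe.oddComponents.ncard ≤ 1 := Set.ncard_le_one_of_subsingleton _
    have h0 : u.ncard = 0 := by omega
    have h1 : S.coe.oddComponents.ncard = 1 := by omega
    rw [h0, h1] at hodd
    have := hodd.1 odd_one
    rw [Nat.odd_iff] at this
    omega
  set A : Finset α := U.filter (fun x => ∃ hx : x ∈ U, (Sum.inl ⟨x, hx⟩ : _ ⊕ Fin m) ∈ u)
    with hA
  have hAmem : ∀ x (hx : x ∈ U), x ∈ A ↔ (Sum.inl ⟨x, hx⟩ : _ ⊕ Fin m) ∈ u := by
    intro x hx
    rw [hA, Finset.mem_filter]
    constructor
    · rintro ⟨_, _, h'⟩; exact h'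
    · intro h'; exact ⟨hx, hx, h'⟩
  have hAU : A ⊆ U := Finset.filter_subset _ _
  have hucard2 : u.ncard = A.card + m := by
    have hsplit : u = (Sum.inl '' (Sum.inl ⁻¹' u)) ∪ Set.range (Sum.inr : Fin m → _) := by
      ext v
      rcases v with x | i
      · simp
      · simp [hnew i]
    rw [hsplit, Set.ncard_union_eq]
    · congr 1
      · rw [Set.ncard_image_of_injective _ Sum.inl_injective]
        rw [← Set.ncard_coe_finset A]
        refine Set.ncard_congr (fun x _ => (x : α)) ?_ ?_ ?_
        · intro x hx
          rw [Finset.mem_coe, hAmem x.1 x.2]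
          exact hx
        · intro x y _ _ hxy
          exact Subtype.ext hxy
        · intro x hx
          have hxU := hAU (Finset.mem_coe.1 hx)
          exact ⟨⟨x, hxU⟩, (hAmem x hxU).1 hx, rfl⟩
      · rw [← Set.image_univ, Set.ncard_image_of_injective _ Sum.inr_injective,
          Set.ncard_univ, Nat.card_fin]
    · rw [Set.disjoint_left]
      rintro v ⟨x, _, rfl⟩ ⟨i, hi⟩
      exact absurd hi (by simp)
  have hq : A.card + m + 2 ≤ S.coe.oddComponents.ncard := by
    rw [hucard2] at hu hodd hucard
    rw [Nat.odd_iff, Nat.odd_iff] at hodd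
    have hAle : A.card ≤ 2 * k + m := by
      rw [← hU]; exact Finset.card_le_card hAU
    by_contra hlt
    have he : S.coe.oddComponents.ncard = A.card + m + 1 := by omega
    rw [he] at hodd
    omega
  -- labels
  obtain ⟨f, hf⟩ : ∃ f : S.coe.ConnectedComponent → ℕ, Function.Injective f := by
    have : Finite S.coe.ConnectedComponent := inferInstance
    exact ⟨fun c => (Finite.equivFin _ c : ℕ), fun c d hcd =>
      (Finite.equivFin _).injective (Fin.ext hcd)⟩
  have hmemS : ∀ x (hx : x ∈ U), x ∉ A → (Sum.inl ⟨x, hx⟩ : _ ⊕ Fin m) ∈ S.verts := by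
    intro x hx hxA
    rw [hverts]
    intro h'
    exact hxA ((hAmem x hx).2 h')
  let comp : α → ℕ := fun x => if hx : x ∈ U ∧ x ∉ A then
    f (S.coe.connectedComponentMk ⟨Sum.inl ⟨x, hx.1⟩, hmemS x hx.1 hx.2⟩) else 0
  have hcomp : ∀ x (hx : x ∈ U) (hxA : x ∉ A), comp x =
      f (S.coe.connectedComponentMk ⟨Sum.inl ⟨x, hx⟩, hmemS x hx hxA⟩) := by
    intro x hx hxA
    exact dif_pos ⟨hx, hxA⟩
  refine ⟨A, hAU, comp, ?_, ?_⟩
  · intro x hx y hy hne hxy
    rw [Finset.mem_sdiff] at hx hy
    apply hne
    rw [hcomp x hx.1 hx.2, hcomp y hy.1 hy.2]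
    congr 1
    apply SimpleGraph.ConnectedComponent.sound
    apply SimpleGraph.Adj.reachable
    apply hSadj
    refine ⟨?_, hxy⟩
    intro he
    apply hne
    rw [Subtype.mk.injEq] at he
    rw [he]
  · refine hq.trans ?_
    have hinj : (f '' S.coe.oddComponents).ncard = S.coe.oddComponents.ncard :=
      Set.ncard_image_of_injective _ hf
    rw [← hinj, ← Set.ncard_coe_finset ((U \ A).image comp)]
    refine Set.ncard_le_ncard ?_ (Finset.finite_toSet _)
    rintro _ ⟨c, _, rfl⟩
    induction c using SimpleGraph.ConnectedComponent.ind with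
    | _ a =>
      rcases a with ⟨x | j, hx⟩
      · have hxA : (x : α) ∉ A := by
          intro h'
          rw [hverts] at hx
          exact hx ((hAmem x.1 x.2).1 h')
        rw [Finset.mem_coe, Finset.mem_image]
        refine ⟨x, Finset.mem_sdiff.2 ⟨x.2, hxA⟩, ?_⟩
        rw [hcomp x.1 x.2 hxA]
      · exfalso
        rw [hverts] at hx
        exact hx (hnew j)

end Pool.MP7783b9
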