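import Pool.Agent.H.MP_7783b9_co.StarL

/-!
# Brooms versus the Pasch configuration
-/

set_option autoImplicit false

open Finset

namespace Pool.MP7783b9

variable {α : Type*} [DecidableEq α]

private theorem broomp_blue (R : Finset α → Prop) (W : Finset α) (k : ℕ)
    (hB : ¬ BroomConf R W k) (c : α) (hc : c ∈ W) (g : Fin k × Bool → α)
    (hg : IsMat (link R c) (W.erase c) k g) (q : Fin k × Bool) (x y : α)
    (hx : x ∈ W) (hxc : x ≠ c) (hy : y ∈ W) (hyc : y ≠ c) (hxy : x ≠ y)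
    (hgx : ∀ p, g p ≠ x) (hgy : ∀ p, g p ≠ y) : ¬ R {g q, x, y} := by
  intro hR
  exact hB ⟨c, hc, g, hg, q, x, Finset.mem_erase.2 ⟨hxc, hx⟩, y, Finset.mem_erase.2 ⟨hyc, hy⟩,
    hxy, fun p => ⟨hgx p, hgy p⟩, hR⟩

private theorem broomp_perm (R : Finset α → Prop) (W : Finset α) (k : ℕ) (hk : 2 ≤ k)
    (hB : ¬ BroomConf R W k) (c : α) (hc : c ∈ W) (g : Fin k × Bool → α)
    (hg : IsMat (link R c) (W.erase c) k g) (p1 p2 p3 : α)
    (h1 : p1 ∈ W) (h2 : p2 ∈ W) (h3 : p3 ∈ W) (h1c : p1 ≠ c) (h2c : p2 ≠ c) (h3c : p3 ≠ c)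
    (h12 : p1 ≠ p2) (h13 : p1 ≠ p3) (h23 : p2 ≠ p3)
    (hg1 : ∀ p, g p ≠ p1) (hg2 : ∀ p, g p ≠ p2) (hg3 : ∀ p, g p ≠ p3)
    (i0 : Fin k) (b0 : Bool) (hR : R {c, g (i0, b0), p1}) : Pasch R W := by
  obtain ⟨hinj, hmem, hlink⟩ := hg
  have hne : ∀ p q : Fin k × Bool, p ≠ q → g p ≠ g q := fun p q h h' => h (hinj h')
  have hgW : ∀ p, g p ∈ W := fun p => Finset.mem_of_mem_erase (hmem p)
  have hgc : ∀ p, g p ≠ c := fun p => Finset.ne_of_mem_erase (hmem p)
  have hblue := broomp_blue R W k hB c hc g ⟨hinj, hmem, hlink⟩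
  -- the modified matching
  let g' : Fin k × Bool → α := Function.update g (i0, !b0) p1
  have hg'v : g' (i0, !b0) = p1 := Function.update_self _ _ _
  have hg'o : ∀ p, p ≠ (i0, !b0) → g' p = g p := fun p hp => Function.update_of_ne hp _ _
  have hbb : ((i0, b0) : Fin k × Bool) ≠ (i0, !b0) := by
    intro h
    have := congrArg Prod.snd h
    cases b0 <;> simp at this
  have hinj' : Function.Injective g' := by
    intro p q hpq
    by_cases hp : p = (i0, !b0)
    · by_cases hq : q = (i0, !b0)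
      · rw [hp, hq]
      · rw [hp, hg'v, hg'o q hq] at hpq
        exact absurd hpq.symm (hg1 q)
    · by_cases hq : q = (i0, !b0)
      · rw [hq, hg'v, hg'o p hp] at hpq
        exact absurd hpq (hg1 p)
      · rw [hg'o p hp, hg'o q hq] at hpq
        exact hinj hpq
  have hmem' : ∀ p, g' p ∈ W.erase c := by
    intro p
    by_cases hp : p = (i0, !b0)
    · rw [hp, hg'v]
      exact Finset.mem_erase.2 ⟨h1c, h1⟩
    · rw [hg'o p hp]
      exact hmem p
  have hlink' : ∀ i, link R c (g' (i, false)) (g' (i, true)) := by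
    intro i
    by_cases hi : i = i0
    · subst hi
      cases b0 with
      | false =>
        have e1 : g' (i, false) = g (i, false) := hg'o _ (by simp)
        have e2 : g' (i, true) = p1 := hg'v
        rw [e1, e2]
        exact hR
      | true =>
        have e1 : g' (i, true) = g (i, true) := hg'o _ (by simp)
        have e2 : g' (i, false) = p1 := hg'v
        rw [e1, e2]
        exact link_symm R c _ _ hR
    · rw [hg'o (i, false) (fun h => hi (congrArg Prod.fst h)),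
        hg'o (i, true) (fun h => hi (congrArg Prod.fst h))]
      exact hlink i
  have hblue' := broomp_blue R W k hB c hc g' ⟨hinj', hmem', hlink'⟩
  -- the point z
  set z : α := g (i0, !b0) with hz
  have hzW : z ∈ W := hgW _
  have hzc : z ≠ c := hgc _
  have hz2 : z ≠ p2 := hg2 _
  have hz3 : z ≠ p3 := hg3 _
  have hz1 : z ≠ p1 := hg1 _
  have hg'z : ∀ p, g' p ≠ z := by
    intro p
    by_cases hp : p = (i0, !b0)
    · rw [hp, hg'v]
      exact hz1.symm
    · rw [hg'o p hp]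
      exact hne _ _ hp
  have hg'2 : ∀ p, g' p ≠ p2 := by
    intro p
    by_cases hp : p = (i0, !b0)
    · rw [hp, hg'v]
      exact h12
    · rw [hg'o p hp]
      exact hg2 p
  have hg'3 : ∀ p, g' p ≠ p3 := by
    intro p
    by_cases hp : p = (i0, !b0)
    · rw [hp, hg'v]
      exact h13
    · rw [hg'o p hp]
      exact hg3 p
  -- another index
  obtain ⟨i1, hi1⟩ : ∃ i1 : Fin k, i1 ≠ i0 := by
    haveI : Nontrivial (Fin k) := Fin.nontrivial_iff_two_le.2 hk
    exact exists_ne i0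
  have hx' : g' (i1, false) = g (i1, false) := hg'o _ (fun h => hi1 (congrArg Prod.fst h))
  have hy' : g' (i1, true) = g (i1, true) := hg'o _ (fun h => hi1 (congrArg Prod.fst h))
  have hxy : g (i1, false) ≠ g (i1, true) := hne _ _ (by simp)
  have hxz : g (i1, false) ≠ z := hne _ _ (fun h => hi1 (congrArg Prod.fst h))
  have hyz : g (i1, true) ≠ z := hne _ _ (fun h => hi1 (congrArg Prod.fst h))
  have b1 : ¬ R {g (i1, false), z, p2} := by
    rw [← hx']
    exact hblue' (i1, false) z p2 hzW hzc h2 h2c hz2 hg'z hg'2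
  have b2 : ¬ R {g (i1, true), p3, z} := by
    rw [← hy']
    exact hblue' (i1, true) p3 z h3 h3c hzW hzc hz3.symm hg'3 hg'z
  have b3 : ¬ R {g (i1, false), p1, p3} :=
    hblue (i1, false) p1 p3 h1 h1c h3 h3c h13 hg1 hg3
  have b4 : ¬ R {g (i1, true), p2, p1} :=
    hblue (i1, true) p2 p1 h2 h2c h1 h1c h12.symm hg2 hg1
  refine ⟨g (i1, false), g (i1, true), z, p2, p1, p3, hgW _, hgW _, hzW, h2, h1, h3, ?_, b1, b3,
    b4, b2⟩
  simp only [List.nodup_cons, List.mem_cons, List.not_mem_nil, or_false, not_or,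
    List.nodup_nil, and_true, not_false_eq_true]
  exact ⟨⟨hxy, hxz, hg2 _, hg1 _, hg3 _⟩, ⟨hyz, hg2 _, hg1 _, hg3 _⟩, ⟨hz2, hz1, hz3⟩,
    ⟨h12.symm, h23⟩, h13⟩

theorem broom_pasch (R : Finset α → Prop) (W : Finset α) (k : ℕ) (hk : 2 ≤ k)
    (hW : W.card = 2 * k + 4) : Pasch R W ∨ BroomConf R W k := by
  by_cases hB : BroomConf R W k
  · exact Or.inr hB
  left
  by_cases hno : ∀ c ∈ W, ¬ Mat (link R c) (W.erase c) k
  · exact star_lemma R W k (by omega) hW hno
  push Not at hno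
  obtain ⟨c, hc, g, hg⟩ := hno
  have hg0 := hg
  obtain ⟨hinj, hmem, hlink⟩ := hg0
  have hne : ∀ p q : Fin k × Bool, p ≠ q → g p ≠ g q := fun p q h h' => h (hinj h')
  have hgW : ∀ p, g p ∈ W := fun p => Finset.mem_of_mem_erase (hmem p)
  have hgc : ∀ p, g p ≠ c := fun p => Finset.ne_of_mem_erase (hmem p)
  -- the three remaining points
  let I : Finset α := Finset.univ.image g
  have hI : I.card = 2 * k := by
    rw [Finset.card_image_of_injective _ hinj, Finset.card_univ, Fintype.card_prod,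
      Fintype.card_fin, Fintype.card_bool, mul_comm]
  have hIsub : I ⊆ W.erase c := by
    intro x hx
    obtain ⟨p, -, rfl⟩ := Finset.mem_image.1 hx
    exact hmem p
  have hD : ((W.erase c) \ I).card = 3 := by
    rw [Finset.card_sdiff_of_subset hIsub, hI, Finset.card_erase_of_mem hc, hW]
    omega
  obtain ⟨p1, p2, p3, h12, h13, h23, hD3⟩ := Finset.card_eq_three.1 hD
  have hprop : ∀ p ∈ ((W.erase c) \ I), p ∈ W ∧ p ≠ c ∧ ∀ q, g q ≠ p := by
    intro p hp
    rw [Finset.mem_sdiff, Finset.mem_erase] at hp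
    refine ⟨hp.1.2, hp.1.1, ?_⟩
    intro q hq
    exact hp.2 (Finset.mem_image.2 ⟨q, Finset.mem_univ _, hq⟩)
  obtain ⟨h1, h1c, hg1⟩ := hprop p1 (by rw [hD3]; simp)
  obtain ⟨h2, h2c, hg2⟩ := hprop p2 (by rw [hD3]; simp)
  obtain ⟨h3, h3c, hg3⟩ := hprop p3 (by rw [hD3]; simp)
  have hblue := broomp_blue R W k hB c hc g hg
  by_cases hB1 : ∃ q : Fin k × Bool, R {c, g q, p1}
  · obtain ⟨⟨i0, b0⟩, hq⟩ := hB1
    exact broomp_perm R W k hk hB c hc g hg p1 p2 p3 h1 h2 h3 h1c h2c h3c h12 h13 h23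
      hg1 hg2 hg3 i0 b0 hq
  by_cases hB3 : ∃ q : Fin k × Bool, R {c, g q, p3}
  · obtain ⟨⟨i0, b0⟩, hq⟩ := hB3
    exact broomp_perm R W k hk hB c hc g hg p3 p2 p1 h3 h2 h1 h3c h2c h1c h23.symm h13.symm
      h12.symm hg3 hg2 hg1 i0 b0 hq
  push Not at hB1 hB3
  have h0 : 0 < k := by omega
  let i : Fin k := ⟨0, h0⟩
  have hxy : g (i, false) ≠ g (i, true) := hne _ _ (by simp)
  have b1 : ¬ R {g (i, false), c, p1} := by
    have := hB1 (i, false)
    rwa [Finset.insert_comm] at this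
  have b2 : ¬ R {g (i, false), p2, p3} :=
    hblue (i, false) p2 p3 h2 h2c h3 h3c h23 hg2 hg3
  have b3 : ¬ R {g (i, true), p1, p2} :=
    hblue (i, true) p1 p2 h1 h1c h2 h2c h12 hg1 hg2
  have b4 : ¬ R {g (i, true), p3, c} := by
    have := hB3 (i, true)
    rwa [Finset.insert_comm, Finset.pair_comm] at this
  refine ⟨g (i, false), g (i, true), c, p1, p2, p3, hgW _, hgW _, hc, h1, h2, h3, ?_, b1, b2,
    b3, b4⟩
  simp only [List.nodup_cons, List.mem_cons, List.not_mem_nil, or_false, not_or,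
    List.nodup_nil, and_true, not_false_eq_true]
  exact ⟨⟨hxy, hgc _, hg1 _, hg2 _, hg3 _⟩, ⟨hgc _, hg1 _, hg2 _, hg3 _⟩,
    ⟨h1c.symm, h2c.symm, h3c.symm⟩, ⟨h12, h13⟩, h23⟩

end Pool.MP7783b9
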