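import Pool.Agent.H.MP_7783b9_co.Defs

/-!
# Fano-goodness: working definitions
-/

set_option autoImplicit false

open Finset

namespace Pool.MP7783b9

variable {α V : Type*} [DecidableEq α] [DecidableEq V]

/-- a blue Pasch configuration in `W`; `R` is the set of red triples.  The four blocks are
`uab, ucd, vbc, vda`. -/
def Pasch (R : Finset α → Prop) (W : Finset α) : Prop :=
  ∃ u v a b c d : α, u ∈ W ∧ v ∈ W ∧ a ∈ W ∧ b ∈ W ∧ c ∈ W ∧ d ∈ W ∧
    [u, v, a, b, c, d].Nodup ∧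
    ¬ R {u, a, b} ∧ ¬ R {u, c, d} ∧ ¬ R {v, b, c} ∧ ¬ R {v, d, a}

theorem Pasch.mono {R : Finset α → Prop} {W W' : Finset α} (h : W ⊆ W') (hP : Pasch R W) :
    Pasch R W' := by
  obtain ⟨u, v, a, b, c, d, hu, hv, ha, hb, hc, hd, rest⟩ := hP
  exact ⟨u, v, a, b, c, d, h hu, h hv, h ha, h hb, h hc, h hd, rest⟩

/-- `w` has at most one red pair in `P` -/
def Near (R : Finset α → Prop) (w : α) (P : Finset α) : Prop :=
  ∀ x ∈ P, ∀ y ∈ P, ∀ x' ∈ P, ∀ y' ∈ P, x ≠ y → x' ≠ y' → R {w, x, y} → R {w, x', y'} →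
    ({x, y} : Finset α) = {x', y'}

/-- the (red) link of `c` as a relation -/
def link (R : Finset α → Prop) (c x y : α) : Prop := R {c, x, y}

theorem link_symm (R : Finset α → Prop) (c x y : α) (h : link R c x y) : link R c y x := by
  unfold link at *
  rwa [Finset.pair_comm y x]

/-- a matching with `k` edges of the relation `G` inside `U` -/
def IsMat (G : α → α → Prop) (U : Finset α) (k : ℕ) (g : Fin k × Bool → α) : Prop :=
  Function.Injective g ∧ (∀ p, g p ∈ U) ∧ ∀ i, G (g (i, false)) (g (i, true))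

def Mat (G : α → α → Prop) (U : Finset α) (k : ℕ) : Prop := ∃ g, IsMat G U k g

/-- a red broom: a red star with centre `c` and `k` edges and one more red edge attached at a
leaf of the star. -/
def BroomConf (R : Finset α → Prop) (W : Finset α) (k : ℕ) : Prop :=
  ∃ c ∈ W, ∃ g : Fin k × Bool → α, IsMat (link R c) (W.erase c) k g ∧
    ∃ q : Fin k × Bool, ∃ x ∈ W.erase c, ∃ y ∈ W.erase c, x ≠ y ∧ (∀ p, g p ≠ x ∧ g p ≠ y) ∧
      R {g q, x, y}

/-- a blue Fano plane in `U` -/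
def BlueFano (R : Finset α → Prop) (U : Finset α) : Prop :=
  ∃ ψ : Fin 7 → α, Function.Injective ψ ∧ (∀ i, ψ i ∈ U) ∧ ∀ f ∈ fano, ¬ R (f.image ψ)

/-- `φ` is a red copy of `(S, E)` inside `W` -/
def IsCopy (R : Finset α → Prop) (S : Finset V) (E : Finset (Finset V)) (W : Finset α)
    (φ : V → α) : Prop :=
  Set.InjOn φ S ∧ (∀ v ∈ S, φ v ∈ W) ∧ ∀ f ∈ E, R (f.image φ)

def HasRed (R : Finset α → Prop) (S : Finset V) (E : Finset (Finset V)) (W : Finset α) : Prop :=
  ∃ φ : V → α, IsCopy R S E W φ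

/-- an acyclic 3-uniform hypergraph with vertex set `S`; acyclicity is stated by densities -/
structure IsAc (S : Finset V) (E : Finset (Finset V)) : Prop where
  three : ∀ f ∈ E, f.card = 3
  sub : ∀ f ∈ E, f ⊆ S
  dens : ∀ E' ⊆ E, E'.Nonempty → 2 * E'.card + 1 ≤ (E'.biUnion id).card

/-- a (loose) tree -/
structure IsTr (S : Finset V) (E : Finset (Finset V)) : Prop extends IsAc S E where
  card : S.card = 2 * E.card + 1

/-- `f = {u, x, y}` is a leaf edge attached at `u` -/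
structure Leaf (E : Finset (Finset V)) (f : Finset V) (u x y : V) : Prop where
  mem : f ∈ E
  eq : f = {u, x, y}
  ux : u ≠ x
  uy : u ≠ y
  xy : x ≠ y
  x_notMem : ∀ g ∈ E, g ≠ f → x ∉ g
  y_notMem : ∀ g ∈ E, g ≠ f → y ∉ g

/-- no vertex lies in all edges -/
def NonStar (E : Finset (Finset V)) : Prop := ∀ c : V, ∃ f ∈ E, c ∉ f

end Pool.MP7783b9
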