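import Mathlib

/-!
# Fano-goodness of 3-uniform hypergraphs: definitions

A 3-uniform hypergraph on the vertex type `V` is given by its finite set `E` of edges, each of
them a 3-element set.
-/

set_option autoImplicit false

namespace Pool.MP7783b9

/-- Some copy of the hypergraph `(V, E)` in `α` (all vertices of `V` are embedded, also the
isolated ones) has all its edges in the class `P`. -/
def HasCopy {V α : Type*} (E : Finset (Finset V)) (P : Finset α → Prop) : Prop :=
  ∃ φ : V ↪ α, ∀ f ∈ E, P (f.map φ)

/-- The Fano plane: edges 124, 235, 346, 457, 561, 672, 713 (here on the points `0, ..., 6`). -/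
def fano : Finset (Finset (Fin 7)) :=
  {{0, 1, 3}, {1, 2, 4}, {2, 3, 5}, {3, 4, 6}, {4, 5, 0}, {5, 6, 1}, {6, 0, 2}}

/-- Every colouring of the sets of `Fin N` (only the 3-element sets matter) has a red
(`true`) copy of `(V, E)` or a blue (`false`) copy of the Fano plane. -/
def Arrows {V : Type*} (E : Finset (Finset V)) (N : ℕ) : Prop :=
  ∀ c : Finset (Fin N) → Bool,
    HasCopy E (fun f => c f = true) ∨ HasCopy fano (fun f => c f = false)

/-- The Ramsey number `r(H, F)` of `H = (V, E)` and the Fano plane. -/
noncomputable def ramsey {V : Type*} (E : Finset (Finset V)) : ℕ := sInf {N | Arrows E N}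

/-- `H = (V, E)` is `F`-good: `r(H, F) = 2 (v(H) - 1) + 1`. -/
def FanoGood {V : Type*} [Fintype V] (E : Finset (Finset V)) : Prop :=
  ramsey E = 2 * (Fintype.card V - 1) + 1

/-- The incidence graph of `(V, E)`: its vertices are the vertices and the edges of the
hypergraph, and a vertex is adjacent to the edges containing it. -/
def incidence {V : Type*} (E : Finset (Finset V)) : SimpleGraph (V ⊕ {f // f ∈ E}) where
  Adj a b := match a, b with
    | Sum.inl v, Sum.inr f => v ∈ f.1
    | Sum.inr f, Sum.inl v => v ∈ f.1
    | _, _ => False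
  symm := ⟨by rintro (v | f) (w | g) h <;> simp_all⟩
  loopless := ⟨by rintro (v | f) h <;> simp_all⟩

end Pool.MP7783b9
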