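import Pool.Agent.H.MP_7783b9_co.TreeS

/-!
# Embedding trees
-/

set_option autoImplicit false

open Finset

namespace Pool.MP7783b9

variable {α V : Type*} [DecidableEq α] [DecidableEq V]

/-- explicit form of `extend_leaf` -/
theorem emb_ext (R : Finset α → Prop) (W : Finset α) {S : Finset V} {E : Finset (Finset V)}
    (h : IsAc S E) {f : Finset V} {u x y : V} (hl : Leaf E f u x y) (φ : V → α)
    (hφ : IsCopy R (S \ {x, y}) (E.erase f) W φ) (x' y' : α) (hx' : x' ∈ W) (hy' : y' ∈ W)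
    (hxy : x' ≠ y') (hx'' : x' ∉ (S \ {x, y}).image φ) (hy'' : y' ∉ (S \ {x, y}).image φ)
    (hR : R {φ u, x', y'}) :
    ∃ φ' : V → α, IsCopy R S E W φ' ∧ φ' x = x' ∧ φ' y = y' ∧ ∀ v, v ≠ x → v ≠ y → φ' v = φ v := by
  obtain ⟨hinj, hW, hred⟩ := hφ
  let φ' : V → α := Function.update (Function.update φ x x') y y'
  have h1 : φ' x = x' := by
    simp only [φ']
    rw [Function.update_of_ne hl.xy, Function.update_self]
  have h2 : φ' y = y' := by
    simp only [φ']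
    rw [Function.update_self]
  have h3 : ∀ v, v ≠ x → v ≠ y → φ' v = φ v := by
    intro v hvx hvy
    simp only [φ']
    rw [Function.update_of_ne hvy, Function.update_of_ne hvx]
  have hcase : ∀ v ∈ S, v = x ∨ v = y ∨ (v ∈ S \ {x, y} ∧ v ≠ x ∧ v ≠ y) := by
    intro v hv
    by_cases hvx : v = x
    · exact Or.inl hvx
    · by_cases hvy : v = y
      · exact Or.inr (Or.inl hvy)
      · refine Or.inr (Or.inr ⟨?_, hvx, hvy⟩)
        rw [Finset.mem_sdiff, Finset.mem_insert, Finset.mem_singleton]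
        exact ⟨hv, fun h0 => h0.elim hvx hvy⟩
  have hx3 : ∀ v ∈ S \ {x, y}, φ v ≠ x' := fun v hv h0 =>
    hx'' (Finset.mem_image.2 ⟨v, hv, h0⟩)
  have hy3 : ∀ v ∈ S \ {x, y}, φ v ≠ y' := fun v hv h0 =>
    hy'' (Finset.mem_image.2 ⟨v, hv, h0⟩)
  refine ⟨φ', ⟨?_, ?_, ?_⟩, h1, h2, h3⟩
  · intro v hv w hw hvw
    rcases hcase v hv with rfl | rfl | ⟨hv1, hv2, hv3⟩
    · rcases hcase w hw with rfl | rfl | ⟨hw1, hw2, hw3⟩
      · rfl
      · rw [h1, h2] at hvw
        exact absurd hvw hxy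
      · rw [h1, h3 w hw2 hw3] at hvw
        exact absurd hvw.symm (hx3 w hw1)
    · rcases hcase w hw with rfl | rfl | ⟨hw1, hw2, hw3⟩
      · rw [h1, h2] at hvw
        exact absurd hvw.symm hxy
      · rfl
      · rw [h2, h3 w hw2 hw3] at hvw
        exact absurd hvw.symm (hy3 w hw1)
    · rcases hcase w hw with rfl | rfl | ⟨hw1, hw2, hw3⟩
      · rw [h1, h3 v hv2 hv3] at hvw
        exact absurd hvw (hx3 v hv1)
      · rw [h2, h3 v hv2 hv3] at hvw
        exact absurd hvw (hy3 v hv1)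
      · rw [h3 v hv2 hv3, h3 w hw2 hw3] at hvw
        exact hinj hv1 hw1 hvw
  · intro v hv
    rcases hcase v hv with rfl | rfl | ⟨hv1, hv2, hv3⟩
    · rw [h1]; exact hx'
    · rw [h2]; exact hy'
    · rw [h3 v hv2 hv3]; exact hW v hv1
  · intro g hg
    by_cases hgf : g = f
    · rw [hgf, hl.eq, Finset.image_insert, Finset.image_insert, Finset.image_singleton, h1, h2,
        h3 u hl.ux hl.uy]
      exact hR
    · have hge : g ∈ E.erase f := Finset.mem_erase.2 ⟨hgf, hg⟩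
      have himg : g.image φ' = g.image φ := by
        refine Finset.image_congr fun v hv => ?_
        have hv' : v ∈ g := hv
        refine h3 v ?_ ?_
        · rintro rfl
          exact hl.x_notMem g hg hgf hv'
        · rintro rfl
          exact hl.y_notMem g hg hgf hv'
      rw [himg]
      exact hred g hge

theorem extend_leaf (R : Finset α → Prop) (W : Finset α) {S : Finset V} {E : Finset (Finset V)}
    (h : IsAc S E) {f : Finset V} {u x y : V} (hl : Leaf E f u x y) (φ : V → α)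
    (hφ : IsCopy R (S \ {x, y}) (E.erase f) W φ) (x' y' : α) (hx' : x' ∈ W) (hy' : y' ∈ W)
    (hxy : x' ≠ y') (hx'' : x' ∉ (S \ {x, y}).image φ) (hy'' : y' ∉ (S \ {x, y}).image φ)
    (hR : R {φ u, x', y'}) : HasRed R S E W := by
  obtain ⟨φ', h', -⟩ := emb_ext R W h hl φ hφ x' y' hx' hy' hxy hx'' hy'' hR
  exact ⟨φ', h'⟩

theorem extend_two (R : Finset α → Prop) (W : Finset α) {S : Finset V} {E : Finset (Finset V)}
    (h : IsTr S E) {f₁ f₂ : Finset V} {u₁ x₁ y₁ u₂ x₂ y₂ : V}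
    (h₁ : Leaf E f₁ u₁ x₁ y₁) (h₂ : Leaf E f₂ u₂ x₂ y₂) (hf : f₁ ≠ f₂) (φ : V → α)
    (hφ : IsCopy R (S \ {x₁, y₁, x₂, y₂}) ((E.erase f₁).erase f₂) W φ) (a b c d : α)
    (ha : a ∈ W \ (S \ {x₁, y₁, x₂, y₂}).image φ) (hb : b ∈ W \ (S \ {x₁, y₁, x₂, y₂}).image φ)
    (hc : c ∈ W \ (S \ {x₁, y₁, x₂, y₂}).image φ) (hd : d ∈ W \ (S \ {x₁, y₁, x₂, y₂}).image φ)
    (hnd : [a, b, c, d].Nodup) (hR₁ : R {φ u₁, a, b}) (hR₂ : R {φ u₂, c, d}) :
    HasRed R S E W := by
  obtain ⟨-, hu₁, hu₂, hnd4⟩ := remove_two h h₁ h₂ hf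
  have hset : (S \ {x₁, y₁}) \ {x₂, y₂} = S \ {x₁, y₁, x₂, y₂} := by
    ext v
    simp only [Finset.mem_sdiff, Finset.mem_insert, Finset.mem_singleton]
    tauto
  have hl2 : Leaf (E.erase f₁) f₂ u₂ x₂ y₂ :=
    { mem := Finset.mem_erase.2 ⟨hf.symm, h₂.mem⟩
      eq := h₂.eq
      ux := h₂.ux
      uy := h₂.uy
      xy := h₂.xy
      x_notMem := fun g hg hgf => h₂.x_notMem g (Finset.mem_of_mem_erase hg) hgf
      y_notMem := fun g hg hgf => h₂.y_notMem g (Finset.mem_of_mem_erase hg) hgf }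
  have h1 := (h.remove h₁).1
  simp only [Finset.mem_sdiff] at ha hb hc hd
  simp only [List.nodup_cons, List.mem_cons, List.not_mem_nil, or_false, not_or,
    not_false_eq_true, List.nodup_nil, and_true] at hnd
  obtain ⟨⟨hab, hac, had⟩, ⟨hbc, hbd⟩, hcd⟩ := hnd
  obtain ⟨φ', hcopy, hx2, hy2, hoth⟩ := emb_ext R W h1.toIsAc hl2 φ (by rw [hset]; exact hφ) c d
    hc.1 hd.1 hcd (by rw [hset]; exact hc.2) (by rw [hset]; exact hd.2) hR₂
  simp only [Finset.mem_sdiff, Finset.mem_insert, Finset.mem_singleton, not_or] at hu₁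
  have hu1 : φ' u₁ = φ u₁ := hoth u₁ hu₁.2.2.2.1 hu₁.2.2.2.2
  have hkey : ∀ e : α, e ≠ c → e ≠ d → e ∉ (S \ {x₁, y₁, x₂, y₂}).image φ →
      e ∉ (S \ {x₁, y₁}).image φ' := by
    intro e hec hed he hmem
    obtain ⟨v, hv, hve⟩ := Finset.mem_image.1 hmem
    by_cases hvx : v = x₂
    · rw [hvx, hx2] at hve
      exact hec hve.symm
    · by_cases hvy : v = y₂
      · rw [hvy, hy2] at hve
        exact hed hve.symm
      · rw [hoth v hvx hvy] at hve
        refine he (Finset.mem_image.2 ⟨v, ?_, hve⟩)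
        rw [← hset, Finset.mem_sdiff, Finset.mem_insert, Finset.mem_singleton]
        exact ⟨hv, fun h0 => h0.elim hvx hvy⟩
  refine extend_leaf R W h.toIsAc h₁ φ' hcopy a b ha.1 hb.1 hab (hkey a hac had ha.2)
    (hkey b hbc hbd hb.2) ?_
  rw [hu1]
  exact hR₁

/-- greedy embedding -/
theorem greedy (R : Finset α → Prop) (U : Finset α) (hU : U.Nonempty) (S : Finset V)
    (E : Finset (Finset V)) (h : IsTr S E)
    (hg : ∀ v ∈ U, ∀ D ⊆ U, v ∈ D → D.card + 1 ≤ 2 * E.card →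
      ∃ x ∈ U \ D, ∃ y ∈ U \ D, x ≠ y ∧ R {v, x, y}) : HasRed R S E U := by
  induction hn : E.card generalizing S E with
  | zero =>
    have hE : E = ∅ := Finset.card_eq_zero.1 hn
    have hS : S.card = 1 := by
      rw [h.card, hn]
    obtain ⟨s, rfl⟩ := Finset.card_eq_one.1 hS
    obtain ⟨w, hw⟩ := hU
    refine ⟨fun _ => w, ?_, fun _ _ => hw, ?_⟩
    · intro v hv v' hv' _
      rw [Finset.coe_singleton, Set.mem_singleton_iff] at hv hv'
      rw [hv, hv']
    · intro f hf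
      rw [hE] at hf
      exact absurd hf (Finset.notMem_empty f)
  | succ n ih =>
    have hne : E.Nonempty := by
      rw [← Finset.card_pos, hn]
      exact Nat.succ_pos n
    obtain ⟨f, u, x, y, hl⟩ := h.toIsAc.exists_leaf hne
    obtain ⟨h1, hu⟩ := h.remove hl
    have hcE : (E.erase f).card = n := by
      rw [Finset.card_erase_of_mem hl.mem, hn]
      rfl
    obtain ⟨φ, hφ⟩ := ih (S \ {x, y}) (E.erase f) h1
      (fun v hv D hD hvD hcard => hg v hv D hD hvD (by omega)) hcE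
    have hφ' := hφ
    obtain ⟨hinj, hW, -⟩ := hφ'
    have hDc : ((S \ {x, y}).image φ).card = 2 * n + 1 := by
      rw [Finset.card_image_of_injOn hinj, h1.card, hcE]
    have hDs : (S \ {x, y}).image φ ⊆ U := by
      intro e he
      obtain ⟨v, hv, rfl⟩ := Finset.mem_image.1 he
      exact hW v hv
    obtain ⟨x', hx', y', hy', hxy', hR⟩ := hg (φ u) (hW u hu) _ hDs
      (Finset.mem_image_of_mem φ hu) (by omega)
    rw [Finset.mem_sdiff] at hx' hy'
    exact extend_leaf R U h.toIsAc hl φ hφ x' y' hx'.1 hy'.1 hxy' hx'.2 hy'.2 hR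

end Pool.MP7783b9
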