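import Pool.Agent.H.MP_7783b9_co.Emb

/-!
# Embedding stars and brooms
-/

set_option autoImplicit false

open Finset

namespace Pool.MP7783b9

variable {α V : Type*} [DecidableEq α] [DecidableEq V]

/-- in a star the edge of a vertex different from the centre is unique -/
private theorem embs_unique {S : Finset V} {E : Finset (Finset V)} (h : IsTr S E) {c v : V}
    (hc : ∀ f ∈ E, c ∈ f) (hv : v ≠ c) {f g : Finset V} (hf : f ∈ E) (hg : g ∈ E)
    (hvf : v ∈ f) (hvg : v ∈ g) : f = g := by
  by_contra hfg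
  have h1 := h.toIsAc.inter_card hf hg hfg
  have h2 : ({c, v} : Finset V) ⊆ f ∩ g := by
    intro z hz
    rw [mem_insert, mem_singleton] at hz
    rcases hz with rfl | rfl
    · exact mem_inter.2 ⟨hc _ hf, hc _ hg⟩
    · exact mem_inter.2 ⟨hvf, hvg⟩
  have h3 := card_le_card h2
  rw [card_pair (Ne.symm hv)] at h3
  omega

/-- stars, with control of one leaf vertex `u` -/
theorem star_embed' (R : Finset α → Prop) (W : Finset α) (k : ℕ) (hk : 1 ≤ k) (S : Finset V)
    (E : Finset (Finset V)) (h : IsTr S E) (hE : E.card = k) (c : V) (hc : ∀ f ∈ E, c ∈ f)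
    (c' : α) (hc' : c' ∈ W) (g : Fin k × Bool → α) (hg : IsMat (link R c') (W.erase c') k g)
    (u : V) (hu : u ∈ S) (huc : u ≠ c) (q : Fin k × Bool) :
    ∃ φ : V → α, IsCopy R S E W φ ∧ φ c = c' ∧ φ u = g q ∧
      ∀ v ∈ S, v ≠ c → ∃ p, φ v = g p := by
  classical
  have hEne : E.Nonempty := by
    rw [← card_pos]; omega
  have hun := h.union_eq hEne
  have hex : ∀ v ∈ S, ∃ f ∈ E, v ∈ f := by
    intro v hv
    rw [← hun, mem_biUnion] at hv
    simpa using hv
  obtain ⟨fu, hfu, hufu⟩ := hex u hu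
  -- the distinguished vertex of each edge
  have ha : ∀ f : Finset V, ∃ a, f ∈ E → a ∈ f.erase c ∧ (u ∈ f → a = u) := by
    intro f
    by_cases hf : f ∈ E
    · by_cases huf : u ∈ f
      · exact ⟨u, fun _ => ⟨mem_erase.2 ⟨huc, huf⟩, fun _ => rfl⟩⟩
      · have h3 := h.three f hf
        have h4 : (f.erase c).card = 2 := by
          rw [card_erase_of_mem (hc f hf), h3]
        have h5 : (f.erase c).Nonempty := by
          rw [← card_pos]; omega
        obtain ⟨a, ha⟩ := h5
        exact ⟨a, fun _ => ⟨ha, fun h => absurd h huf⟩⟩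
    · exact ⟨u, fun h => absurd h hf⟩
  choose A hA' using ha
  have hA : ∀ f ∈ E, A f ∈ f.erase c := fun f hf => (hA' f hf).1
  have hAu : ∀ f ∈ E, u ∈ f → A f = u := fun f hf => (hA' f hf).2
  -- the edge of a vertex
  have hed : ∀ v : V, ∃ f : {f // f ∈ E}, (v ∈ S → v ∈ f.1) := by
    intro v
    by_cases hv : v ∈ S
    · obtain ⟨f, hf, hvf⟩ := hex v hv
      exact ⟨⟨f, hf⟩, fun _ => hvf⟩
    · exact ⟨⟨fu, hfu⟩, fun h => absurd h hv⟩
  choose ed hed using hed
  let e0 : {f // f ∈ E} ≃ Fin k := E.equivFinOfCardEq hE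
  let e : {f // f ∈ E} ≃ Fin k := e0.trans (Equiv.swap (e0 ⟨fu, hfu⟩) q.1)
  have heu : e ⟨fu, hfu⟩ = q.1 := by
    simp [e]
  have hedv : ∀ (f : Finset V) (hf : f ∈ E) (v : V), v ∈ f → v ≠ c → ed v = ⟨f, hf⟩ := by
    intro f hf v hvf hvc
    have hvS : v ∈ S := h.sub f hf hvf
    apply Subtype.ext
    exact embs_unique h hc hvc (ed v).2 hf (hed v hvS) hvf
  let β : {f // f ∈ E} → V → Bool := fun f v => if v = A f.1 then q.2 else !q.2
  let φ : V → α := fun v => if v = c then c' else g (e (ed v), β (ed v) v)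
  have hφc : φ c = c' := by simp [φ]
  have hφ : ∀ v, v ≠ c → φ v = g (e (ed v), β (ed v) v) := by
    intro v hv
    simp [φ, hv]
  have hgc : ∀ p, g p ≠ c' := fun p => (mem_erase.1 (hg.2.1 p)).1
  have hgW : ∀ p, g p ∈ W := fun p => (mem_erase.1 (hg.2.1 p)).2
  refine ⟨φ, ⟨?_, ?_, ?_⟩, hφc, ?_, ?_⟩
  · intro v hv w hw hvw
    have hv' : v ∈ S := hv
    have hw' : w ∈ S := hw
    by_cases h1 : v = c
    · by_cases h2 : w = c
      · rw [h1, h2]
      · exfalso
        rw [h1, hφc, hφ w h2] at hvw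
        exact hgc _ hvw.symm
    · by_cases h2 : w = c
      · exfalso
        rw [h2, hφc, hφ v h1] at hvw
        exact hgc _ hvw
      · rw [hφ v h1, hφ w h2] at hvw
        have h3 := hg.1 hvw
        have h4 : e (ed v) = e (ed w) := congrArg Prod.fst h3
        have h5 : β (ed v) v = β (ed w) w := congrArg Prod.snd h3
        have h6 : ed v = ed w := e.injective h4
        have h7 : v ∈ (ed v).1 := hed v hv'
        have h8 : w ∈ (ed v).1 := by
          rw [h6]; exact hed w hw'
        rw [← h6] at h5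
        have hAm := hA _ (ed v).2
        have h3c : ((ed v).1.erase c).card = 2 := by
          rw [card_erase_of_mem (hc _ (ed v).2), h.three _ (ed v).2]
        by_cases h9 : v = A (ed v).1
        · have : w = A (ed v).1 := by
            by_contra h10
            simp only [β] at h5
            rw [if_pos h9, if_neg h10] at h5
            cases hq : q.2 <;> rw [hq] at h5 <;> simp at h5
          rw [this]
          exact h9
        · have h10 : w ≠ A (ed v).1 := by
            intro h10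
            simp only [β] at h5
            rw [if_neg h9, if_pos h10] at h5
            cases hq : q.2 <;> rw [hq] at h5 <;> simp at h5
          have h11 : (((ed v).1.erase c).erase (A (ed v).1)).card ≤ 1 := by
            rw [card_erase_of_mem hAm, h3c]
          exact card_le_one.1 h11 v (mem_erase.2 ⟨h9, mem_erase.2 ⟨h1, h7⟩⟩) w
            (mem_erase.2 ⟨h10, mem_erase.2 ⟨h2, h8⟩⟩)
  · intro v _
    by_cases h1 : v = c
    · rw [h1, hφc]; exact hc'
    · rw [hφ v h1]; exact hgW _
  · intro f hf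
    have h3c : (f.erase c).card = 2 := by
      rw [card_erase_of_mem (hc _ hf), h.three _ hf]
    have hAm := hA f hf
    have h4 : ((f.erase c).erase (A f)).card = 1 := by
      rw [card_erase_of_mem hAm, h3c]
    obtain ⟨b, hb⟩ := card_eq_one.1 h4
    have hbm : b ∈ (f.erase c).erase (A f) := by rw [hb]; exact mem_singleton_self b
    have hbA : b ≠ A f := (mem_erase.1 hbm).1
    have hbc : b ≠ c := (mem_erase.1 (mem_erase.1 hbm).2).1
    have hbf : b ∈ f := (mem_erase.1 (mem_erase.1 hbm).2).2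
    have hAc : A f ≠ c := (mem_erase.1 hAm).1
    have hAf : A f ∈ f := (mem_erase.1 hAm).2
    have hfe : f = {c, A f, b} := by
      have e1 : insert c (f.erase c) = f := insert_erase (hc f hf)
      have e2 : insert (A f) ((f.erase c).erase (A f)) = f.erase c := insert_erase hAm
      rw [← e1, ← e2, hb]
      have e3 : A (insert c (insert (A f) {b})) = A f := by
        rw [← hb, e2, e1]
      rw [e3]
    have hAi : φ (A f) = g (e ⟨f, hf⟩, q.2) := by
      rw [hφ _ hAc, hedv f hf _ hAf hAc]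
      simp [β]
    have hbi : φ b = g (e ⟨f, hf⟩, !q.2) := by
      rw [hφ _ hbc, hedv f hf _ hbf hbc]
      simp [β, hbA]
    have him : f.image φ = {c', g (e ⟨f, hf⟩, false), g (e ⟨f, hf⟩, true)} := by
      have : f.image φ = ({c, A f, b} : Finset V).image φ := by rw [← hfe]
      rw [this, image_insert, image_insert, image_singleton, hφc, hAi, hbi]
      cases hq : q.2
      · simp
      · simp only [Bool.not_true]
        congr 1
        exact pair_comm _ _
    rw [him]
    exact hg.2.2 _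
  · rw [hφ u huc, hedv fu hfu u hufu huc, heu]
    have : β ⟨fu, hfu⟩ u = q.2 := by
      have := hAu fu hfu hufu
      simp [β, this]
    rw [this]
  · intro v _ hvc
    exact ⟨_, hφ v hvc⟩

theorem star_embed (R : Finset α → Prop) (W : Finset α) (k : ℕ) (hk : 1 ≤ k) (S : Finset V)
    (E : Finset (Finset V)) (h : IsTr S E) (hE : E.card = k) (c : V) (hc : ∀ f ∈ E, c ∈ f)
    (c' : α) (hc' : c' ∈ W) (hm : Mat (link R c') (W.erase c') k) : HasRed R S E W := by
  obtain ⟨g, hg⟩ := hm
  have hS : 1 < S.card := by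
    rw [h.card]; omega
  obtain ⟨u, hu, huc⟩ := exists_mem_ne hS c
  obtain ⟨φ, hφ, _⟩ := star_embed' R W k hk S E h hE c hc c' hc' g hg u hu huc (⟨0, hk⟩, false)
  exact ⟨φ, hφ⟩

theorem broom_embed (R : Finset α → Prop) (W : Finset α) (k : ℕ) (hk : 2 ≤ k) (S : Finset V)
    (E : Finset (Finset V)) (h : IsTr S E) (hE : E.card = k + 1) (c : V)
    (hc : (E.filter (fun f => c ∉ f)).card = 1) (hB : BroomConf R W k) : HasRed R S E W := by
  classical
  obtain ⟨f0, hf0⟩ := card_eq_one.1 hc
  have hf0m : f0 ∈ E.filter (fun f => c ∉ f) := by rw [hf0]; exact mem_singleton_self _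
  have hf0E : f0 ∈ E := (mem_filter.1 hf0m).1
  have hf0c : c ∉ f0 := (mem_filter.1 hf0m).2
  have hc1 : ∀ f ∈ E.erase f0, c ∈ f := by
    intro f hf
    by_contra hcf
    have : f ∈ E.filter (fun f => c ∉ f) := mem_filter.2 ⟨(mem_erase.1 hf).2, hcf⟩
    rw [hf0, mem_singleton] at this
    exact (mem_erase.1 hf).1 this
  have hcard : (E.erase f0).card = k := by
    rw [card_erase_of_mem hf0E, hE]; rfl
  set U : Finset V := (E.erase f0).biUnion id with hU
  have hUcard : U.card ≤ 2 * k + 1 := by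
    have h1 : U ⊆ insert c ((E.erase f0).biUnion (fun f => f.erase c)) := by
      intro z hz
      rw [hU, mem_biUnion] at hz
      obtain ⟨f, hf, hzf⟩ := hz
      by_cases hzc : z = c
      · rw [hzc]; exact mem_insert_self _ _
      · exact mem_insert_of_mem (mem_biUnion.2 ⟨f, hf, mem_erase.2 ⟨hzc, hzf⟩⟩)
    have h2 : ((E.erase f0).biUnion (fun f => f.erase c)).card ≤ (E.erase f0).card * 2 := by
      apply card_biUnion_le_card_mul
      intro f hf
      rw [card_erase_of_mem (hc1 f hf), h.three f (mem_erase.1 hf).2]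
    have h3 := card_le_card h1
    have h4 := card_insert_le c ((E.erase f0).biUnion (fun f => f.erase c))
    rw [hcard] at h2
    omega
  have hEne : E.Nonempty := ⟨f0, hf0E⟩
  have hun : U ∪ f0 = S := by
    rw [← h.union_eq hEne, hU]
    ext z
    simp only [mem_union, mem_biUnion, id, mem_erase]
    constructor
    · rintro (⟨f, ⟨_, hf⟩, hz⟩ | hz)
      · exact ⟨f, hf, hz⟩
      · exact ⟨f0, hf0E, hz⟩
    · rintro ⟨f, hf, hz⟩
      by_cases hff : f = f0
      · right; rw [← hff]; exact hz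
      · left; exact ⟨f, ⟨hff, hf⟩, hz⟩
  have hUge : 2 * k + 1 ≤ U.card := by
    have h1 : (E.erase f0).Nonempty := by
      rw [← card_pos, hcard]; omega
    have h2 := h.dens (E.erase f0) (erase_subset _ _) h1
    rw [hcard] at h2
    exact h2
  have hSc := h.card
  have hf3 := h.three f0 hf0E
  have hie : (U ∪ f0).card + (U ∩ f0).card = U.card + f0.card := card_union_add_card_inter U f0
  rw [hun, hSc, hE, hf3] at hie
  have hI1 : (U ∩ f0).card = 1 := by omega
  obtain ⟨u, hu⟩ := card_eq_one.1 hI1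
  have hu' : u ∈ U ∩ f0 := by rw [hu]; exact mem_singleton_self u
  have huU : u ∈ U := (mem_inter.1 hu').1
  have huf : u ∈ f0 := (mem_inter.1 hu').2
  have hsd : (f0.erase u).card = 2 := by
    rw [card_erase_of_mem huf, hf3]
  obtain ⟨x, y, hxy, hxye⟩ := card_eq_two.1 hsd
  have hx : x ∈ f0.erase u := by rw [hxye]; simp
  have hy : y ∈ f0.erase u := by rw [hxye]; simp
  have hux : u ≠ x := fun h' => (mem_erase.1 hx).1 h'.symm
  have huy : u ≠ y := fun h' => (mem_erase.1 hy).1 h'.symm
  have hnot : ∀ z ∈ f0.erase u, ∀ g ∈ E, g ≠ f0 → z ∉ g := by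
    intro z hz g hgE hgf hzg
    have h1 : z ∈ U := by
      rw [hU, mem_biUnion]
      exact ⟨g, mem_erase.2 ⟨hgf, hgE⟩, hzg⟩
    have h2 : z ∈ U ∩ f0 := mem_inter.2 ⟨h1, (mem_erase.1 hz).2⟩
    rw [hu, mem_singleton] at h2
    exact (mem_erase.1 hz).1 h2
  have hl : Leaf E f0 u x y := by
    refine ⟨hf0E, ?_, hux, huy, hxy, hnot x hx, hnot y hy⟩
    rw [← insert_erase huf, hxye]
  obtain ⟨hT, huS⟩ := h.remove hl
  obtain ⟨c', hc', g, hg, q, x', hx', y', hy', hxy', hgxy, hRed⟩ := hB
  have huc : u ≠ c := fun h' => hf0c (h' ▸ huf)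
  obtain ⟨φ, hφ, hφc, hφu, hφv⟩ := star_embed' R W k (by omega) (S \ {x, y}) (E.erase f0) hT
    hcard c hc1 c' hc' g hg u huS huc q
  have hnim : ∀ z ∈ W.erase c', (∀ p, g p ≠ z) → z ∉ (S \ {x, y}).image φ := by
    intro z hz hgz hzi
    obtain ⟨v, hv, hvz⟩ := mem_image.1 hzi
    by_cases hvc : v = c
    · rw [hvc, hφc] at hvz
      exact (mem_erase.1 hz).1 hvz.symm
    · obtain ⟨p, hp⟩ := hφv v hv hvc
      exact hgz p (hp.symm.trans hvz)
  refine extend_leaf R W h.toIsAc hl φ hφ x' y' (mem_erase.1 hx').2 (mem_erase.1 hy').2 hxy'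
    (hnim x' hx' (fun p => (hgxy p).1)) (hnim y' hy' (fun p => (hgxy p).2)) ?_
  rw [hφu]
  exact hRed

end Pool.MP7783b9
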