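import Pool.Agent.H.MP_7783b9_co.NearL

/-!
# The lemma on five points
-/

set_option autoImplicit false

open Finset

namespace Pool.MP7783b9

variable {α : Type*} [DecidableEq α]

/-- a vertex which is not near has two red pairs: with a common point or disjoint -/
theorem five_not_near {R : Finset α → Prop} {w : α} {P : Finset α} (h : ¬ Near R w P) :
    (∃ a ∈ P, ∃ b ∈ P, ∃ c ∈ P, a ≠ b ∧ a ≠ c ∧ b ≠ c ∧ R {w, a, b} ∧ R {w, a, c}) ∨
    (∃ a ∈ P, ∃ b ∈ P, ∃ c ∈ P, ∃ d ∈ P, [a, b, c, d].Nodup ∧ R {w, a, b} ∧ R {w, c, d}) := by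
  unfold Near at h
  push Not at h
  obtain ⟨x, hx, y, hy, x', hx', y', hy', hxy, hxy', h1, h2, hne⟩ := h
  have h1' : R {w, y, x} := by rwa [Finset.pair_comm y x]
  have h2' : R {w, y', x'} := by rwa [Finset.pair_comm y' x']
  by_cases e1 : x = x'
  · left
    subst e1
    exact ⟨x, hx, y, hy, y', hy', hxy, hxy', fun e => hne (by rw [e]), h1, h2⟩
  by_cases e2 : x = y'
  · left
    subst e2
    exact ⟨x, hx, y, hy, x', hx', hxy, hxy'.symm, fun e => hne (by rw [e, Finset.pair_comm]),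
      h1, h2'⟩
  by_cases e3 : y = x'
  · left
    subst e3
    exact ⟨y, hy, x, hx, y', hy', hxy.symm, hxy', fun e => hne (by rw [e, Finset.pair_comm]),
      h1', h2⟩
  by_cases e4 : y = y'
  · left
    subst e4
    exact ⟨y, hy, x, hx, x', hx', hxy.symm, hxy'.symm, e1, h1', h2'⟩
  right
  refine ⟨x, hx, y, hy, x', hx', y', hy', ?_, h1, h2⟩
  simp [hxy, e1, e2, e3, e4, hxy']

/-- the case where `v` has two red pairs with a common point and no two disjoint ones -/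
theorem five_a (R : Finset α → Prop) (W P : Finset α) (hP : P ⊆ W) (hc : P.card = 5) (v w : α)
    (hv : v ∈ W \ P) (hw : w ∈ W \ P) (hvw : v ≠ w)
    (hx : ∀ x ∈ P, ∀ y ∈ P, ∀ x' ∈ P, ∀ y' ∈ P, [x, y, x', y'].Nodup → R {v, x, y} →
      ¬ R {w, x', y'})
    (hd : ∀ x ∈ P, ∀ y ∈ P, ∀ x' ∈ P, ∀ y' ∈ P, [x, y, x', y'].Nodup → R {v, x, y} →
      ¬ R {v, x', y'})
    (a b c : α) (ha : a ∈ P) (hb : b ∈ P) (hcP : c ∈ P) (hab : a ≠ b) (hac : a ≠ c)
    (hbc : b ≠ c) (h1 : R {v, a, b}) (h2 : R {v, a, c}) : Pasch R W := by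
  have hcard : (((P.erase a).erase b).erase c).card = 2 := by
    rw [Finset.card_erase_of_mem, Finset.card_erase_of_mem, Finset.card_erase_of_mem, hc]
    · exact ha
    · simp [hb, hab.symm]
    · simp [hcP, hac.symm, hbc.symm]
  obtain ⟨d, e, hde, hset⟩ := Finset.card_eq_two.mp hcard
  have hd1 : d ∈ ((P.erase a).erase b).erase c := by rw [hset]; simp
  have he1 : e ∈ ((P.erase a).erase b).erase c := by rw [hset]; simp
  simp only [Finset.mem_erase, ne_eq] at hd1 he1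
  obtain ⟨hdc, hdb, hda, hdP⟩ := hd1
  obtain ⟨hec, heb, hea, heP⟩ := he1
  simp only [Finset.mem_sdiff] at hv hw
  have hvP : ∀ z ∈ P, v ≠ z := fun z hz e => hv.2 (e ▸ hz)
  have hwP : ∀ z ∈ P, w ≠ z := fun z hz e => hw.2 (e ▸ hz)
  -- blue triples
  have k1 : ¬ R {v, b, d} := hd a ha c hcP b hb d hdP
    (by simp [hac, hab, hbc.symm, Ne.symm hda, Ne.symm hdc, Ne.symm hdb]) h2
  have k2 : ¬ R {v, c, e} := hd a ha b hb c hcP e heP
    (by simp [hac, hab, hbc, Ne.symm hea, Ne.symm hec, Ne.symm heb]) h1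
  have k3 : ¬ R {w, d, c} := hx a ha b hb d hdP c hcP
    (by simp [hac, hab, hbc, Ne.symm hda, hdc, Ne.symm hdb]) h1
  have k4 : ¬ R {w, e, b} := hx a ha c hcP e heP b hb
    (by simp [hac, hab, hbc.symm, Ne.symm hea, Ne.symm hec, heb]) h2
  refine ⟨v, w, b, d, c, e, hv.1, hw.1, hP hb, hP hdP, hP hcP, hP heP, ?_, k1, k2, k3, k4⟩
  simp [hvw, hvP b hb, hvP c hcP, hvP d hdP, hvP e heP, hwP b hb, hwP c hcP, hwP d hdP,
    hwP e heP, hbc, Ne.symm hdb, Ne.symm heb, hdc, hde, Ne.symm hec]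

/-- the case of disjoint red pairs `ab`, `cd` of `v` and `ac`, `bd` of `w` -/
theorem five_c (R : Finset α → Prop) (W P : Finset α) (hP : P ⊆ W) (hc : P.card = 5) (v w : α)
    (hv : v ∈ W \ P) (hw : w ∈ W \ P) (hvw : v ≠ w)
    (hx : ∀ x ∈ P, ∀ y ∈ P, ∀ x' ∈ P, ∀ y' ∈ P, [x, y, x', y'].Nodup → R {v, x, y} →
      ¬ R {w, x', y'})
    (a b c d : α) (ha : a ∈ P) (hb : b ∈ P) (hcP : c ∈ P) (hdP : d ∈ P)
    (hnd : [a, b, c, d].Nodup)
    (h1 : R {v, a, b}) (h2 : R {v, c, d}) (h3 : R {w, a, c}) (h4 : R {w, b, d}) :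
    Pasch R W := by
  simp only [List.nodup_cons, List.mem_cons, List.not_mem_nil, or_false, not_or, not_false_eq_true,
    List.nodup_nil, and_true] at hnd
  obtain ⟨⟨hab, hac, had⟩, ⟨hbc, hbd⟩, hcd⟩ := hnd
  obtain ⟨e, heP', hea, heb, hec, hed⟩ : ∃ e ∈ P, e ≠ a ∧ e ≠ b ∧ e ≠ c ∧ e ≠ d := by
    have : (P \ {a, b, c, d}).Nonempty := by
      rw [← Finset.card_pos]
      have h5 := Finset.le_card_sdiff ({a, b, c, d} : Finset α) P
      have h6 : ({a, b, c, d} : Finset α).card ≤ 4 := Finset.card_le_four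
      omega
    obtain ⟨e, he⟩ := this
    simp only [Finset.mem_sdiff, Finset.mem_insert, Finset.mem_singleton, not_or] at he
    exact ⟨e, he.1, he.2.1, he.2.2.1, he.2.2.2.1, he.2.2.2.2⟩
  simp only [Finset.mem_sdiff] at hv hw
  have hvP : ∀ z ∈ P, v ≠ z := fun z hz e => hv.2 (e ▸ hz)
  have hwP : ∀ z ∈ P, w ≠ z := fun z hz e => hw.2 (e ▸ hz)
  have k1 : ¬ R {v, a, c} := fun h => hx a ha c hcP b hb d hdP
    (by simp [hab, hac, had, hbd, hcd, Ne.symm hbc]) h h4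
  have k2 : ¬ R {v, e, b} := fun h => hx e heP' b hb a ha c hcP
    (by simp [hea, heb, hec, Ne.symm hab, hbc, hac]) h h3
  have k3 : ¬ R {w, c, e} := hx a ha b hb c hcP e heP'
    (by simp [hab, hac, Ne.symm hea, hbc, Ne.symm heb, Ne.symm hec]) h1
  have k4 : ¬ R {w, b, a} := hx c hcP d hdP b hb a ha
    (by simp [hcd, Ne.symm hbc, Ne.symm hac, Ne.symm hbd, Ne.symm had, Ne.symm hab]) h2
  refine ⟨v, w, a, c, e, b, hv.1, hw.1, hP ha, hP hcP, hP heP', hP hb, ?_, k1, k2, k3, k4⟩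
  simp [hvw, hvP a ha, hvP b hb, hvP c hcP, hvP e heP', hwP a ha, hwP b hb, hwP c hcP,
    hwP e heP', hac, Ne.symm hea, hab, Ne.symm hec, Ne.symm hbc, heb]

theorem five_h {R : Finset α → Prop} {a b c d x y w : α} (hac : a ≠ c) (had : a ≠ d)
    (hbc : b ≠ c) (hbd : b ≠ d) (m1 : a = x ∨ a = y ∨ b = x ∨ b = y)
    (m2 : c = x ∨ c = y ∨ d = x ∨ d = y) (h : R {w, x, y}) :
    ∃ s t, (s = a ∨ s = b) ∧ (t = c ∨ t = d) ∧ R {w, s, t} ∧
      ((s = x ∧ t = y) ∨ (s = y ∧ t = x)) := by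
  have h' : R {w, y, x} := by rwa [Finset.pair_comm y x]
  rcases m1 with h1 | h1 | h1 | h1 <;> rcases m2 with h2 | h2 | h2 | h2
  · exact absurd (h1.trans h2.symm) hac
  · exact ⟨x, y, Or.inl h1.symm, Or.inl h2.symm, h, Or.inl ⟨rfl, rfl⟩⟩
  · exact absurd (h1.trans h2.symm) had
  · exact ⟨x, y, Or.inl h1.symm, Or.inr h2.symm, h, Or.inl ⟨rfl, rfl⟩⟩
  · exact ⟨y, x, Or.inl h1.symm, Or.inl h2.symm, h', Or.inr ⟨rfl, rfl⟩⟩
  · exact absurd (h1.trans h2.symm) hac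
  · exact ⟨y, x, Or.inl h1.symm, Or.inr h2.symm, h', Or.inr ⟨rfl, rfl⟩⟩
  · exact absurd (h1.trans h2.symm) had
  · exact absurd (h1.trans h2.symm) hbc
  · exact ⟨x, y, Or.inr h1.symm, Or.inl h2.symm, h, Or.inl ⟨rfl, rfl⟩⟩
  · exact absurd (h1.trans h2.symm) hbd
  · exact ⟨x, y, Or.inr h1.symm, Or.inr h2.symm, h, Or.inl ⟨rfl, rfl⟩⟩
  · exact ⟨y, x, Or.inr h1.symm, Or.inl h2.symm, h', Or.inr ⟨rfl, rfl⟩⟩
  · exact absurd (h1.trans h2.symm) hbc
  · exact ⟨y, x, Or.inr h1.symm, Or.inr h2.symm, h', Or.inr ⟨rfl, rfl⟩⟩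
  · exact absurd (h1.trans h2.symm) hbd

/-- If the red links of `v` and `w` on a 5-set `P` are cross-intersecting then one of `v`, `w`
has at most one red pair in `P`, or there is a blue Pasch configuration. -/
theorem five (R : Finset α → Prop) (W P : Finset α) (hP : P ⊆ W) (hc : P.card = 5) (v w : α)
    (hv : v ∈ W \ P) (hw : w ∈ W \ P) (hvw : v ≠ w)
    (hx : ∀ x ∈ P, ∀ y ∈ P, ∀ x' ∈ P, ∀ y' ∈ P, [x, y, x', y'].Nodup → R {v, x, y} →
      ¬ R {w, x', y'}) :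
    Near R v P ∨ Near R w P ∨ Pasch R W := by
  have hx' : ∀ x ∈ P, ∀ y ∈ P, ∀ x' ∈ P, ∀ y' ∈ P, [x, y, x', y'].Nodup → R {w, x, y} →
      ¬ R {v, x', y'} := by
    intro x h1 y h2 x' h3 y' h4 hnd hR hR'
    refine hx x' h3 y' h4 x h1 y h2 ?_ hR' hR
    simp only [List.nodup_cons, List.mem_cons, List.not_mem_nil, or_false, not_or,
      not_false_eq_true, List.nodup_nil, and_true] at hnd ⊢
    obtain ⟨⟨a1, a2, a3⟩, ⟨a4, a5⟩, a6⟩ := hnd
    exact ⟨⟨a6, Ne.symm a2, Ne.symm a4⟩, ⟨Ne.symm a3, Ne.symm a5⟩, a1⟩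
  by_cases nv : Near R v P
  · exact Or.inl nv
  by_cases nw : Near R w P
  · exact Or.inr (Or.inl nw)
  refine Or.inr (Or.inr ?_)
  by_cases dv : ∃ x ∈ P, ∃ y ∈ P, ∃ x' ∈ P, ∃ y' ∈ P, [x, y, x', y'].Nodup ∧ R {v, x, y} ∧
      R {v, x', y'}
  swap
  · push Not at dv
    rcases five_not_near nv with ⟨a, ha, b, hb, c, hcP, hab, hac, hbc, h1, h2⟩ |
      ⟨a, ha, b, hb, c, hcP, d, hdP, hnd, h1, h2⟩
    · exact five_a R W P hP hc v w hv hw hvw hx dv a b c ha hb hcP hab hac hbc h1 h2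
    · exact absurd h2 (dv a ha b hb c hcP d hdP hnd h1)
  by_cases dw : ∃ x ∈ P, ∃ y ∈ P, ∃ x' ∈ P, ∃ y' ∈ P, [x, y, x', y'].Nodup ∧ R {w, x, y} ∧
      R {w, x', y'}
  swap
  · push Not at dw
    rcases five_not_near nw with ⟨a, ha, b, hb, c, hcP, hab, hac, hbc, h1, h2⟩ |
      ⟨a, ha, b, hb, c, hcP, d, hdP, hnd, h1, h2⟩
    · exact five_a R W P hP hc w v hw hv hvw.symm hx' dw a b c ha hb hcP hab hac hbc h1 h2
    · exact absurd h2 (dw a ha b hb c hcP d hdP hnd h1)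
  obtain ⟨a, ha, b, hb, c, hcP, d, hdP, hnd, h1, h2⟩ := dv
  obtain ⟨x, hxP, y, hyP, x', hxP', y', hyP', hnd', h3, h4⟩ := dw
  have hndA := hnd
  have hndX := hnd'
  simp only [List.nodup_cons, List.mem_cons, List.not_mem_nil, or_false, not_or, not_false_eq_true,
    List.nodup_nil, and_true] at hndA hndX
  obtain ⟨⟨hab, hac, had⟩, ⟨hbc, hbd⟩, hcd⟩ := hndA
  obtain ⟨⟨hxy, hxx', hxy'⟩, ⟨hyx', hyy'⟩, hx'y'⟩ := hndX
  -- each red pair of `w` meets each red pair of `v`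
  have meet : ∀ s ∈ P, ∀ t ∈ P, ∀ s' ∈ P, ∀ t' ∈ P, s ≠ t → s' ≠ t' → R {v, s, t} →
      R {w, s', t'} → (s = s' ∨ s = t' ∨ t = s' ∨ t = t') := by
    intro s hs t ht s' hs' t' ht' e1 e2 r1 r2
    by_contra hcon
    push Not at hcon
    exact hx s hs t ht s' hs' t' ht' (by simp [e1, e2, hcon]) r1 r2
  have m1 := meet a ha b hb x hxP y hyP hab hxy h1 h3
  have m2 := meet c hcP d hdP x hxP y hyP hcd hxy h2 h3
  have m3 := meet a ha b hb x' hxP' y' hyP' hab hx'y' h1 h4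
  have m4 := meet c hcP d hdP x' hxP' y' hyP' hcd hx'y' h2 h4
  have sw : ∀ s t u : α, R {s, t, u} → R {s, u, t} := by
    intro s t u h
    rwa [Finset.pair_comm u t]
  have main : (R {w, a, c} ∧ R {w, b, d}) ∨ (R {w, a, d} ∧ R {w, b, c}) := by
    obtain ⟨s, t, hs, ht, hR, hst⟩ := five_h hac had hbc hbd m1 m2 h3
    obtain ⟨s', t', hs', ht', hR', hst'⟩ := five_h hac had hbc hbd m3 m4 h4
    have hss : s ≠ s' := by
      intro e
      rcases hst with ⟨e1, e2⟩ | ⟨e1, e2⟩ <;> rcases hst' with ⟨e3, e4⟩ | ⟨e3, e4⟩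
      · exact hxx' (e1.symm.trans (e.trans e3))
      · exact hxy' (e1.symm.trans (e.trans e3))
      · exact hyx' (e1.symm.trans (e.trans e3))
      · exact hyy' (e1.symm.trans (e.trans e3))
    have htt : t ≠ t' := by
      intro e
      rcases hst with ⟨e1, e2⟩ | ⟨e1, e2⟩ <;> rcases hst' with ⟨e3, e4⟩ | ⟨e3, e4⟩
      · exact hyy' (e2.symm.trans (e.trans e4))
      · exact hyx' (e2.symm.trans (e.trans e4))
      · exact hxy' (e2.symm.trans (e.trans e4))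
      · exact hxx' (e2.symm.trans (e.trans e4))
    rcases hs with e1 | e1 <;> rcases hs' with e2 | e2 <;> rcases ht with e3 | e3 <;>
      rcases ht' with e4 | e4
    · exact absurd (e1.trans e2.symm) hss
    · exact absurd (e1.trans e2.symm) hss
    · exact absurd (e1.trans e2.symm) hss
    · exact absurd (e1.trans e2.symm) hss
    · exact absurd (e3.trans e4.symm) htt
    · exact Or.inl ⟨by rw [← e1, ← e3]; exact hR, by rw [← e2, ← e4]; exact hR'⟩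
    · exact Or.inr ⟨by rw [← e1, ← e3]; exact hR, by rw [← e2, ← e4]; exact hR'⟩
    · exact absurd (e3.trans e4.symm) htt
    · exact absurd (e3.trans e4.symm) htt
    · exact Or.inr ⟨by rw [← e2, ← e4]; exact hR', by rw [← e1, ← e3]; exact hR⟩
    · exact Or.inl ⟨by rw [← e2, ← e4]; exact hR', by rw [← e1, ← e3]; exact hR⟩
    · exact absurd (e3.trans e4.symm) htt
    · exact absurd (e1.trans e2.symm) hss
    · exact absurd (e1.trans e2.symm) hss
    · exact absurd (e1.trans e2.symm) hss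
    · exact absurd (e1.trans e2.symm) hss
  rcases main with ⟨g1, g2⟩ | ⟨g1, g2⟩
  · exact five_c R W P hP hc v w hv hw hvw hx a b c d ha hb hcP hdP hnd h1 h2 g1 g2
  · refine five_c R W P hP hc v w hv hw hvw hx a b d c ha hb hdP hcP ?_ h1 (sw _ _ _ h2) g1 g2
    simp [hab, hac, had, hbc, hbd, Ne.symm hcd]

end Pool.MP7783b9
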