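import Pool.Agent.H.MP_7783b9_co.Upper

/-!
# The upper bound for acyclic hypergraphs
-/

set_option autoImplicit false

open Finset

namespace Pool.MP7783b9

variable {α V : Type*} [DecidableEq α] [DecidableEq V]

private theorem forestl_add {S : Finset V} {E : Finset (Finset V)} (h : IsAc S E)
    {f : Finset V} {u x y : V} (hl : Leaf E f u x y) {S₁ S₂ : Finset V}
    {E₁ E₂ : Finset (Finset V)} (h₁ : IsAc S₁ E₁) (h₂ : IsAc S₂ E₂)
    (n₂ : S₂.Nonempty) (hd : Disjoint S₁ S₂)
    (hdE : Disjoint E₁ E₂) (hS : S₁ ∪ S₂ = S \ {x, y}) (hE : E₁ ∪ E₂ = E.erase f)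
    (hu : u ∈ S₁) :
    ∃ S₁ E₁ S₂ E₂, IsAc S₁ E₁ ∧ IsAc S₂ E₂ ∧ S₁.Nonempty ∧ S₂.Nonempty ∧ Disjoint S₁ S₂ ∧
      Disjoint E₁ E₂ ∧ S₁ ∪ S₂ = S ∧ E₁ ∪ E₂ = E := by
  have hfS : f ⊆ S := h.sub f hl.mem
  have hx : x ∈ S := hfS (by rw [hl.eq]; simp)
  have hy : y ∈ S := hfS (by rw [hl.eq]; simp)
  have hE1 : E₁ ⊆ E.erase f := hE ▸ Finset.subset_union_left
  have hE2 : E₂ ⊆ E.erase f := hE ▸ Finset.subset_union_right
  have hS1 : S₁ ⊆ S \ {x, y} := hS ▸ Finset.subset_union_left
  have hS2 : S₂ ⊆ S \ {x, y} := hS ▸ Finset.subset_union_right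
  have hsub : insert f E₁ ⊆ E := by
    intro g hg
    rcases Finset.mem_insert.mp hg with rfl | hg
    · exact hl.mem
    · exact Finset.mem_of_mem_erase (hE1 hg)
  refine ⟨S₁ ∪ {x, y}, insert f E₁, S₂, E₂, ⟨?_, ?_, ?_⟩, h₂, ⟨u, by simp [hu]⟩, n₂, ?_, ?_, ?_, ?_⟩
  · intro g hg
    exact h.three g (hsub hg)
  · intro g hg
    rcases Finset.mem_insert.mp hg with rfl | hg
    · rw [hl.eq]
      intro z hz
      simp only [Finset.mem_insert, Finset.mem_singleton] at hz
      rcases hz with rfl | rfl | rfl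
      · simp [hu]
      · simp
      · simp
    · exact (h₁.sub g hg).trans Finset.subset_union_left
  · intro E' hE' hne
    exact h.dens E' (hE'.trans hsub) hne
  · rw [Finset.disjoint_union_left]
    refine ⟨hd, ?_⟩
    rw [Finset.disjoint_right]
    intro z hz
    exact (Finset.mem_sdiff.mp (hS2 hz)).2
  · rw [Finset.disjoint_insert_left]
    refine ⟨fun hf => ?_, hdE⟩
    exact (Finset.mem_erase.mp (hE2 hf)).1 rfl
  · rw [Finset.union_right_comm, hS]
    apply Finset.sdiff_union_of_subset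
    intro z hz
    simp only [Finset.mem_insert, Finset.mem_singleton] at hz
    rcases hz with rfl | rfl
    · exact hx
    · exact hy
  · rw [Finset.insert_union, hE, Finset.insert_erase hl.mem]

private theorem forestl_split (n : ℕ) : ∀ (S : Finset V) (E : Finset (Finset V)), E.card = n →
    IsAc S E → 2 * E.card + 2 ≤ S.card →
    ∃ S₁ E₁ S₂ E₂, IsAc S₁ E₁ ∧ IsAc S₂ E₂ ∧ S₁.Nonempty ∧ S₂.Nonempty ∧ Disjoint S₁ S₂ ∧
      Disjoint E₁ E₂ ∧ S₁ ∪ S₂ = S ∧ E₁ ∪ E₂ = E := by
  induction n with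
  | zero =>
    intro S E hn h hS
    have hE : E = ∅ := Finset.card_eq_zero.mp hn
    subst hE
    have hac : ∀ T : Finset V, IsAc T (∅ : Finset (Finset V)) := by
      intro T
      refine ⟨fun f hf => absurd hf (Finset.notMem_empty f),
        fun f hf => absurd hf (Finset.notMem_empty f), fun E' hE' hne => ?_⟩
      rw [Finset.subset_empty] at hE'
      subst hE'
      exact absurd hne Finset.not_nonempty_empty
    have hne : S.Nonempty := by
      rw [← Finset.card_pos]
      omega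
    obtain ⟨s, hs⟩ := hne
    refine ⟨{s}, ∅, S.erase s, ∅, hac _, hac _, ⟨s, by simp⟩, ?_, ?_, ?_, ?_, ?_⟩
    · rw [← Finset.card_pos, Finset.card_erase_of_mem hs]
      omega
    · rw [Finset.disjoint_singleton_left]
      simp
    · exact Finset.disjoint_empty_left _
    · rw [← Finset.insert_eq, Finset.insert_erase hs]
    · simp
  | succ n ih =>
    intro S E hn h hS
    have hne : E.Nonempty := by
      rw [← Finset.card_pos]
      omega
    obtain ⟨f, u, x, y, hl⟩ := h.exists_leaf hne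
    obtain ⟨hac, hu⟩ := h.remove hl
    have hc1 : (E.erase f).card = n := by
      rw [Finset.card_erase_of_mem hl.mem]
      omega
    have hc2 : S.card ≤ (S \ {x, y}).card + 2 := by
      have h1 := Finset.card_le_card_sdiff_add_card (s := S) (t := ({x, y} : Finset V))
      have h2 : ({x, y} : Finset V).card ≤ 2 := Finset.card_le_two
      omega
    obtain ⟨S₁, E₁, S₂, E₂, h₁, h₂, n₁, n₂, hd, hdE, hSS, hEE⟩ :=
      ih (S \ {x, y}) (E.erase f) hc1 hac (by omega)
    rw [← hSS] at hu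
    rcases Finset.mem_union.mp hu with hu | hu
    · exact forestl_add h hl h₁ h₂ n₂ hd hdE hSS hEE hu
    · exact forestl_add h hl h₂ h₁ n₁ hd.symm hdE.symm (by rw [Finset.union_comm, hSS])
        (by rw [Finset.union_comm, hEE]) hu

/-- an acyclic hypergraph which is not a tree splits into two parts -/
theorem split {S : Finset V} {E : Finset (Finset V)} (h : IsAc S E)
    (hS : 2 * E.card + 2 ≤ S.card) :
    ∃ S₁ E₁ S₂ E₂, IsAc S₁ E₁ ∧ IsAc S₂ E₂ ∧ S₁.Nonempty ∧ S₂.Nonempty ∧ Disjoint S₁ S₂ ∧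
      Disjoint E₁ E₂ ∧ S₁ ∪ S₂ = S ∧ E₁ ∪ E₂ = E :=
  forestl_split E.card S E rfl h hS

/-- a nonempty acyclic hypergraph has at least `2 e + 1` vertices -/
theorem IsAc.card_ge {S : Finset V} {E : Finset (Finset V)} (h : IsAc S E) (hS : S.Nonempty) :
    2 * E.card + 1 ≤ S.card := by
  rcases Finset.eq_empty_or_nonempty E with rfl | hE
  · have := Finset.card_pos.mpr hS
    simp
    omega
  · have h1 := h.dens E (Finset.Subset.refl _) hE
    have h2 : E.biUnion id ⊆ S := by
      intro z hz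
      rw [Finset.mem_biUnion] at hz
      obtain ⟨f, hf, hz⟩ := hz
      exact h.sub f hf hz
    have := Finset.card_le_card h2
    omega

theorem union_copy (R : Finset α → Prop) (U : Finset α) {S₁ S₂ : Finset V}
    {E₁ E₂ : Finset (Finset V)} (h₁ : IsAc S₁ E₁) (h₂ : IsAc S₂ E₂) (hd : Disjoint S₁ S₂)
    (φ : V → α) (hφ : IsCopy R S₁ E₁ U φ) (hr : HasRed R S₂ E₂ (U \ S₁.image φ)) :
    HasRed R (S₁ ∪ S₂) (E₁ ∪ E₂) U := by
  obtain ⟨ψ, hi2, hm2, hr2⟩ := hr
  obtain ⟨hi1, hm1, hr1⟩ := hφ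
  have e1 : ∀ v ∈ S₁, (if v ∈ S₁ then φ v else ψ v) = φ v := fun v hv => if_pos hv
  have e2 : ∀ v ∈ S₂, (if v ∈ S₁ then φ v else ψ v) = ψ v := fun v hv =>
    if_neg (Finset.disjoint_right.mp hd hv)
  refine ⟨fun v => if v ∈ S₁ then φ v else ψ v, ?_, ?_, ?_⟩
  · intro a ha b hb hab
    simp only [Finset.coe_union, Set.mem_union, Finset.mem_coe] at ha hb
    simp only at hab
    rcases ha with ha | ha <;> rcases hb with hb | hb
    · rw [e1 a ha, e1 b hb] at hab
      exact hi1 ha hb hab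
    · rw [e1 a ha, e2 b hb] at hab
      exact absurd (Finset.mem_image.mpr ⟨a, ha, hab⟩) (Finset.mem_sdiff.mp (hm2 b hb)).2
    · rw [e2 a ha, e1 b hb] at hab
      exact absurd (Finset.mem_image.mpr ⟨b, hb, hab.symm⟩) (Finset.mem_sdiff.mp (hm2 a ha)).2
    · rw [e2 a ha, e2 b hb] at hab
      exact hi2 ha hb hab
  · intro v hv
    rcases Finset.mem_union.mp hv with hv | hv
    · simp only [e1 v hv]
      exact hm1 v hv
    · simp only [e2 v hv]
      exact (Finset.mem_sdiff.mp (hm2 v hv)).1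
  · intro f hf
    rcases Finset.mem_union.mp hf with hf | hf
    · have : f.image (fun v => if v ∈ S₁ then φ v else ψ v) = f.image φ :=
        Finset.image_congr (fun v hv => e1 v (h₁.sub f hf hv))
      rw [this]
      exact hr1 f hf
    · have : f.image (fun v => if v ∈ S₁ then φ v else ψ v) = f.image ψ :=
        Finset.image_congr (fun v hv => e2 v (h₂.sub f hf hv))
      rw [this]
      exact hr2 f hf

private theorem forestl_mono {R : Finset α → Prop} {S : Finset V} {E : Finset (Finset V)}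
    {U U' : Finset α} (h : U ⊆ U') (hr : HasRed R S E U) : HasRed R S E U' := by
  obtain ⟨φ, h1, h2, h3⟩ := hr
  exact ⟨φ, h1, fun v hv => h (h2 v hv), h3⟩

private theorem forestl_step (R : Finset α → Prop) (U : Finset α) {S₁ S₂ : Finset V}
    {E₁ E₂ : Finset (Finset V)} (h₁ : IsAc S₁ E₁) (h₂ : IsAc S₂ E₂) (hd : Disjoint S₁ S₂)
    (g₁ : HasRed R S₁ E₁ U ∨ BlueFano R U)
    (g₂ : ∀ W ⊆ U, W.card + S₁.card = U.card → HasRed R S₂ E₂ W ∨ BlueFano R W) :
    HasRed R (S₁ ∪ S₂) (E₁ ∪ E₂) U ∨ BlueFano R U := by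
  rcases g₁ with ⟨φ, hφ⟩ | hF
  · have himg : S₁.image φ ⊆ U := by
      intro z hz
      obtain ⟨v, hv, rfl⟩ := Finset.mem_image.mp hz
      exact hφ.2.1 v hv
    have hcard : (S₁.image φ).card = S₁.card := Finset.card_image_of_injOn hφ.1
    have hW : (U \ S₁.image φ).card + S₁.card = U.card := by
      rw [← hcard]
      exact Finset.card_sdiff_add_card_eq_card himg
    rcases g₂ (U \ S₁.image φ) Finset.sdiff_subset hW with hr | hF
    · left
      exact union_copy R U h₁ h₂ hd φ hφ hr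
    · right
      exact hF.mono Finset.sdiff_subset
  · right
    exact hF

/-- general bound, auxiliary form -/
private theorem forestl_G (n : ℕ) : ∀ (R : Finset α → Prop) (S : Finset V)
    (E : Finset (Finset V)), S.card ≤ n → IsAc S E → S.Nonempty → ∀ U : Finset α,
    2 * S.card ≤ U.card + 1 → (S.card = 3 → E.card = 1 → 7 ≤ U.card) →
    HasRed R S E U ∨ BlueFano R U := by
  induction n with
  | zero =>
    intro R S E hn h hS
    have := Finset.card_pos.mpr hS
    omega
  | succ n ih =>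
    intro R S E hn h hS U hU hU'
    have hge := h.card_ge hS
    by_cases htree : S.card = 2 * E.card + 1
    · have hT : IsTr S E := ⟨h, htree⟩
      rcases Nat.lt_or_ge E.card 2 with hlt | hge2
      · apply tree_small R S E hT U
        rcases Nat.lt_or_ge E.card 1 with h0 | h1
        · left
          constructor
          · omega
          · omega
        · right
          have h1' : E.card = 1 := by omega
          exact ⟨h1', hU' (by omega) h1'⟩
      · obtain ⟨W, hW, hWc⟩ := Finset.exists_subset_card_eq (s := U) (n := 4 * E.card + 1) (by omega)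
        rcases tree_upper R S E hT hge2 W hWc with hr | hF
        · left
          exact forestl_mono hW hr
        · right
          exact hF.mono hW
    · obtain ⟨S₁, E₁, S₂, E₂, h₁, h₂, n₁, n₂, hd, hdE, hSS, hEE⟩ := split h (by omega)
      have hc : S₁.card + S₂.card = S.card := by
        rw [← hSS, Finset.card_union_of_disjoint hd]
      have hp1 := Finset.card_pos.mpr n₁
      have hp2 := Finset.card_pos.mpr n₂
      have hmain : ∀ (S₁ S₂ : Finset V) (E₁ E₂ : Finset (Finset V)), IsAc S₁ E₁ → IsAc S₂ E₂ →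
          0 < S₁.card → 0 < S₂.card → Disjoint S₁ S₂ → S₁.card + S₂.card = S.card →
          S₂.card ≤ S₁.card → HasRed R (S₁ ∪ S₂) (E₁ ∪ E₂) U ∨ BlueFano R U := by
        intro S₁ S₂ E₁ E₂ h₁ h₂ hp1 hp2 hd hc hle
        apply forestl_step R U h₁ h₂ hd
        · apply ih R S₁ E₁ (by omega) h₁ (Finset.card_pos.mp hp1) U (by omega)
          intro _ _
          omega
        · intro W hW hWc
          apply ih R S₂ E₂ (by omega) h₂ (Finset.card_pos.mp hp2) W (by omega)
          intro _ _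
          omega
      rcases Nat.le_total S₂.card S₁.card with hle | hle
      · have := hmain S₁ S₂ E₁ E₂ h₁ h₂ hp1 hp2 hd hc hle
        rwa [hSS, hEE] at this
      · have := hmain S₂ S₁ E₂ E₁ h₂ h₁ hp2 hp1 hd.symm (by omega) hle
        rwa [Finset.union_comm S₂ S₁, Finset.union_comm E₂ E₁, hSS, hEE] at this

/-- general bound -/
theorem forest_G (R : Finset α → Prop) (S : Finset V) (E : Finset (Finset V)) (h : IsAc S E)
    (hS : S.Nonempty) (U : Finset α)
    (hU : 2 * S.card ≤ U.card + 1) (hU' : S.card = 3 → E.card = 1 → 7 ≤ U.card) :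
    HasRed R S E U ∨ BlueFano R U :=
  forestl_G S.card R S E le_rfl h hS U hU hU'

/-- the bound for acyclic hypergraphs which are not trees -/
theorem forest_F (R : Finset α → Prop) (S : Finset V) (E : Finset (Finset V)) (h : IsAc S E)
    (hS : 2 * E.card + 2 ≤ S.card) (U : Finset α)
    (hU : 2 * S.card ≤ U.card + 2) (hex : ¬ (S.card = 4 ∧ E.card = 1)) :
    HasRed R S E U ∨ BlueFano R U := by
  obtain ⟨S₁, E₁, S₂, E₂, h₁, h₂, n₁, n₂, hd, hdE, hSS, hEE⟩ := split h hS
  have hc : S₁.card + S₂.card = S.card := by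
    rw [← hSS, Finset.card_union_of_disjoint hd]
  have hcE : E₁.card + E₂.card = E.card := by
    rw [← hEE, Finset.card_union_of_disjoint hdE]
  have hmain : ∀ (S₁ S₂ : Finset V) (E₁ E₂ : Finset (Finset V)), IsAc S₁ E₁ → IsAc S₂ E₂ →
      S₁.Nonempty → S₂.Nonempty → Disjoint S₁ S₂ → S₁.card + S₂.card = S.card →
      E₁.card + E₂.card = E.card →
      S₂.card ≤ S₁.card → HasRed R (S₁ ∪ S₂) (E₁ ∪ E₂) U ∨ BlueFano R U := by
    intro S₁ S₂ E₁ E₂ h₁ h₂ n₁ n₂ hd hc hcE hle
    have hp1 := Finset.card_pos.mpr n₁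
    have hp2 := Finset.card_pos.mpr n₂
    have hg2 := h₂.card_ge n₂
    apply forestl_step R U h₁ h₂ hd
    · apply forest_G R S₁ E₁ h₁ n₁ U (by omega)
      intro a b
      by_contra hlt
      apply hex
      constructor
      · omega
      · omega
    · intro W hW hWc
      apply forest_G R S₂ E₂ h₂ n₂ W (by omega)
      intro _ _
      omega
  rcases Nat.le_total S₂.card S₁.card with hle | hle
  · have := hmain S₁ S₂ E₁ E₂ h₁ h₂ n₁ n₂ hd hc hcE hle
    rwa [hSS, hEE] at this
  · have := hmain S₂ S₁ E₂ E₁ h₂ h₁ n₂ n₁ hd.symm (by omega) (by omega) hle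
    rwa [Finset.union_comm S₂ S₁, Finset.union_comm E₂ E₁, hSS, hEE] at this

end Pool.MP7783b9
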