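import Pool.Agent.H.MP_7783b9_co.NearL

/-!
# The main lemma on near-dominators
-/

set_option autoImplicit false

open Finset

namespace Pool.MP7783b9

variable {α : Type*} [DecidableEq α]

/-- Step 1: a 4-set `{a, b, c, d}` all of whose triples are blue. -/
theorem local_step1 (R : Finset α → Prop) (W : Finset α) (h4 : 4 ≤ W.card)
    (h : ∀ Q ⊆ W, Q.card = 4 → ∃ w ∈ W \ Q, ∃ z ∈ W \ Q, z ≠ w ∧ Near R w (insert z Q)) :
    ∃ a b c d : α, a ∈ W ∧ b ∈ W ∧ c ∈ W ∧ d ∈ W ∧ [a, b, c, d].Nodup ∧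
      ¬ R {a, b, c} ∧ ¬ R {a, b, d} ∧ ¬ R {a, c, d} ∧ ¬ R {b, c, d} := by
  -- the first near-dominator
  obtain ⟨Q0, hQ0, hc0⟩ := Finset.exists_subset_card_eq h4
  obtain ⟨v0, hv0, z0, hz0, hzv0, n0⟩ := h Q0 hQ0 hc0
  -- a 3-subset with all pairs blue for `v0`
  obtain ⟨x, y, t, hx, hy, ht, hxy, hxt, hyt, k1, k2, k3⟩ : ∃ x y t, x ∈ insert z0 Q0 ∧
      y ∈ insert z0 Q0 ∧ t ∈ insert z0 Q0 ∧ x ≠ y ∧ x ≠ t ∧ y ≠ t ∧ ¬ R {v0, x, y} ∧
      ¬ R {v0, x, t} ∧ ¬ R {v0, y, t} := by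
    obtain ⟨x₁, x₂, x₃, x₄, h12, h13, h14, h23, h24, h34, rfl⟩ := Finset.card_eq_four.mp hc0
    have m₁ : x₁ ∈ (insert z0 {x₁, x₂, x₃, x₄} : Finset α) := by simp
    have m₂ : x₂ ∈ (insert z0 {x₁, x₂, x₃, x₄} : Finset α) := by simp
    have m₃ : x₃ ∈ (insert z0 {x₁, x₂, x₃, x₄} : Finset α) := by simp
    have m₄ : x₄ ∈ (insert z0 {x₁, x₂, x₃, x₄} : Finset α) := by simp
    by_cases r12 : R {v0, x₁, x₂}
    · refine ⟨x₁, x₃, x₄, m₁, m₃, m₄, h13, h14, h34, ?_, ?_, ?_⟩
      · have := nearl_two n0 m₁ m₂ m₁ m₃ h12 h13 (by tauto)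
        tauto
      · have := nearl_two n0 m₁ m₂ m₁ m₄ h12 h14 (by tauto)
        tauto
      · have := nearl_two n0 m₁ m₂ m₃ m₄ h12 h34 (by tauto)
        tauto
    by_cases r13 : R {v0, x₁, x₃}
    · refine ⟨x₁, x₂, x₄, m₁, m₂, m₄, h12, h14, h24, r12, ?_, ?_⟩
      · have := nearl_two n0 m₁ m₃ m₁ m₄ h13 h14 (by tauto)
        tauto
      · have := nearl_two n0 m₁ m₃ m₂ m₄ h13 h24 (by tauto)
        tauto
    by_cases r23 : R {v0, x₂, x₃}
    · refine ⟨x₁, x₂, x₄, m₁, m₂, m₄, h12, h14, h24, r12, ?_, ?_⟩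
      · have := nearl_two n0 m₂ m₃ m₁ m₄ h23 h14 (by tauto)
        tauto
      · have := nearl_two n0 m₂ m₃ m₂ m₄ h23 h24 (by tauto)
        tauto
    exact ⟨x₁, x₂, x₃, m₁, m₂, m₃, h12, h13, h23, r12, r13, r23⟩
  have hv0W : v0 ∈ W := (Finset.mem_sdiff.mp hv0).1
  have hv0P : v0 ∉ insert z0 Q0 := by
    rw [Finset.mem_insert, not_or]
    exact ⟨fun e => hzv0 e.symm, (Finset.mem_sdiff.mp hv0).2⟩
  have hPW : insert z0 Q0 ⊆ W := by
    rw [Finset.insert_subset_iff]
    exact ⟨(Finset.mem_sdiff.mp hz0).1, hQ0⟩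
  have hvx : v0 ≠ x := fun e => hv0P (e ▸ hx)
  have hvy : v0 ≠ y := fun e => hv0P (e ▸ hy)
  have hvt : v0 ≠ t := fun e => hv0P (e ▸ ht)
  -- the second near-dominator
  have hQ1 : ({v0, x, y, t} : Finset α) ⊆ W := by
    intro s hs
    simp only [Finset.mem_insert, Finset.mem_singleton] at hs
    rcases hs with rfl | rfl | rfl | rfl
    · exact hv0W
    · exact hPW hx
    · exact hPW hy
    · exact hPW ht
  have hc1 : ({v0, x, y, t} : Finset α).card = 4 :=
    Finset.card_eq_four.mpr ⟨v0, x, y, t, hvx, hvy, hvt, hxy, hxt, hyt, rfl⟩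
  obtain ⟨v1, hv1, z1, hz1, hzv1, n1'⟩ := h _ hQ1 hc1
  have n1 := n1'.mono (Finset.subset_insert z1 _)
  have m0 : v0 ∈ ({v0, x, y, t} : Finset α) := by simp
  have mx : x ∈ ({v0, x, y, t} : Finset α) := by simp
  have my : y ∈ ({v0, x, y, t} : Finset α) := by simp
  have mt : t ∈ ({v0, x, y, t} : Finset α) := by simp
  simp only [Finset.mem_sdiff, Finset.mem_insert, Finset.mem_singleton, not_or] at hv1
  obtain ⟨hv1W, g0, gx, gy, gt⟩ := hv1
  -- finish with a pair of {x,y,t}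
  have fin : ∀ s r : α, s ∈ W → r ∈ W → v1 ≠ s → v1 ≠ r → v0 ≠ s → v0 ≠ r → s ≠ r →
      ¬ R {v0, s, r} → ¬ R {v1, v0, s} → ¬ R {v1, v0, r} → ¬ R {v1, s, r} →
      ∃ a b c d : α, a ∈ W ∧ b ∈ W ∧ c ∈ W ∧ d ∈ W ∧ [a, b, c, d].Nodup ∧
      ¬ R {a, b, c} ∧ ¬ R {a, b, d} ∧ ¬ R {a, c, d} ∧ ¬ R {b, c, d} := by
    intro s r hs hr e1 e2 e3 e4 e5 b1 b2 b3 b4
    exact ⟨v1, v0, s, r, hv1W, hv0W, hs, hr, by simp [g0, e1, e2, e3, e4, e5], b2, b3, b4, b1⟩
  by_cases q0x : R {v1, v0, x}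
  · refine fin y t (hPW hy) (hPW ht) gy gt hvy hvt hyt k3 ?_ ?_ ?_
    · have := nearl_two n1 m0 mx m0 my hvx hvy (by tauto)
      tauto
    · have := nearl_two n1 m0 mx m0 mt hvx hvt (by tauto)
      tauto
    · have := nearl_two n1 m0 mx my mt hvx hyt (by tauto)
      tauto
  by_cases q0y : R {v1, v0, y}
  · refine fin x t (hPW hx) (hPW ht) gx gt hvx hvt hxt k2 q0x ?_ ?_
    · have := nearl_two n1 m0 my m0 mt hvy hvt (by tauto)
      tauto
    · have := nearl_two n1 m0 my mx mt hvy hxt (by tauto)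
      tauto
  by_cases qxy : R {v1, x, y}
  · refine fin x t (hPW hx) (hPW ht) gx gt hvx hvt hxt k2 q0x ?_ ?_
    · have := nearl_two n1 mx my m0 mt hxy hvt (by tauto)
      tauto
    · have := nearl_two n1 mx my mx mt hxy hxt (by tauto)
      tauto
  exact fin x y (hPW hx) (hPW hy) gx gy hvx hvy hxy k1 q0x q0y qxy

/-- Step 3, with names: `p` is near on `{a, b, c, d, z}`, the triples of `{a, b, c, d}` are blue
and `{p, d, z}` is blue. -/
theorem local_step3 (R : Finset α → Prop) (W : Finset α)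
    (h : ∀ Q ⊆ W, Q.card = 4 → ∃ w ∈ W \ Q, ∃ z ∈ W \ Q, z ≠ w ∧ Near R w (insert z Q))
    (p a b c d z : α) (hp : p ∈ W) (ha : a ∈ W) (hb : b ∈ W) (hc : c ∈ W) (hd : d ∈ W)
    (hz : z ∈ W) (hnd : [p, a, b, c, d, z].Nodup) (hn : Near R p {a, b, c, d, z})
    (k1 : ¬ R {a, b, d}) (k2 : ¬ R {a, c, d}) (k3 : ¬ R {b, c, d}) (k4 : ¬ R {p, d, z}) :
    Pasch R W := by
  -- a = 1, b = 2, d = 3, c = 4
  simp only [List.nodup_cons, List.mem_cons, List.not_mem_nil, or_false, not_or, not_false_eq_true,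
    List.nodup_nil, and_true] at hnd
  obtain ⟨⟨hpa, hpb, hpc, hpd, hpz⟩, ⟨hab, hac, had, haz⟩, ⟨hbc, hbd, hbz⟩, ⟨hcd, hcz⟩, hdz⟩ := hnd
  have hQ : ({p, a, b, z} : Finset α) ⊆ W := by
    intro s hs
    simp only [Finset.mem_insert, Finset.mem_singleton] at hs
    rcases hs with rfl | rfl | rfl | rfl <;> assumption
  have hcQ : ({p, a, b, z} : Finset α).card = 4 :=
    Finset.card_eq_four.mpr ⟨p, a, b, z, hpa, hpb, hpz, hab, haz, hbz, rfl⟩
  obtain ⟨w, hw, z', hz', hzw', n'⟩ := h _ hQ hcQ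
  have n := n'.mono (Finset.subset_insert z' _)
  simp only [Finset.mem_sdiff, Finset.mem_insert, Finset.mem_singleton, not_or] at hw
  obtain ⟨hwW, hwp, hwa, hwb, hwz⟩ := hw
  have mp : p ∈ ({p, a, b, z} : Finset α) := by simp
  have ma : a ∈ ({p, a, b, z} : Finset α) := by simp
  have mb : b ∈ ({p, a, b, z} : Finset α) := by simp
  have mz : z ∈ ({p, a, b, z} : Finset α) := by simp
  have r1 : ({d, a, b} : Finset α) = {a, b, d} := by
    ext s; simp only [Finset.mem_insert, Finset.mem_singleton]; tauto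
  have r2 : ({d, a, c} : Finset α) = {a, c, d} := by
    ext s; simp only [Finset.mem_insert, Finset.mem_singleton]; tauto
  have r3 : ({d, b, c} : Finset α) = {b, c, d} := by
    ext s; simp only [Finset.mem_insert, Finset.mem_singleton]; tauto
  have r4 : ({c, a, d} : Finset α) = {a, c, d} := by
    ext s; simp only [Finset.mem_insert, Finset.mem_singleton]; tauto
  have r5 : ({c, b, d} : Finset α) = {b, c, d} := by
    ext s; simp only [Finset.mem_insert, Finset.mem_singleton]; tauto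
  have r6 : ({d, p, z} : Finset α) = {p, d, z} := by
    ext s; simp only [Finset.mem_insert, Finset.mem_singleton]; tauto
  by_cases hwd : w = d
  · subst hwd
    have hX : Near R p {a, c, b, z} := hn.mono (by
      intro s hs
      simp only [Finset.mem_insert, Finset.mem_singleton] at hs ⊢
      tauto)
    have hX' : Near R p {b, c, a, z} := hn.mono (by
      intro s hs
      simp only [Finset.mem_insert, Finset.mem_singleton] at hs ⊢
      tauto)
    by_cases hbz' : R {w, b, z}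
    · have haz' : ¬ R {w, a, z} := by
        have := nearl_two n mb mz ma mz hbz haz (by tauto)
        tauto
      exact opp R W w p b c a z hwW hp hb hc ha hz
        (by simp [Ne.symm hpd, hwb, Ne.symm hcd, hwa, hwz, hpb, hpc, hpa, hpz, hbc,
          Ne.symm hab, hbz, Ne.symm hac, hcz, haz]) hX' (by rw [r3]; exact k3) haz'
    · exact opp R W w p a c b z hwW hp ha hc hb hz
        (by simp [Ne.symm hpd, hwb, Ne.symm hcd, hwa, hwz, hpb, hpc, hpa, hpz, Ne.symm hbc,
          hab, hbz, hac, hcz, haz]) hX (by rw [r2]; exact k2) hbz'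
  by_cases hwc : w = c
  · subst hwc
    have hX : Near R p {a, d, b, z} := hn.mono (by
      intro s hs
      simp only [Finset.mem_insert, Finset.mem_singleton] at hs ⊢
      tauto)
    have hX' : Near R p {b, d, a, z} := hn.mono (by
      intro s hs
      simp only [Finset.mem_insert, Finset.mem_singleton] at hs ⊢
      tauto)
    by_cases hbz' : R {w, b, z}
    · have haz' : ¬ R {w, a, z} := by
        have := nearl_two n mb mz ma mz hbz haz (by tauto)
        tauto
      exact opp R W w p b d a z hwW hp hb hd ha hz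
        (by simp [Ne.symm hpc, hwb, hcd, hwa, hwz, hpb, hpd, hpa, hpz, hbd,
          Ne.symm hab, hbz, Ne.symm had, hdz, haz]) hX' (by rw [r5]; exact k3) haz'
    · exact opp R W w p a d b z hwW hp ha hd hb hz
        (by simp [Ne.symm hpc, hwb, hcd, hwa, hwz, hpb, hpd, hpa, hpz, Ne.symm hbd,
          hab, hbz, had, hdz, haz]) hX (by rw [r4]; exact k2) hbz'
  · have hX : Near R w {a, b, p, z} := n.mono (by
      intro s hs
      simp only [Finset.mem_insert, Finset.mem_singleton] at hs ⊢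
      tauto)
    exact opp R W d w a b p z hd hwW ha hb hp hz
      (by simp [Ne.symm hwd, Ne.symm had, Ne.symm hbd, Ne.symm hpd, hdz, hwa, hwb, hwp, hwz, hab,
        Ne.symm hpa, haz, Ne.symm hpb, hbz, hpz]) hX (by rw [r1]; exact k1) (by rw [r6]; exact k4)

/-- If every 4-subset `Q` of `W` has a near-dominator of `Q ∪ {z}` for some `z`, then there is
a blue Pasch configuration. -/
theorem main_near (R : Finset α → Prop) (W : Finset α) (h4 : 4 ≤ W.card)
    (h : ∀ Q ⊆ W, Q.card = 4 → ∃ w ∈ W \ Q, ∃ z ∈ W \ Q, z ≠ w ∧ Near R w (insert z Q)) :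
    Pasch R W := by
  obtain ⟨a, b, c, d, ha, hb, hc, hd, hnd, b1, b2, b3, b4⟩ := local_step1 R W h4 h
  simp only [List.nodup_cons, List.mem_cons, List.not_mem_nil, or_false, not_or, not_false_eq_true,
    List.nodup_nil, and_true] at hnd
  obtain ⟨⟨hab, hac, had⟩, ⟨hbc, hbd⟩, hcd⟩ := hnd
  have hQ : ({a, b, c, d} : Finset α) ⊆ W := by
    intro s hs
    simp only [Finset.mem_insert, Finset.mem_singleton] at hs
    rcases hs with rfl | rfl | rfl | rfl <;> assumption
  have hcQ : ({a, b, c, d} : Finset α).card = 4 :=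
    Finset.card_eq_four.mpr ⟨a, b, c, d, hab, hac, had, hbc, hbd, hcd, rfl⟩
  obtain ⟨p, hp, z, hz, hzp, hn⟩ := h _ hQ hcQ
  simp only [Finset.mem_sdiff, Finset.mem_insert, Finset.mem_singleton, not_or] at hp hz
  obtain ⟨hpW, hpa, hpb, hpc, hpd⟩ := hp
  obtain ⟨hzW, hza, hzb, hzc, hzd⟩ := hz
  have ma : a ∈ insert z ({a, b, c, d} : Finset α) := by simp
  have mb : b ∈ insert z ({a, b, c, d} : Finset α) := by simp
  have md : d ∈ insert z ({a, b, c, d} : Finset α) := by simp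
  have mz : z ∈ insert z ({a, b, c, d} : Finset α) := by simp
  by_cases k4 : R {p, d, z}
  · -- use `a` as the special point
    have k4' : ¬ R {p, a, z} := by
      have := nearl_two hn md mz ma mz (Ne.symm hzd) (Ne.symm hza) (by tauto)
      tauto
    have hX : Near R p {b, c, d, a, z} := hn.mono (by
      intro s hs
      simp only [Finset.mem_insert, Finset.mem_singleton] at hs ⊢
      tauto)
    have r1 : ({b, c, a} : Finset α) = {a, b, c} := by
      ext s; simp only [Finset.mem_insert, Finset.mem_singleton]; tauto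
    have r2 : ({b, d, a} : Finset α) = {a, b, d} := by
      ext s; simp only [Finset.mem_insert, Finset.mem_singleton]; tauto
    have r3 : ({c, d, a} : Finset α) = {a, c, d} := by
      ext s; simp only [Finset.mem_insert, Finset.mem_singleton]; tauto
    exact local_step3 R W h p b c d a z hpW hb hc hd ha hzW
      (by simp [hpb, hpc, hpd, hpa, Ne.symm hzp, hbc, hbd, Ne.symm hab, Ne.symm hzb, hcd,
        Ne.symm hac, Ne.symm hzc, Ne.symm had, Ne.symm hzd, Ne.symm hza]) hX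
      (by rw [r1]; exact b1) (by rw [r2]; exact b2) (by rw [r3]; exact b3) k4'
  · have hX : Near R p {a, b, c, d, z} := hn.mono (by
      intro s hs
      simp only [Finset.mem_insert, Finset.mem_singleton] at hs ⊢
      tauto)
    exact local_step3 R W h p a b c d z hpW ha hb hc hd hzW
      (by simp [hpa, hpb, hpc, hpd, Ne.symm hzp, hab, hac, had, Ne.symm hza, hbc, hbd,
        Ne.symm hzb, hcd, Ne.symm hzc, Ne.symm hzd]) hX b2 b3 b4 k4

end Pool.MP7783b9
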