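import Pool.Agent.H.MP_7783b9_co.Core

/-!
# Near-dominators
-/

set_option autoImplicit false

open Finset

namespace Pool.MP7783b9

variable {α : Type*} [DecidableEq α]

theorem nearl_pair_eq {a b c d : α} (h : ({a, b} : Finset α) = {c, d}) :
    (a = c ∧ b = d) ∨ (a = d ∧ b = c) := by
  have ha : a ∈ ({c, d} : Finset α) := h ▸ (by simp)
  have hb : b ∈ ({c, d} : Finset α) := h ▸ (by simp)
  have hc : c ∈ ({a, b} : Finset α) := h ▸ (by simp)
  have hd : d ∈ ({a, b} : Finset α) := h ▸ (by simp)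
  simp only [Finset.mem_insert, Finset.mem_singleton] at ha hb hc hd
  rcases ha with ha | ha <;> rcases hb with hb | hb <;> subst_vars <;> simp_all

/-- if `w` is near on a set containing four different points then two disjoint pairs ... -/
theorem nearl_two {R : Finset α → Prop} {w : α} {P : Finset α} (hn : Near R w P)
    {x y x' y' : α} (hx : x ∈ P) (hy : y ∈ P) (hx' : x' ∈ P) (hy' : y' ∈ P) (hxy : x ≠ y)
    (hxy' : x' ≠ y') (hne : ¬ ((x = x' ∧ y = y') ∨ (x = y' ∧ y = x'))) :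
    ¬ R {w, x, y} ∨ ¬ R {w, x', y'} := by
  by_contra hcon
  push Not at hcon
  exact hne (nearl_pair_eq (hn x hx y hy x' hx' y' hy' hxy hxy' hcon.1 hcon.2))

/-- `w` is a near-dominator of `{x₁, x₂, x₃, x₄}` and the matching `x₁x₂, x₃x₄` is blue for
`v`: then there is a blue Pasch configuration. -/
theorem opp (R : Finset α → Prop) (W : Finset α) (v w x₁ x₂ x₃ x₄ : α)
    (hv : v ∈ W) (hw : w ∈ W) (h₁ : x₁ ∈ W) (h₂ : x₂ ∈ W) (h₃ : x₃ ∈ W) (h₄ : x₄ ∈ W)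
    (hnd : [v, w, x₁, x₂, x₃, x₄].Nodup) (hn : Near R w {x₁, x₂, x₃, x₄})
    (b₁ : ¬ R {v, x₁, x₂}) (b₂ : ¬ R {v, x₃, x₄}) : Pasch R W := by
  have m₁ : x₁ ∈ ({x₁, x₂, x₃, x₄} : Finset α) := by simp
  have m₂ : x₂ ∈ ({x₁, x₂, x₃, x₄} : Finset α) := by simp
  have m₃ : x₃ ∈ ({x₁, x₂, x₃, x₄} : Finset α) := by simp
  have m₄ : x₄ ∈ ({x₁, x₂, x₃, x₄} : Finset α) := by simp
  have hnd' := hnd
  simp only [List.nodup_cons, List.mem_cons, List.not_mem_nil, or_false, not_or, not_false_eq_true,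
    List.nodup_nil, and_true] at hnd'
  obtain ⟨⟨hvw, hv1, hv2, hv3, hv4⟩, ⟨hw1, hw2, hw3, hw4⟩, ⟨h12, h13, h14⟩, ⟨h23, h24⟩, h34⟩ := hnd'
  by_cases hA : ¬ R {w, x₂, x₃} ∧ ¬ R {w, x₄, x₁}
  · exact ⟨v, w, x₁, x₂, x₃, x₄, hv, hw, h₁, h₂, h₃, h₄, hnd, b₁, b₂, hA.1, hA.2⟩
  · have key : ¬ R {w, x₂, x₄} ∧ ¬ R {w, x₃, x₁} := by
      by_cases h : R {w, x₂, x₃}
      · constructor
        · have := nearl_two hn m₂ m₃ m₂ m₄ h23 h24 (by tauto)
          tauto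
        · have := nearl_two hn m₂ m₃ m₃ m₁ h23 (Ne.symm h13) (by tauto)
          tauto
      · have h' : R {w, x₄, x₁} := by tauto
        constructor
        · have := nearl_two hn m₄ m₁ m₂ m₄ (Ne.symm h14) h24 (by tauto)
          tauto
        · have := nearl_two hn m₄ m₁ m₃ m₁ (Ne.symm h14) (Ne.symm h13) (by tauto)
          tauto
    refine ⟨v, w, x₁, x₂, x₄, x₃, hv, hw, h₁, h₂, h₄, h₃, ?_, b₁, ?_, key.1, key.2⟩
    · simp only [List.nodup_cons, List.mem_cons, List.not_mem_nil, or_false, not_or,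
        not_false_eq_true, List.nodup_nil, and_true]
      exact ⟨⟨hvw, hv1, hv2, hv4, hv3⟩, ⟨hw1, hw2, hw4, hw3⟩, ⟨h12, h14, h13⟩, ⟨h24, h23⟩,
        Ne.symm h34⟩
    · rwa [Finset.pair_comm x₄ x₃]

/-- two near-dominators of the same 4-set give a blue Pasch configuration -/
theorem uniq (R : Finset α → Prop) (W Q : Finset α) (hQ : Q ⊆ W) (hc : Q.card = 4) (v w : α)
    (hv : v ∈ W \ Q) (hw : w ∈ W \ Q) (hvw : v ≠ w) (nv : Near R v Q) (nw : Near R w Q) :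
    Pasch R W := by
  obtain ⟨x₁, x₂, x₃, x₄, h12, h13, h14, h23, h24, h34, rfl⟩ := Finset.card_eq_four.mp hc
  have m₁ : x₁ ∈ ({x₁, x₂, x₃, x₄} : Finset α) := by simp
  have m₂ : x₂ ∈ ({x₁, x₂, x₃, x₄} : Finset α) := by simp
  have m₃ : x₃ ∈ ({x₁, x₂, x₃, x₄} : Finset α) := by simp
  have m₄ : x₄ ∈ ({x₁, x₂, x₃, x₄} : Finset α) := by simp
  simp only [Finset.mem_sdiff, Finset.mem_insert, Finset.mem_singleton, not_or] at hv hw
  obtain ⟨hv, hv1, hv2, hv3, hv4⟩ := hv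
  obtain ⟨hw, hw1, hw2, hw3, hw4⟩ := hw
  by_cases hA : ¬ R {v, x₁, x₂} ∧ ¬ R {v, x₃, x₄}
  · refine opp R W v w x₁ x₂ x₃ x₄ hv hw (hQ m₁) (hQ m₂) (hQ m₃) (hQ m₄) ?_ nw hA.1 hA.2
    simp only [List.nodup_cons, List.mem_cons, List.not_mem_nil, or_false, not_or,
        not_false_eq_true, List.nodup_nil, and_true]
    exact ⟨⟨hvw, hv1, hv2, hv3, hv4⟩, ⟨hw1, hw2, hw3, hw4⟩, ⟨h12, h13, h14⟩, ⟨h23, h24⟩, h34⟩
  · have key : ¬ R {v, x₁, x₃} ∧ ¬ R {v, x₂, x₄} := by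
      by_cases h : R {v, x₁, x₂}
      · constructor
        · have := nearl_two nv m₁ m₂ m₁ m₃ h12 h13 (by tauto)
          tauto
        · have := nearl_two nv m₁ m₂ m₂ m₄ h12 h24 (by tauto)
          tauto
      · have h' : R {v, x₃, x₄} := by tauto
        constructor
        · have := nearl_two nv m₃ m₄ m₁ m₃ h34 h13 (by tauto)
          tauto
        · have := nearl_two nv m₃ m₄ m₂ m₄ h34 h24 (by tauto)
          tauto
    refine opp R W v w x₁ x₃ x₂ x₄ hv hw (hQ m₁) (hQ m₃) (hQ m₂) (hQ m₄) ?_ ?_ key.1 key.2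
    · simp only [List.nodup_cons, List.mem_cons, List.not_mem_nil, or_false, not_or,
        not_false_eq_true, List.nodup_nil, and_true]
      exact ⟨⟨hvw, hv1, hv3, hv2, hv4⟩, ⟨hw1, hw3, hw2, hw4⟩, ⟨h13, h12, h14⟩,
        ⟨Ne.symm h23, h34⟩, h24⟩
    · have : ({x₁, x₃, x₂, x₄} : Finset α) = {x₁, x₂, x₃, x₄} := by
        rw [Finset.insert_comm x₃ x₂]
      rwa [this]

theorem Near.mono {R : Finset α → Prop} {w : α} {P Q : Finset α} (h : Q ⊆ P) (hn : Near R w P) :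
    Near R w Q :=
  fun x hx y hy x' hx' y' hy' => hn x (h hx) y (h hy) x' (h hx') y' (h hy')

end Pool.MP7783b9
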