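import Pool.Agent.H.MP_7783b9_co.Core

/-!
# Two partitions and an alternating 4-cycle
-/

set_option autoImplicit false

open Finset

namespace Pool.MP7783b9

variable {α : Type*} [DecidableEq α]

/-- On four points with classes of size at most two, two of the three matchings are good. -/
theorem pairl_four (f : α → ℕ) (x y z t : α)
    (hf : ∀ w ∈ ({x, y, z, t} : Finset α),
      2 ≤ (({x, y, z, t} : Finset α).filter (fun v => f v ≠ f w)).card) :
    ((f x ≠ f y ∧ f z ≠ f t) ∨ (f x ≠ f z ∧ f y ≠ f t)) ∧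
    ((f x ≠ f y ∧ f z ≠ f t) ∨ (f x ≠ f t ∧ f y ≠ f z)) ∧
    ((f x ≠ f z ∧ f y ≠ f t) ∨ (f x ≠ f t ∧ f y ≠ f z)) := by
  have key : ∀ a b c d : α, ({x, y, z, t} : Finset α) ⊆ {a, b, c, d} → a ∈ ({x, y, z, t} : Finset α) →
      f b = f a → f c = f a → False := by
    intro a b c d hs ha hb hc
    have h1 := hf a ha
    have h2 : (({x, y, z, t} : Finset α).filter (fun v => f v ≠ f a)) ⊆ {d} := by
      intro v hv
      rw [mem_filter] at hv
      have h3 := hs hv.1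
      simp only [mem_insert, mem_singleton] at h3 ⊢
      rcases h3 with h | h | h | h
      · exact absurd (by rw [h]) hv.2
      · exact absurd (by rw [h, hb]) hv.2
      · exact absurd (by rw [h, hc]) hv.2
      · exact h
    have h4 := card_le_card h2
    rw [card_singleton] at h4
    omega
  have k1 : ¬ (f y = f x ∧ f z = f x) := fun h => key x y z t (by
    intro v hv; simp only [mem_insert, mem_singleton] at hv ⊢; tauto) (by simp) h.1 h.2
  have k2 : ¬ (f y = f x ∧ f t = f x) := fun h => key x y t z (by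
    intro v hv; simp only [mem_insert, mem_singleton] at hv ⊢; tauto) (by simp) h.1 h.2
  have k3 : ¬ (f z = f x ∧ f t = f x) := fun h => key x z t y (by
    intro v hv; simp only [mem_insert, mem_singleton] at hv ⊢; tauto) (by simp) h.1 h.2
  have k4 : ¬ (f z = f y ∧ f t = f y) := fun h => key y z t x (by
    intro v hv; simp only [mem_insert, mem_singleton] at hv ⊢; tauto) (by simp) h.1 h.2
  clear key hf
  refine ⟨?_, ?_, ?_⟩ <;> omega

theorem pairl_bad (f : α → ℕ) (Z : Finset α) (h5 : 5 ≤ Z.card) :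
    ∃ B : Finset α, B.card ≤ 2 ∧ ∀ z0 ∈ Z, z0 ∉ B → ∀ z ∈ Z,
      (Z.filter (fun x => f x ≠ f z)).card = 2 → f z0 = f z := by
  by_cases h : ∃ z ∈ Z, (Z.filter (fun x => f x ≠ f z)).card = 2
  · obtain ⟨z, hz, hc⟩ := h
    refine ⟨Z.filter (fun x => f x ≠ f z), hc.le, ?_⟩
    intro z0 hz0 hn z' hz' hc'
    have h1 : f z0 = f z := by
      by_contra hne
      exact hn (mem_filter.2 ⟨hz0, hne⟩)
    by_cases h2 : f z' = f z
    · rw [h1, h2]
    · exfalso
      have h3 : Z ⊆ Z.filter (fun x => f x ≠ f z) ∪ Z.filter (fun x => f x ≠ f z') := by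
        intro v hv
        rw [mem_union, mem_filter, mem_filter]
        by_cases h4 : f v = f z
        · right
          exact ⟨hv, fun h5 => h2 (by rw [← h5, h4])⟩
        · left
          exact ⟨hv, h4⟩
      have h4 := card_le_card h3
      have h6 := card_union_le (Z.filter (fun x => f x ≠ f z)) (Z.filter (fun x => f x ≠ f z'))
      omega
  · refine ⟨∅, by simp, ?_⟩
    intro z0 hz0 _ z hz hc
    exact absurd ⟨z, hz, hc⟩ h

theorem pairl_erase (f : α → ℕ) (Z : Finset α) (z0 : α)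
    (hf : ∀ z ∈ Z, 2 ≤ (Z.filter (fun x => f x ≠ f z)).card)
    (hb : ∀ z ∈ Z, (Z.filter (fun x => f x ≠ f z)).card = 2 → f z0 = f z) :
    ∀ z ∈ Z.erase z0, 2 ≤ ((Z.erase z0).filter (fun x => f x ≠ f z)).card := by
  intro z hz
  have hzZ := mem_of_mem_erase hz
  have h1 := hf z hzZ
  have h2 : (Z.erase z0).filter (fun x => f x ≠ f z) = (Z.filter (fun x => f x ≠ f z)).erase z0 := by
    ext v
    simp only [mem_filter, mem_erase]
    tauto
  rw [h2]
  by_cases h3 : (Z.filter (fun x => f x ≠ f z)).card = 2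
  · have h4 := hb z hzZ h3
    rw [erase_eq_of_notMem]
    · exact h1
    · intro h5
      exact (mem_filter.1 h5).2 h4
  · have h4 := pred_card_le_card_erase (s := Z.filter (fun x => f x ≠ f z)) (a := z0)
    omega

theorem pair_lemma (p q : α → ℕ) (Z : Finset α) (h4 : 4 ≤ Z.card)
    (hp : ∀ z ∈ Z, 2 ≤ (Z.filter (fun x => p x ≠ p z)).card)
    (hq : ∀ z ∈ Z, 2 ≤ (Z.filter (fun x => q x ≠ q z)).card) :
    ∃ a b c d : α, a ∈ Z ∧ b ∈ Z ∧ c ∈ Z ∧ d ∈ Z ∧ [a, b, c, d].Nodup ∧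
      p a ≠ p b ∧ p c ≠ p d ∧ q b ≠ q c ∧ q d ≠ q a := by
  induction hn : Z.card using Nat.strong_induction_on generalizing Z with
  | _ n ih =>
    by_cases h5 : 5 ≤ Z.card
    · obtain ⟨B, hB, hB'⟩ := pairl_bad p Z h5
      obtain ⟨C, hC, hC'⟩ := pairl_bad q Z h5
      have h6 : ∃ z0 ∈ Z, z0 ∉ B ∪ C := by
        by_contra hcon
        push Not at hcon
        have h7 : Z ⊆ B ∪ C := fun v hv => hcon v hv
        have h8 := card_le_card h7
        have h9 := card_union_le B C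
        omega
      obtain ⟨z0, hz0, hz0'⟩ := h6
      rw [mem_union, not_or] at hz0'
      have hc : (Z.erase z0).card = Z.card - 1 := card_erase_of_mem hz0
      obtain ⟨a, b, c, d, ha, hb, hc', hd, hnd, h⟩ := ih (Z.erase z0).card (by omega) (Z.erase z0)
        (by omega) (pairl_erase p Z z0 hp (hB' z0 hz0 hz0'.1))
        (pairl_erase q Z z0 hq (hC' z0 hz0 hz0'.2)) rfl
      exact ⟨a, b, c, d, mem_of_mem_erase ha, mem_of_mem_erase hb, mem_of_mem_erase hc',
        mem_of_mem_erase hd, hnd, h⟩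
    · have hc : Z.card = 4 := by omega
      obtain ⟨x, y, z, t, hxy, hxz, hxt, hyz, hyt, hzt, hZ⟩ := card_eq_four.1 hc
      subst hZ
      obtain ⟨p1, p2, p3⟩ := pairl_four p x y z t hp
      obtain ⟨q1, q2, q3⟩ := pairl_four q x y z t hq
      have hx : x ∈ ({x, y, z, t} : Finset α) := by simp
      have hy : y ∈ ({x, y, z, t} : Finset α) := by simp
      have hz : z ∈ ({x, y, z, t} : Finset α) := by simp
      have ht : t ∈ ({x, y, z, t} : Finset α) := by simp
      have main : ((p x ≠ p y ∧ p z ≠ p t) ∧ (q x ≠ q z ∧ q y ≠ q t)) ∨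
          ((p x ≠ p y ∧ p z ≠ p t) ∧ (q x ≠ q t ∧ q y ≠ q z)) ∨
          ((p x ≠ p z ∧ p y ≠ p t) ∧ (q x ≠ q y ∧ q z ≠ q t)) ∨
          ((p x ≠ p z ∧ p y ≠ p t) ∧ (q x ≠ q t ∧ q y ≠ q z)) ∨
          ((p x ≠ p t ∧ p y ≠ p z) ∧ (q x ≠ q y ∧ q z ≠ q t)) ∨
          ((p x ≠ p t ∧ p y ≠ p z) ∧ (q x ≠ q z ∧ q y ≠ q t)) := by
        rcases p1 with a | b
        · rcases q3 with e | e
          · exact Or.inl ⟨a, e⟩
          · exact Or.inr (Or.inl ⟨a, e⟩)
        · rcases q2 with e | e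
          · exact Or.inr (Or.inr (Or.inl ⟨b, e⟩))
          · exact Or.inr (Or.inr (Or.inr (Or.inl ⟨b, e⟩)))
      have nd : ∀ a b c d : α, a ≠ b → a ≠ c → a ≠ d → b ≠ c → b ≠ d → c ≠ d →
          [a, b, c, d].Nodup := by
        intro a b c d h1 h2 h3 h4 h5 h6
        simp only [List.nodup_cons, List.mem_cons, List.not_mem_nil, or_false, not_or,
          not_false_eq_true, List.nodup_nil, and_true]
        exact ⟨⟨h1, h2, h3⟩, ⟨h4, h5⟩, h6⟩
      rcases main with ⟨h1, h2⟩ | ⟨h1, h2⟩ | ⟨h1, h2⟩ | ⟨h1, h2⟩ | ⟨h1, h2⟩ | ⟨h1, h2⟩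
      · exact ⟨x, y, t, z, hx, hy, ht, hz, nd _ _ _ _ hxy hxt hxz hyt hyz hzt.symm,
          h1.1, h1.2.symm, h2.2, h2.1.symm⟩
      · exact ⟨x, y, z, t, hx, hy, hz, ht, nd _ _ _ _ hxy hxz hxt hyz hyt hzt,
          h1.1, h1.2, h2.2, h2.1.symm⟩
      · exact ⟨x, z, t, y, hx, hz, ht, hy, nd _ _ _ _ hxz hxt hxy hzt hyz.symm hyt.symm,
          h1.1, h1.2.symm, h2.2, h2.1.symm⟩
      · exact ⟨x, z, y, t, hx, hz, hy, ht, nd _ _ _ _ hxz hxy hxt hyz.symm hzt hyt,
          h1.1, h1.2, h2.2.symm, h2.1.symm⟩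
      · exact ⟨x, t, z, y, hx, ht, hz, hy, nd _ _ _ _ hxt hxz hxy hzt.symm hyt.symm hyz.symm,
          h1.1, h1.2.symm, h2.2.symm, h2.1.symm⟩
      · exact ⟨x, t, y, z, hx, ht, hy, hz, nd _ _ _ _ hxt hxy hxz hyt.symm hzt.symm hyz,
          h1.1, h1.2, h2.2.symm, h2.1.symm⟩

end Pool.MP7783b9
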