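import Pool.Agent.H.MP_7783b9_co.Core

/-!
# Two edges versus the Pasch configuration
-/

set_option autoImplicit false

open Finset

namespace Pool.MP7783b9

variable {α : Type*} [DecidableEq α]

private theorem twoe_T (R : Finset α → Prop) (W : Finset α)
    (h : ¬ ∃ c ∈ W, Mat (link R c) (W.erase c) 2) (c x y z t : α)
    (hc : c ∈ W) (hx : x ∈ W) (hy : y ∈ W) (hz : z ∈ W) (ht : t ∈ W)
    (hn : [c, x, y, z, t].Nodup) (h1 : R {c, x, y}) (h2 : R {c, z, t}) : False := by
  apply h
  simp only [List.nodup_cons, List.mem_cons, List.not_mem_nil, or_false, not_or, not_false_eq_true,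
    List.nodup_nil, and_true] at hn
  obtain ⟨⟨n1, n2, n3, n4⟩, ⟨n5, n6, n7⟩, ⟨n8, n9⟩, n10⟩ := hn
  refine ⟨c, hc, fun q => if q.1 = 0 then (if q.2 then y else x) else (if q.2 then t else z),
    ?_, ?_, ?_⟩
  · rintro ⟨i, s⟩ ⟨j, s'⟩ hij
    fin_cases i <;> fin_cases j <;> cases s <;> cases s' <;> simp at hij ⊢ <;>
      first
        | exact absurd hij n5
        | exact absurd hij.symm n5
        | exact absurd hij n6
        | exact absurd hij.symm n6
        | exact absurd hij n7
        | exact absurd hij.symm n7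
        | exact absurd hij n8
        | exact absurd hij.symm n8
        | exact absurd hij n9
        | exact absurd hij.symm n9
        | exact absurd hij n10
        | exact absurd hij.symm n10
  · rintro ⟨i, s⟩
    fin_cases i <;> cases s <;> simp [hx, hy, hz, ht, Ne.symm n1, Ne.symm n2, Ne.symm n3, Ne.symm n4]
  · intro i
    fin_cases i
    · exact h1
    · exact h2

private theorem twoe_perm (a b c : α) : ({b, a, c} : Finset α) = {a, b, c} := by
  ext x; simp only [Finset.mem_insert, Finset.mem_singleton]; tauto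

private theorem twoe_perm' (a b c : α) : ({a, c, b} : Finset α) = {a, b, c} := by
  ext x; simp only [Finset.mem_insert, Finset.mem_singleton]; tauto

private theorem twoe_perm'' (a b c : α) : ({c, a, b} : Finset α) = {a, b, c} := by
  ext x; simp only [Finset.mem_insert, Finset.mem_singleton]; tauto

private theorem twoe_perm''' (a b c : α) : ({b, c, a} : Finset α) = {a, b, c} := by
  ext x; simp only [Finset.mem_insert, Finset.mem_singleton]; tauto

private theorem twoe_split (W : Finset α) (hW : W.card = 6) (a b c : α) (ha : a ∈ W) (hb : b ∈ W)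
    (hc : c ∈ W) (hn : [a, b, c].Nodup) :
    ∃ d e f : α, d ∈ W ∧ e ∈ W ∧ f ∈ W ∧ [a, b, c, d, e, f].Nodup := by
  simp only [List.nodup_cons, List.mem_cons, List.not_mem_nil, or_false, not_or, not_false_eq_true,
    List.nodup_nil, and_true] at hn
  obtain ⟨⟨n1, n2⟩, n3⟩ := hn
  have hsub : ({a, b, c} : Finset α) ⊆ W := by
    intro x hx
    simp only [Finset.mem_insert, Finset.mem_singleton] at hx
    rcases hx with rfl | rfl | rfl <;> assumption
  have h3 : ({a, b, c} : Finset α).card = 3 := Finset.card_eq_three.2 ⟨a, b, c, n1, n2, n3, rfl⟩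
  have h4 : (W \ {a, b, c}).card = 3 := by
    rw [Finset.card_sdiff_of_subset hsub, hW, h3]
  obtain ⟨d, e, f, m1, m2, m3, h5⟩ := Finset.card_eq_three.1 h4
  have hmem : ∀ x, x ∈ ({d, e, f} : Finset α) → x ∈ W ∧ x ≠ a ∧ x ≠ b ∧ x ≠ c := by
    intro x hx
    rw [← h5, Finset.mem_sdiff] at hx
    simpa using hx
  have hd := hmem d (by simp)
  have he := hmem e (by simp)
  have hf := hmem f (by simp)
  refine ⟨d, e, f, hd.1, he.1, hf.1, ?_⟩
  simp only [List.nodup_cons, List.mem_cons, List.not_mem_nil, or_false, not_or, not_false_eq_true,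
    List.nodup_nil, and_true]
  exact ⟨⟨n1, n2, hd.2.1.symm, he.2.1.symm, hf.2.1.symm⟩,
    ⟨n3, hd.2.2.1.symm, he.2.2.1.symm, hf.2.2.1.symm⟩,
    ⟨hd.2.2.2.symm, he.2.2.2.symm, hf.2.2.2.symm⟩, ⟨m1, m2⟩, m3⟩

theorem two_edges (R : Finset α → Prop) (W : Finset α) (hW : W.card = 6) :
    Pasch R W ∨ ∃ c ∈ W, Mat (link R c) (W.erase c) 2 := by
  by_cases hM : ∃ c ∈ W, Mat (link R c) (W.erase c) 2
  · exact Or.inr hM
  left
  have T := twoe_T R W hM
  by_cases hred : ∃ a b c : α, a ∈ W ∧ b ∈ W ∧ c ∈ W ∧ [a, b, c].Nodup ∧ R {a, b, c}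
  · obtain ⟨a, b, c, ha, hb, hc, hn3, hR⟩ := hred
    obtain ⟨d, e, f, hd, he, hf, hn⟩ := twoe_split W hW a b c ha hb hc hn3
    simp only [List.nodup_cons, List.mem_cons, List.not_mem_nil, or_false, not_or,
      not_false_eq_true, List.nodup_nil, and_true] at hn
    obtain ⟨⟨ab, ac, ad, ae, af⟩, ⟨bc, bd, be, bf⟩, ⟨cd, ce, cf⟩, ⟨de, df⟩, ef⟩ := hn
    have ba := Ne.symm ab
    have ca := Ne.symm ac
    have da := Ne.symm ad
    have ea := Ne.symm ae
    have fa := Ne.symm af
    have cb := Ne.symm bc
    have db := Ne.symm bd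
    have eb := Ne.symm be
    have fb := Ne.symm bf
    have dc := Ne.symm cd
    have ec := Ne.symm ce
    have fc := Ne.symm cf
    have ed := Ne.symm de
    have fd := Ne.symm df
    have fe := Ne.symm ef
    -- triples meeting {a, b, c} in one point
    have onea : ∀ x y, x ∈ W → y ∈ W → [a, x, y, b, c].Nodup → ¬ R {a, x, y} := by
      intro x y hx hy hnd hr
      exact T a x y b c ha hx hy hb hc hnd hr hR
    have oneb : ∀ x y, x ∈ W → y ∈ W → [b, x, y, a, c].Nodup → ¬ R {b, x, y} := by
      intro x y hx hy hnd hr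
      exact T b x y a c hb hx hy ha hc hnd hr (by rw [twoe_perm]; exact hR)
    have onec : ∀ x y, x ∈ W → y ∈ W → [c, x, y, a, b].Nodup → ¬ R {c, x, y} := by
      intro x y hx hy hnd hr
      exact T c x y a b hc hx hy ha hb hnd hr (by rw [twoe_perm'']; exact hR)
    have h12 : ¬ (R {a, b, d} ∧ R {a, c, e}) := by
      rintro ⟨h1, h2⟩
      exact T a b d c e ha hb hd hc he (by simp [*]) h1 h2
    have h13 : ¬ (R {a, b, d} ∧ R {b, c, f}) := by
      rintro ⟨h1, h2⟩
      exact T b a d c f hb ha hd hc hf (by simp [*]) (by rw [twoe_perm]; exact h1) h2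
    have h23 : ¬ (R {a, c, e} ∧ R {b, c, f}) := by
      rintro ⟨h1, h2⟩
      exact T c a e b f hc ha he hb hf (by simp [*]) (by rw [twoe_perm]; exact h1)
        (by rw [twoe_perm]; exact h2)
    by_cases r1 : R {a, b, d}
    · have r2 : ¬ R {a, c, e} := fun h => h12 ⟨r1, h⟩
      have r3 : ¬ R {b, c, f} := fun h => h13 ⟨r1, h⟩
      refine ⟨c, d, e, a, f, b, hc, hd, he, ha, hf, hb, by simp [*], ?_, ?_, ?_, ?_⟩
      · intro h
        apply r2
        rwa [show ({c, e, a} : Finset α) = {a, c, e} from twoe_perm''' a c e] at h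
      · intro h
        apply r3
        rwa [show ({c, f, b} : Finset α) = {b, c, f} from twoe_perm''' b c f] at h
      · intro h
        rw [show ({d, a, f} : Finset α) = {a, d, f} from twoe_perm a d f] at h
        exact onea d f hd hf (by simp [*]) h
      · intro h
        rw [show ({d, b, e} : Finset α) = {b, d, e} from twoe_perm b d e] at h
        exact oneb d e hd he (by simp [*]) h
    · by_cases r2 : R {a, c, e}
      · have r3 : ¬ R {b, c, f} := fun h => h23 ⟨r2, h⟩
        refine ⟨b, e, d, a, f, c, hb, he, hd, ha, hf, hc, by simp [*], ?_, ?_, ?_, ?_⟩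
        · intro h
          apply r1
          rwa [show ({b, d, a} : Finset α) = {a, b, d} from twoe_perm''' a b d] at h
        · intro h
          apply r3
          rwa [show ({b, f, c} : Finset α) = {b, c, f} from twoe_perm' b c f] at h
        · intro h
          rw [show ({e, a, f} : Finset α) = {a, e, f} from twoe_perm a e f] at h
          exact onea e f he hf (by simp [*]) h
        · intro h
          rw [show ({e, c, d} : Finset α) = {c, e, d} from twoe_perm c e d] at h
          exact onec e d he hd (by simp [*]) h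
      · refine ⟨a, f, d, b, e, c, ha, hf, hd, hb, he, hc, by simp [*], ?_, ?_, ?_, ?_⟩
        · intro h
          apply r1
          rwa [show ({a, d, b} : Finset α) = {a, b, d} from twoe_perm' a b d] at h
        · intro h
          apply r2
          rwa [show ({a, e, c} : Finset α) = {a, c, e} from twoe_perm' a c e] at h
        · intro h
          rw [show ({f, b, e} : Finset α) = {b, f, e} from twoe_perm b f e] at h
          exact oneb f e hf he (by simp [*]) h
        · intro h
          rw [show ({f, c, d} : Finset α) = {c, f, d} from twoe_perm c f d] at h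
          exact onec f d hf hd (by simp [*]) h
  · -- everything is blue
    have hblue : ∀ a b c : α, a ∈ W → b ∈ W → c ∈ W → [a, b, c].Nodup → ¬ R {a, b, c} :=
      fun a b c ha hb hc hn hR => hred ⟨a, b, c, ha, hb, hc, hn, hR⟩
    obtain ⟨T3, hT3, hcard⟩ := Finset.exists_subset_card_eq (show 3 ≤ W.card by omega)
    obtain ⟨a, b, c, n1, n2, n3, rfl⟩ := Finset.card_eq_three.1 hcard
    have ha : a ∈ W := hT3 (by simp)
    have hb : b ∈ W := hT3 (by simp)
    have hc : c ∈ W := hT3 (by simp)
    obtain ⟨d, e, f, hd, he, hf, hn⟩ := twoe_split W hW a b c ha hb hc (by simp [*])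
    have hn' := hn
    simp only [List.nodup_cons, List.mem_cons, List.not_mem_nil, or_false, not_or,
      not_false_eq_true, List.nodup_nil, and_true] at hn
    obtain ⟨⟨ab, ac, ad, ae, af⟩, ⟨bc, bd, be, bf⟩, ⟨cd, ce, cf⟩, ⟨de, df⟩, ef⟩ := hn
    have fc := Ne.symm cf
    refine ⟨a, b, c, d, e, f, ha, hb, hc, hd, he, hf, hn', ?_, ?_, ?_, ?_⟩
    · exact hblue _ _ _ ha hc hd (by simp [*])
    · exact hblue _ _ _ ha he hf (by simp [*])
    · exact hblue _ _ _ hb hd he (by simp [*])
    · exact hblue _ _ _ hb hf hc (by simp [*])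

end Pool.MP7783b9
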