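import Pool.Agent.H.MP_7783b9_co.EmbS
import Pool.Agent.H.MP_7783b9_co.Five
import Pool.Agent.H.MP_7783b9_co.LocalL
import Pool.Agent.H.MP_7783b9_co.BroomP
import Pool.Agent.H.MP_7783b9_co.TwoE

/-!
# Trees which are not stars versus the Pasch configuration
-/

set_option autoImplicit false

open Finset

namespace Pool.MP7783b9

variable {α V : Type*} [DecidableEq α] [DecidableEq V]

/-- a tree with two edges is a star -/
private theorem paschc_center {S : Finset V} {E : Finset (Finset V)} (h : IsTr S E)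
    (hE : E.card = 2) : ∃ c, ∀ f ∈ E, c ∈ f := by
  obtain ⟨f, g, hfg, rfl⟩ := Finset.card_eq_two.mp hE
  have hf : f ∈ ({f, g} : Finset (Finset V)) := by simp
  have hg : g ∈ ({f, g} : Finset (Finset V)) := by simp
  have hf3 := h.three f hf
  have hg3 := h.three g hg
  have hsub : f ∪ g ⊆ S := Finset.union_subset (h.sub f hf) (h.sub g hg)
  have hS : S.card = 5 := by
    have := h.card
    omega
  have hU : (f ∪ g).card ≤ 5 := by
    have := Finset.card_le_card hsub
    omega
  have hI := Finset.card_union_add_card_inter f g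
  have hpos : 0 < (f ∩ g).card := by omega
  obtain ⟨c, hc⟩ := Finset.card_pos.mp hpos
  rw [Finset.mem_inter] at hc
  refine ⟨c, fun k hk => ?_⟩
  rw [Finset.mem_insert, Finset.mem_singleton] at hk
  rcases hk with rfl | rfl
  · exact hc.1
  · exact hc.2

private theorem paschc_two (R : Finset α → Prop) (S : Finset V) (E : Finset (Finset V))
    (h : IsTr S E) (hE : E.card = 2) (W : Finset α) (hW : W.card = 6) :
    Pasch R W ∨ HasRed R S E W := by
  obtain ⟨c, hc⟩ := paschc_center h hE
  rcases two_edges R W hW with hP | ⟨c', hc', hM⟩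
  · exact Or.inl hP
  · exact Or.inr (star_embed R W 2 (by norm_num) S E h hE c hc c' hc' hM)

/-- in a tree with three edges some vertex misses at most one edge -/
private theorem paschc_three {S : Finset V} {E : Finset (Finset V)} (h : IsTr S E)
    (hE : E.card = 3) : ∃ c : V, (E.filter (fun f => c ∉ f)).card ≤ 1 := by
  have hne : E.Nonempty := Finset.card_pos.mp (by omega)
  obtain ⟨f, u, x, y, hl⟩ := h.toIsAc.exists_leaf hne
  obtain ⟨g, hg, hgf, hug⟩ := h.leaf_other (by omega) hl
  refine ⟨u, ?_⟩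
  have huf : u ∈ f := by
    rw [hl.eq]
    simp
  have hsub : E.filter (fun k => u ∉ k) ⊆ (E.erase f).erase g := by
    intro k hk
    rw [Finset.mem_filter] at hk
    rw [Finset.mem_erase, Finset.mem_erase]
    refine ⟨?_, ?_, hk.1⟩
    · rintro rfl
      exact hk.2 hug
    · rintro rfl
      exact hk.2 huf
  have hcard := Finset.card_le_card hsub
  have h1 : (E.erase f).card = 2 := by
    rw [Finset.card_erase_of_mem hl.mem]
    omega
  have h2 : ((E.erase f).erase g).card = 1 := by
    rw [Finset.card_erase_of_mem (Finset.mem_erase.mpr ⟨hgf, hg⟩)]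
    omega
  omega

/-- the step with two leaf edges -/
private theorem paschc_step (R : Finset α → Prop) (S : Finset V) (E : Finset (Finset V))
    (h : IsTr S E) (h4 : 4 ≤ E.card) {f₁ f₂ : Finset V} {u₁ x₁ y₁ u₂ x₂ y₂ : V}
    (h₁ : Leaf E f₁ u₁ x₁ y₁) (h₂ : Leaf E f₂ u₂ x₂ y₂) (hf : f₁ ≠ f₂) (hu : u₁ ≠ u₂)
    (W : Finset α) (hW : W.card = 2 * E.card + 2)
    (ih : ∀ W' : Finset α, W'.card = 2 * (E.card - 2) + 2 →
      Pasch R W' ∨ HasRed R (S \ {x₁, y₁, x₂, y₂}) ((E.erase f₁).erase f₂) W') :
    Pasch R W ∨ HasRed R S E W := by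
  obtain ⟨hT, hu1, hu2, hnd⟩ := remove_two h h₁ h₂ hf
  by_cases hP : Pasch R W
  · exact Or.inl hP
  by_cases hR : HasRed R S E W
  · exact Or.inr hR
  exfalso
  apply hP
  refine main_near R W (by omega) ?_
  intro Q hQ hQ4
  have hWQ : (W \ Q).card = 2 * (E.card - 2) + 2 := by
    rw [Finset.card_sdiff_of_subset hQ]
    omega
  have hsubWQ : W \ Q ⊆ W := Finset.sdiff_subset
  rcases ih (W \ Q) hWQ with hP' | ⟨φ, hinj, hφW, hφR⟩
  · exact absurd (hP'.mono hsubWQ) hP
  · set S'' := S \ {x₁, y₁, x₂, y₂} with hS''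
    set E'' := (E.erase f₁).erase f₂ with hE''
    have hcopy : IsCopy R S'' E'' W φ := ⟨hinj, fun v hv => hsubWQ (hφW v hv), hφR⟩
    have hEcard : E''.card = E.card - 2 := by
      have h1 : (E.erase f₁).card = E.card - 1 := Finset.card_erase_of_mem h₁.mem
      have h2 : E''.card = (E.erase f₁).card - 1 :=
        Finset.card_erase_of_mem (Finset.mem_erase.mpr ⟨fun hh => hf hh.symm, h₂.mem⟩)
      omega
    have hScard : S''.card = 2 * (E.card - 2) + 1 := by
      rw [hT.card, hEcard]
    have hIcard : (S''.image φ).card = 2 * (E.card - 2) + 1 := by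
      rw [Finset.card_image_of_injOn hinj, hScard]
    have hIsub : S''.image φ ⊆ W \ Q := by
      intro a ha
      rw [Finset.mem_image] at ha
      obtain ⟨v, hv, rfl⟩ := ha
      exact hφW v hv
    set P := W \ S''.image φ with hPdef
    have hPW : P ⊆ W := Finset.sdiff_subset
    have hPcard : P.card = 5 := by
      rw [hPdef, Finset.card_sdiff_of_subset (hIsub.trans hsubWQ)]
      omega
    have hQP : Q ⊆ P := by
      intro a ha
      rw [hPdef, Finset.mem_sdiff]
      refine ⟨hQ ha, fun ha' => ?_⟩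
      exact (Finset.mem_sdiff.mp (hIsub ha')).2 ha
    have hPQ : (P \ Q).card = 1 := by
      rw [Finset.card_sdiff_of_subset hQP]
      omega
    obtain ⟨z, hz⟩ := Finset.card_eq_one.mp hPQ
    have hzP : z ∈ P \ Q := by
      rw [hz]
      simp
    have hzPP := (Finset.mem_sdiff.mp hzP).1
    have hzQ := (Finset.mem_sdiff.mp hzP).2
    have hins : insert z Q = P := by
      ext a
      rw [Finset.mem_insert]
      constructor
      · rintro (rfl | ha)
        · exact hzPP
        · exact hQP ha
      · intro ha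
        by_cases haQ : a ∈ Q
        · exact Or.inr haQ
        · left
          have : a ∈ P \ Q := Finset.mem_sdiff.mpr ⟨ha, haQ⟩
          rw [hz, Finset.mem_singleton] at this
          exact this
    have hvI : φ u₁ ∈ S''.image φ := Finset.mem_image_of_mem φ hu1
    have hwI : φ u₂ ∈ S''.image φ := Finset.mem_image_of_mem φ hu2
    have hvWQ := hIsub hvI
    have hwWQ := hIsub hwI
    have hvP : φ u₁ ∈ W \ P := by
      rw [Finset.mem_sdiff]
      exact ⟨hsubWQ hvWQ, fun hh => (Finset.mem_sdiff.mp hh).2 hvI⟩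
    have hwP : φ u₂ ∈ W \ P := by
      rw [Finset.mem_sdiff]
      exact ⟨hsubWQ hwWQ, fun hh => (Finset.mem_sdiff.mp hh).2 hwI⟩
    have hvw : φ u₁ ≠ φ u₂ := fun hh => hu (hinj hu1 hu2 hh)
    have hx : ∀ x ∈ P, ∀ y ∈ P, ∀ x' ∈ P, ∀ y' ∈ P, [x, y, x', y'].Nodup → R {φ u₁, x, y} →
        ¬ R {φ u₂, x', y'} := by
      intro x hx y hy x' hx' y' hy' hnd' hR1 hR2
      exact hR (extend_two R W h h₁ h₂ hf φ hcopy x y x' y' hx hy hx' hy' hnd' hR1 hR2)
    have hzWQ : z ∈ W \ Q := Finset.mem_sdiff.mpr ⟨hPW hzPP, hzQ⟩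
    have hzI : z ∉ S''.image φ := (Finset.mem_sdiff.mp hzPP).2
    rcases five R W P hPW hPcard (φ u₁) (φ u₂) hvP hwP hvw hx with hN | hN | hN
    · refine ⟨φ u₁, hvWQ, z, hzWQ, ?_, ?_⟩
      · rintro rfl
        exact hzI hvI
      · rw [hins]
        exact hN
    · refine ⟨φ u₂, hwWQ, z, hzWQ, ?_, ?_⟩
      · rintro rfl
        exact hzI hwI
      · rw [hins]
        exact hN
    · exact absurd hN hP

/-- every tree with `e ≥ 2` edges which has two edges or is not a star is `Pasch`-good -/
theorem pasch_claim (R : Finset α → Prop) (e : ℕ) : ∀ (S : Finset V) (E : Finset (Finset V)),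
    IsTr S E → E.card = e → 2 ≤ e → (e = 2 ∨ NonStar E) → ∀ W : Finset α, W.card = 2 * e + 2 →
    Pasch R W ∨ HasRed R S E W := by
  induction e using Nat.strong_induction_on with
  | _ e ih =>
    intro S E h hE h2 hor W hW
    by_cases he2 : e = 2
    · subst he2
      exact paschc_two R S E h hE W (by omega)
    have hns : NonStar E := by
      rcases hor with h' | h'
      · exact absurd h' he2
      · exact h'
    by_cases hc : ∃ c : V, (E.filter (fun f => c ∉ f)).card ≤ 1
    · obtain ⟨c, hc⟩ := hc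
      have hc1 : (E.filter (fun f => c ∉ f)).card = 1 := by
        have hpos : 0 < (E.filter (fun f => c ∉ f)).card := by
          obtain ⟨f, hf, hcf⟩ := hns c
          exact Finset.card_pos.mpr ⟨f, Finset.mem_filter.mpr ⟨hf, hcf⟩⟩
        omega
      rcases broom_pasch R W (e - 1) (by omega) (by omega) with hP | hB
      · exact Or.inl hP
      · exact Or.inr (broom_embed R W (e - 1) (by omega) S E h (by omega) c hc1 hB)
    · have hc' : ∀ c : V, 2 ≤ (E.filter (fun f => c ∉ f)).card := by
        intro c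
        by_contra hlt
        exact hc ⟨c, by omega⟩
      have he3 : e ≠ 3 := by
        rintro rfl
        exact hc (paschc_three h hE)
      have he4 : 4 ≤ E.card := by omega
      obtain ⟨f₁, u₁, x₁, y₁, f₂, u₂, x₂, y₂, h₁, h₂, hf, hu, hor'⟩ := good_split h he4 hc'
      refine paschc_step R S E h he4 h₁ h₂ hf hu W (by omega) ?_
      intro W' hW'
      obtain ⟨hT, -, -, -⟩ := remove_two h h₁ h₂ hf
      have h1 : (E.erase f₁).card = E.card - 1 := Finset.card_erase_of_mem h₁.mem
      have h2' : ((E.erase f₁).erase f₂).card = (E.erase f₁).card - 1 :=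
        Finset.card_erase_of_mem (Finset.mem_erase.mpr ⟨fun hh => hf hh.symm, h₂.mem⟩)
      refine ih (e - 2) (by omega) _ _ hT (by omega) (by omega) ?_ W' (by omega)
      rcases hor' with h' | h'
      · left
        omega
      · exact Or.inr h'

end Pool.MP7783b9
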