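import Pool.Agent.H.MP_7783b9_co.StarL

/-!
# Stars are Fano-good
-/

set_option autoImplicit false

open Finset

namespace Pool.MP7783b9

variable {α : Type*} [DecidableEq α]

/-- a transversal of prescribed size -/
theorem starg_transversal (O : Finset α) (p : α → ℕ) (n : ℕ) (hn : n ≤ (O.image p).card) :
    ∃ W ⊆ O, W.card = n ∧ ∀ x ∈ W, ∀ y ∈ W, x ≠ y → p x ≠ p y := by
  obtain ⟨T, hT, hTc⟩ := Finset.exists_subset_card_eq hn
  have h1 : ∀ t ∈ T, ∃ x ∈ O, p x = t := fun t ht => Finset.mem_image.1 (hT ht)
  rcases T.eq_empty_or_nonempty with rfl | ⟨t0, ht0⟩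
  · exact ⟨∅, by simp, by simpa using hTc, by simp⟩
  · obtain ⟨x0, -, -⟩ := h1 t0 ht0
    have : Nonempty α := ⟨x0⟩
    choose! f hf hpf using h1
    refine ⟨T.image f, ?_, ?_, ?_⟩
    · intro x hx
      obtain ⟨t, ht, rfl⟩ := Finset.mem_image.1 hx
      exact hf t ht
    · rw [Finset.card_image_of_injOn, hTc]
      intro a ha b hb hab
      have h2 := hpf a ha
      have h3 := hpf b hb
      rw [← h2, ← h3, hab]
    · intro x hx y hy hxy
      obtain ⟨t, ht, rfl⟩ := Finset.mem_image.1 hx
      obtain ⟨t', ht', rfl⟩ := Finset.mem_image.1 hy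
      rw [hpf t ht, hpf t' ht']
      rintro rfl
      exact hxy rfl

/-- a digraph without out-degree three in which every pair is joined has at most five points -/
theorem starg_count (W : Finset α) (r : α → α → Prop)
    (h : ∀ u ∈ W, ∀ w ∈ W, u ≠ w → r u w ∨ r w u)
    (hout : ∀ u ∈ W, ∃ D : Finset α, D.card ≤ 2 ∧ ∀ w ∈ W, u ≠ w → r u w → w ∈ D) :
    W.card ≤ 5 := by
  classical
  let q : α → α → Prop := fun u w => u ≠ w ∧ r u w
  have e1 : ∑ a ∈ W, (W.bipartiteAbove q a).card = ∑ b ∈ W, (W.bipartiteBelow q b).card :=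
    Finset.sum_card_bipartiteAbove_eq_sum_card_bipartiteBelow q
  have e2 : ∑ a ∈ W, (W.bipartiteAbove q a).card ≤ ∑ a ∈ W, 2 := by
    refine Finset.sum_le_sum fun u hu => ?_
    obtain ⟨D, hD, hD2⟩ := hout u hu
    refine (Finset.card_le_card ?_).trans hD
    intro w hw
    have hw' := Finset.mem_filter.1 hw
    exact hD2 w hw'.1 hw'.2.1 hw'.2.2
  have e3 : ∑ a ∈ W, (W.card - 1) ≤
      ∑ a ∈ W, ((W.bipartiteAbove q a).card + (W.bipartiteBelow q a).card) := by
    refine Finset.sum_le_sum fun u hu => ?_
    rw [← Finset.card_erase_of_mem hu]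
    refine (Finset.card_le_card ?_).trans (Finset.card_union_le _ _)
    intro w hw
    have hw' := Finset.mem_erase.1 hw
    rcases h u hu w hw'.2 hw'.1.symm with h1 | h1
    · exact Finset.mem_union_left _ (Finset.mem_filter.2 ⟨hw'.2, hw'.1.symm, h1⟩)
    · exact Finset.mem_union_right _ (Finset.mem_filter.2 ⟨hw'.2, hw'.1, h1⟩)
  rw [Finset.sum_add_distrib, ← e1] at e3
  simp only [Finset.sum_const, smul_eq_mul] at e2 e3
  by_contra hc
  push Not at hc
  have h5 : W.card * 5 ≤ W.card * (W.card - 1) := Nat.mul_le_mul_left _ (by omega)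
  omega

theorem star_good (R : Finset α → Prop) (U : Finset α) (e : ℕ) (he : 3 ≤ e)
    (hU : U.card = 4 * e + 1) (h : ∀ c ∈ U, ¬ Mat (link R c) (U.erase c) e) :
    ∃ p ∈ U, ∃ W ⊆ U.erase p, (∀ x ∈ W, ∀ y ∈ W, x ≠ y → ¬ R {p, x, y}) ∧ Pasch R W := by
  have hb : ∀ c ∈ U, ∃ A ⊆ U.erase c, ∃ comp : α → ℕ,
      (∀ x ∈ U.erase c \ A, ∀ y ∈ U.erase c \ A, comp x ≠ comp y → ¬ link R c x y) ∧
      A.card + 2 * e + 2 ≤ ((U.erase c \ A).image comp).card := by
    intro c hc
    refine barrier (link R c) (link_symm R c) (U.erase c) e (2 * e) (by omega) ?_ (h c hc)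
    rw [Finset.card_erase_of_mem hc]; omega
  choose! A hA comp hcomp hcard using hb
  have hO : ∀ c ∈ U, (U.erase c \ A c).card + (A c).card = 4 * e := by
    intro c hc
    rw [Finset.card_sdiff_add_card_eq_card (hA c hc), Finset.card_erase_of_mem hc]
    omega
  have hs : ∀ c ∈ U, (A c).card + 1 ≤ e := by
    intro c hc
    have h1 := hcard c hc
    have h2 := hO c hc
    have h3 : ((U.erase c \ A c).image (comp c)).card ≤ (U.erase c \ A c).card :=
      Finset.card_image_le
    omega
  have hclass : ∀ c ∈ U, ∀ z ∈ U.erase c \ A c,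
      ((U.erase c \ A c).filter (fun x => comp c x = comp c z)).card + 2 * (A c).card + 1 ≤
        2 * e := by
    intro c hc z hz
    have h1 := class_card (U.erase c \ A c) (comp c) z hz
    have h2 := hcard c hc
    have h3 := hO c hc
    omega
  have hUne : U.Nonempty := Finset.card_pos.1 (by omega)
  obtain ⟨p, hp, hmax⟩ := Finset.exists_max_image U (fun c => (A c).card) hUne
  have hsp := hs p hp
  obtain ⟨W, hWO, hWc, hWinj⟩ := starg_transversal (U.erase p \ A p) (comp p)
    (2 * e + 2 + (A p).card) (by have := hcard p hp; omega)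
  have hWU : W ⊆ U.erase p := hWO.trans Finset.sdiff_subset
  have hWU' : ∀ x ∈ W, x ∈ U := fun x hx => Finset.mem_of_mem_erase (hWU hx)
  refine ⟨p, hp, W, hWU, ?_, ?_⟩
  · intro x hx y hy hxy
    exact hcomp p hp x (hWO hx) y (hWO hy) (hWinj x hx y hy hxy)
  by_contra hP
  -- the sets `Z u w`
  let Z : α → α → Finset α := fun u w =>
    W.filter (fun x => x ≠ u ∧ x ≠ w ∧ x ∉ A u ∧ x ∉ A w)
  have hZsymm : ∀ u w, Z u w = Z w u := by
    intro u w
    refine Finset.filter_congr fun x _ => ?_
    tauto
  have hZu : ∀ u w, Z u w ⊆ U.erase u \ A u := by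
    intro u w x hx
    have h1 := Finset.mem_filter.1 hx
    exact Finset.mem_sdiff.2 ⟨Finset.mem_erase.2 ⟨h1.2.1, hWU' x h1.1⟩, h1.2.2.2.1⟩
  have hZc : ∀ u w, 2 * e + (A p).card ≤ (Z u w).card + (A u).card + (A w).card := by
    intro u w
    have h1 : W ⊆ Z u w ∪ (({u, w} : Finset α) ∪ (A u ∪ A w)) := by
      intro x hx
      by_cases h2 : x ∈ Z u w
      · exact Finset.mem_union_left _ h2
      · refine Finset.mem_union_right _ ?_
        have h3 : ¬ (x ≠ u ∧ x ≠ w ∧ x ∉ A u ∧ x ∉ A w) := fun h4 =>
          h2 (Finset.mem_filter.2 ⟨hx, h4⟩)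
        simp only [Finset.mem_union, Finset.mem_insert, Finset.mem_singleton]
        tauto
    have h2 := Finset.card_le_card h1
    have h3 := Finset.card_union_le (Z u w) (({u, w} : Finset α) ∪ (A u ∪ A w))
    have h4 := Finset.card_union_le ({u, w} : Finset α) (A u ∪ A w)
    have h5 := Finset.card_union_le (A u) (A w)
    have h6 : ({u, w} : Finset α).card ≤ 2 := Finset.card_le_two
    omega
  let r : α → α → Prop := fun u w =>
    ∃ z ∈ Z u w, (Z u w).card ≤ ((Z u w).filter (fun x => comp u x = comp u z)).card + 1
  have hpair : ∀ u ∈ W, ∀ w ∈ W, u ≠ w → r u w ∨ r w u := by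
    intro u hu w hw huw
    have hnu : u ∉ Z u w := fun hx => (Finset.mem_filter.1 hx).2.1 rfl
    have hnw : w ∉ Z u w := fun hx => (Finset.mem_filter.1 hx).2.2.1 rfl
    have hsu := hs u (hWU' u hu)
    have hsw := hs w (hWU' w hw)
    have hmu := hmax u (hWU' u hu)
    have hmw := hmax w (hWU' w hw)
    have hZc' := hZc u w
    have hZw : Z u w ⊆ U.erase w \ A w := by rw [hZsymm u w]; exact hZu w u
    rcases pair_step R W u w hu hw huw (comp u) (comp w) (Z u w)
      (Finset.filter_subset _ _) hnu hnw (by omega)
      (fun x hx y hy hxy => hcomp u (hWU' u hu) x (hZu u w hx) y (hZu u w hy) hxy)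
      (fun x hx y hy hxy => hcomp w (hWU' w hw) x (hZw hx) y (hZw hy) hxy)
      with h1 | h1 | h1
    · exact absurd h1 hP
    · exact Or.inl h1
    · right
      change ∃ z ∈ Z w u, (Z w u).card ≤
        ((Z w u).filter (fun x => comp w x = comp w z)).card + 1
      rw [hZsymm w u]
      exact h1
  -- consequences of an arrow
  have hcl : ∀ u ∈ W, ∀ w, ∀ z ∈ Z u w,
      ((Z u w).filter (fun x => comp u x = comp u z)).card + 2 * (A u).card + 1 ≤ 2 * e := by
    intro u hu w z hz
    have h1 := hclass u (hWU' u hu) z (hZu u w hz)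
    have h2 : ((Z u w).filter (fun x => comp u x = comp u z)).card ≤
        ((U.erase u \ A u).filter (fun x => comp u x = comp u z)).card :=
      Finset.card_le_card (Finset.filter_subset_filter _ (hZu u w))
    omega
  have harr : ∀ u ∈ W, ∀ w ∈ W, r u w → (A u).card = 0 ∧ (A w).card = (A p).card := by
    intro u hu w hw ⟨z, hz, hzc⟩
    have h1 := hcl u hu w z hz
    have h2 := hZc u w
    have h3 := hmax u (hWU' u hu)
    have h4 := hmax w (hWU' w hw)
    omega
  rcases Nat.eq_zero_or_pos (A p).card with hs0 | hs1
  · -- all barriers are empty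
    have hA0 : ∀ c ∈ U, A c = ∅ := by
      intro c hc
      have := hmax c hc
      exact Finset.card_eq_zero.1 (by omega)
    have hW5 := starg_count W r hpair (fun u hu => by
      by_cases hex : ∃ w0 ∈ W, u ≠ w0 ∧ r u w0
      · obtain ⟨w0, hw0, huw0, z0, hz0, hzc0⟩ := hex
        refine ⟨(W.erase u).filter (fun x => ¬ comp u x = comp u z0), ?_, ?_⟩
        · have h1 := Finset.card_filter_add_card_filter_not (s := W.erase u)
            (fun x => comp u x = comp u z0)
          have h2 : ((Z u w0).filter (fun x => comp u x = comp u z0)).card ≤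
              ((W.erase u).filter (fun x => comp u x = comp u z0)).card := by
            refine Finset.card_le_card (Finset.filter_subset_filter _ ?_)
            intro x hx
            have h3 := Finset.mem_filter.1 hx
            exact Finset.mem_erase.2 ⟨h3.2.1, h3.1⟩
          rw [Finset.card_erase_of_mem hu] at h1
          have h4 := hZc u w0
          rw [hA0 u (hWU' u hu), hA0 w0 (hWU' w0 hw0)] at h4
          simp only [Finset.card_empty] at h4
          omega
        · rintro w hw huw ⟨z, hz, hzc⟩
          have hwA : w ∉ A u := by rw [hA0 u (hWU' u hu)]; exact Finset.notMem_empty _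
          have hZZ : ∀ w', Z u w' ⊆ W.erase u := by
            intro w' x hx
            have h3 := Finset.mem_filter.1 hx
            exact Finset.mem_erase.2 ⟨h3.2.1, h3.1⟩
          have hcW : ∀ z' ∈ U.erase u \ A u,
              ((W.erase u).filter (fun x => comp u x = comp u z')).card + 1 ≤ 2 * e := by
            intro z' hz'
            have h1 := hclass u (hWU' u hu) z' hz'
            have h2 : ((W.erase u).filter (fun x => comp u x = comp u z')).card ≤
                ((U.erase u \ A u).filter (fun x => comp u x = comp u z')).card := by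
              refine Finset.card_le_card (Finset.filter_subset_filter _ ?_)
              intro x hx
              have h3 := Finset.mem_erase.1 hx
              refine Finset.mem_sdiff.2 ⟨Finset.mem_erase.2 ⟨h3.1, hWU' x h3.2⟩, ?_⟩
              rw [hA0 u (hWU' u hu)]; exact Finset.notMem_empty _
            omega
          have h4 := hZc u w
          rw [hA0 u (hWU' u hu), hA0 w (hWU' w hw)] at h4
          have h4' := hZc u w0
          rw [hA0 u (hWU' u hu), hA0 w0 (hWU' w0 hw0)] at h4'
          simp only [Finset.card_empty] at h4 h4'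
          have hWe : (W.erase u).card = 2 * e + 1 := by
            rw [Finset.card_erase_of_mem hu]; omega
          -- the two classes agree
          have hsame : comp u z = comp u z0 := by
            by_contra hne
            have hdis : Disjoint ((Z u w).filter (fun x => comp u x = comp u z))
                ((Z u w0).filter (fun x => comp u x = comp u z0)) := by
              rw [Finset.disjoint_left]
              intro x hx hx'
              exact hne ((Finset.mem_filter.1 hx).2.symm.trans (Finset.mem_filter.1 hx').2)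
            have h5 : ((Z u w).filter (fun x => comp u x = comp u z) ∪
                (Z u w0).filter (fun x => comp u x = comp u z0)).card ≤ (W.erase u).card := by
              refine Finset.card_le_card (Finset.union_subset ?_ ?_)
              · exact (Finset.filter_subset _ _).trans (hZZ w)
              · exact (Finset.filter_subset _ _).trans (hZZ w0)
            rw [Finset.card_union_of_disjoint hdis] at h5
            omega
          refine Finset.mem_filter.2 ⟨Finset.mem_erase.2 ⟨huw.symm, hw⟩, ?_⟩
          intro hwc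
          have h6 : insert w ((Z u w).filter (fun x => comp u x = comp u z)) ⊆
              (W.erase u).filter (fun x => comp u x = comp u z) := by
            intro x hx
            rcases Finset.mem_insert.1 hx with rfl | hx
            · exact Finset.mem_filter.2 ⟨Finset.mem_erase.2 ⟨huw.symm, hw⟩, hwc.trans hsame.symm⟩
            · have h7 := Finset.mem_filter.1 hx
              exact Finset.mem_filter.2 ⟨hZZ w h7.1, h7.2⟩
          have h7 := Finset.card_le_card h6
          have h8 : w ∉ (Z u w).filter (fun x => comp u x = comp u z) := fun hx =>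
            (Finset.mem_filter.1 (Finset.mem_filter.1 hx).1).2.2.1 rfl
          rw [Finset.card_insert_of_notMem h8] at h7
          have h9 := hcW z (hZu u w hz)
          omega
      · refine ⟨∅, by simp, fun w hw huw hr => ?_⟩
        exact absurd ⟨w, hw, huw, hr⟩ hex)
    omega
  · -- three elements of `W`
    obtain ⟨x, hx, y, hy, z, hz, hxy, hxz, hyz⟩ := Finset.two_lt_card.1
      (show 2 < W.card by omega)
    have key : ∀ u ∈ W, ∀ w ∈ W, u ≠ w →
        ((A u).card = 0 ∧ (A w).card = (A p).card) ∨
          ((A w).card = 0 ∧ (A u).card = (A p).card) := by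
      intro u hu w hw huw
      rcases hpair u hu w hw huw with h1 | h1
      · exact Or.inl (harr u hu w hw h1)
      · exact Or.inr (harr w hw u hu h1)
    have k1 := key x hx y hy hxy
    have k2 := key x hx z hz hxz
    have k3 := key y hy z hz hyz
    omega

end Pool.MP7783b9
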