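import Pool.Agent.H.MP_7783b9_co.Barrier
import Pool.Agent.H.MP_7783b9_co.PairL

/-!
# Stars versus the Pasch configuration
-/

set_option autoImplicit false

open Finset

namespace Pool.MP7783b9

variable {α : Type*} [DecidableEq α]

/-- the common step: two vertices `u`, `w`, two partitions of `Z` whose cross pairs are blue -/
theorem pair_step (R : Finset α → Prop) (W : Finset α) (u w : α) (hu : u ∈ W) (hw : w ∈ W)
    (huw : u ≠ w) (p q : α → ℕ) (Z : Finset α) (hZ : Z ⊆ W)
    (hZu : u ∉ Z) (hZw : w ∉ Z) (h4 : 4 ≤ Z.card)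
    (hp : ∀ x ∈ Z, ∀ y ∈ Z, p x ≠ p y → ¬ R {u, x, y})
    (hq : ∀ x ∈ Z, ∀ y ∈ Z, q x ≠ q y → ¬ R {w, x, y}) :
    Pasch R W ∨ (∃ z ∈ Z, Z.card ≤ (Z.filter (fun x => p x = p z)).card + 1) ∨
      (∃ z ∈ Z, Z.card ≤ (Z.filter (fun x => q x = q z)).card + 1) := by
  by_cases h1 : ∀ z ∈ Z, 2 ≤ (Z.filter (fun x => p x ≠ p z)).card
  · by_cases h2 : ∀ z ∈ Z, 2 ≤ (Z.filter (fun x => q x ≠ q z)).card
    · obtain ⟨a, b, c, d, ha, hb, hc, hd, hnd, hab, hcd, hbc, hda⟩ :=
        pair_lemma p q Z h4 h1 h2
      left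
      refine ⟨u, w, a, b, c, d, hu, hw, hZ ha, hZ hb, hZ hc, hZ hd, ?_,
        hp a ha b hb hab, hp c hc d hd hcd, hq b hb c hc hbc, hq d hd a ha hda⟩
      have hua : u ≠ a := fun h => hZu (h ▸ ha)
      have hub : u ≠ b := fun h => hZu (h ▸ hb)
      have huc : u ≠ c := fun h => hZu (h ▸ hc)
      have hud : u ≠ d := fun h => hZu (h ▸ hd)
      have hwa : w ≠ a := fun h => hZw (h ▸ ha)
      have hwb : w ≠ b := fun h => hZw (h ▸ hb)
      have hwc : w ≠ c := fun h => hZw (h ▸ hc)
      have hwd : w ≠ d := fun h => hZw (h ▸ hd)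
      simp only [List.nodup_cons, List.mem_cons, List.not_mem_nil, or_false, not_or,
        not_false_eq_true, List.nodup_nil, and_true] at hnd ⊢
      exact ⟨⟨huw, hua, hub, huc, hud⟩, ⟨hwa, hwb, hwc, hwd⟩, hnd⟩
    · push Not at h2
      obtain ⟨z, hz, hz2⟩ := h2
      right; right
      refine ⟨z, hz, ?_⟩
      have := Finset.card_filter_add_card_filter_not (s := Z) (fun x => q x = q z)
      simp only [ne_eq] at hz2
      omega
  · push Not at h1
    obtain ⟨z, hz, hz2⟩ := h1
    right; left
    refine ⟨z, hz, ?_⟩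
    have := Finset.card_filter_add_card_filter_not (s := Z) (fun x => p x = p z)
    simp only [ne_eq] at hz2
    omega

/-- size of a class when the number of classes is known -/
theorem class_card (O : Finset α) (p : α → ℕ) (z : α) (hz : z ∈ O) :
    (O.filter (fun x => p x = p z)).card + (O.image p).card ≤ O.card + 1 := by
  have h1 : O.image p ⊆ insert (p z) ((O.filter (fun x => ¬ p x = p z)).image p) := by
    intro t ht
    obtain ⟨x, hx, rfl⟩ := Finset.mem_image.1 ht
    by_cases h : p x = p z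
    · rw [h]; exact Finset.mem_insert_self _ _
    · exact Finset.mem_insert_of_mem (Finset.mem_image_of_mem p (Finset.mem_filter.2 ⟨hx, h⟩))
  have h2 : (O.image p).card ≤ (O.filter (fun x => ¬ p x = p z)).card + 1 := by
    refine (Finset.card_le_card h1).trans ((Finset.card_insert_le _ _).trans ?_)
    exact Nat.add_le_add_right Finset.card_image_le 1
  have := Finset.card_filter_add_card_filter_not (s := O) (fun x => p x = p z)
  omega

theorem star_lemma (R : Finset α → Prop) (W : Finset α) (k : ℕ) (hk : 1 ≤ k)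
    (hW : W.card = 2 * k + 4) (h : ∀ c ∈ W, ¬ Mat (link R c) (W.erase c) k) : Pasch R W := by
  have hb : ∀ c ∈ W, ∃ A ⊆ W.erase c, ∃ comp : α → ℕ,
      (∀ x ∈ W.erase c \ A, ∀ y ∈ W.erase c \ A, comp x ≠ comp y → ¬ link R c x y) ∧
      A.card + 3 + 2 ≤ ((W.erase c \ A).image comp).card := by
    intro c hc
    refine barrier (link R c) (link_symm R c) (W.erase c) k 3 (by norm_num) ?_ (h c hc)
    rw [Finset.card_erase_of_mem hc]; omega
  choose! A hA comp hcomp hcard using hb
  have hO : ∀ c ∈ W, (W.erase c \ A c).card + (A c).card = 2 * k + 3 := by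
    intro c hc
    rw [Finset.card_sdiff_add_card_eq_card (hA c hc), Finset.card_erase_of_mem hc]
    omega
  have hlt : ∀ c ∈ W, (A c).card ∈ Finset.range k := by
    intro c hc
    have h1 := hcard c hc
    have h2 := hO c hc
    have h3 : ((W.erase c \ A c).image (comp c)).card ≤ (W.erase c \ A c).card :=
      Finset.card_image_le
    rw [Finset.mem_range]
    omega
  obtain ⟨u, hu, w, hw, huw, hf⟩ :=
    Finset.exists_ne_map_eq_of_card_lt_of_maps_to
      (s := W) (t := Finset.range k) (by rw [Finset.card_range]; omega) (f := fun c => (A c).card)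
      (fun c hc => hlt c hc)
  have hf' : (A u).card = (A w).card := hf
  have hlu := Finset.mem_range.1 (hlt u hu)
  set Z : Finset α := ((W.erase u).erase w) \ (A u ∪ A w) with hZdef
  have hZW : Z ⊆ W := fun x hx =>
    Finset.mem_of_mem_erase (Finset.mem_of_mem_erase (Finset.mem_sdiff.1 hx).1)
  have hZu : Z ⊆ W.erase u \ A u := by
    intro x hx
    have h1 := Finset.mem_sdiff.1 hx
    exact Finset.mem_sdiff.2 ⟨Finset.mem_of_mem_erase h1.1,
      fun h2 => h1.2 (Finset.mem_union_left _ h2)⟩
  have hZw : Z ⊆ W.erase w \ A w := by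
    intro x hx
    have h1 := Finset.mem_sdiff.1 hx
    have h2 := Finset.mem_erase.1 h1.1
    exact Finset.mem_sdiff.2 ⟨Finset.mem_erase.2 ⟨h2.1, Finset.mem_of_mem_erase h2.2⟩,
      fun h3 => h1.2 (Finset.mem_union_right _ h3)⟩
  have hZc : 2 * k + 2 ≤ Z.card + 2 * (A u).card := by
    have h1 : ((W.erase u).erase w).card = 2 * k + 2 := by
      rw [Finset.card_erase_of_mem (Finset.mem_erase.2 ⟨huw.symm, hw⟩),
        Finset.card_erase_of_mem hu]
      omega
    have h2 : ((W.erase u).erase w).card ≤ Z.card + (A u ∪ A w).card := by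
      rw [hZdef]
      exact Nat.le_add_of_sub_le (Finset.le_card_sdiff _ _)
    have h3 := Finset.card_union_le (A u) (A w)
    omega
  have hnu : u ∉ Z := fun hx =>
    (Finset.mem_erase.1 (Finset.mem_sdiff.1 (hZu hx)).1).1 rfl
  have hnw : w ∉ Z := fun hx =>
    (Finset.mem_erase.1 (Finset.mem_sdiff.1 (hZw hx)).1).1 rfl
  rcases pair_step R W u w hu hw huw (comp u) (comp w) Z hZW hnu hnw (by omega)
    (fun x hx y hy hxy => hcomp u hu x (hZu hx) y (hZu hy) hxy)
    (fun x hx y hy hxy => hcomp w hw x (hZw hx) y (hZw hy) hxy) with hP | ⟨z, hz, hc⟩ | ⟨z, hz, hc⟩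
  · exact hP
  · exfalso
    have h1 := class_card (W.erase u \ A u) (comp u) z (hZu hz)
    have h2 : (Z.filter (fun x => comp u x = comp u z)).card ≤
        ((W.erase u \ A u).filter (fun x => comp u x = comp u z)).card :=
      Finset.card_le_card (Finset.filter_subset_filter _ hZu)
    have h3 := hcard u hu
    have h4 := hO u hu
    omega
  · exfalso
    have h1 := class_card (W.erase w \ A w) (comp w) z (hZw hz)
    have h2 : (Z.filter (fun x => comp w x = comp w z)).card ≤
        ((W.erase w \ A w).filter (fun x => comp w x = comp w z)).card :=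
      Finset.card_le_card (Finset.filter_subset_filter _ hZw)
    have h3 := hcard w hw
    have h4 := hO w hw
    omega

end Pool.MP7783b9
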