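import Pool.Agent.H.MP_7783b9_co.Core

/-!
# Acyclic hypergraphs: leaf edges
-/

set_option autoImplicit false

open Finset

namespace Pool.MP7783b9

variable {V : Type*} [DecidableEq V]

/-- two different edges meet in at most one vertex -/
theorem IsAc.inter_card {S : Finset V} {E : Finset (Finset V)} (h : IsAc S E) {f g : Finset V}
    (hf : f ∈ E) (hg : g ∈ E) (hfg : f ≠ g) : (f ∩ g).card ≤ 1 := by
  have h1 := h.dens {f, g} (by
    intro x hx
    simp only [Finset.mem_insert, Finset.mem_singleton] at hx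
    rcases hx with rfl | rfl
    · exact hf
    · exact hg) ⟨f, by simp⟩
  rw [Finset.card_pair hfg] at h1
  have h2 : (({f, g} : Finset (Finset V)).biUnion id) = f ∪ g := by
    simp
  rw [h2] at h1
  have h3 := Finset.card_union_add_card_inter f g
  have h4 := h.three f hf
  have h5 := h.three g hg
  omega

/-- double counting of the incidences -/
private theorem treeb_deg {E : Finset (Finset V)} (h3 : ∀ f ∈ E, f.card = 3) :
    ∑ v ∈ E.biUnion id, (E.filter (fun f => v ∈ f)).card = 3 * E.card := by
  have h1 : ∑ v ∈ E.biUnion id, (E.filter (fun f => v ∈ f)).card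
      = ∑ f ∈ E, ((E.biUnion id).filter (fun v => v ∈ f)).card := by
    have := Finset.sum_card_bipartiteAbove_eq_sum_card_bipartiteBelow
      (s := E.biUnion id) (t := E) (fun (v : V) (f : Finset V) => v ∈ f)
    simpa [Finset.bipartiteAbove, Finset.bipartiteBelow] using this
  rw [h1]
  have h2 : ∀ f ∈ E, ((E.biUnion id).filter (fun v => v ∈ f)).card = 3 := by
    intro f hf
    rw [← h3 f hf]
    congr 1
    ext v
    simp only [Finset.mem_filter, Finset.mem_biUnion, id_eq]
    constructor
    · rintro ⟨_, h⟩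
      exact h
    · intro h
      exact ⟨⟨f, hf, h⟩, h⟩
  rw [Finset.sum_congr rfl h2]
  simp [mul_comm]

/-- many vertices have degree one -/
private theorem treeb_many {S : Finset V} {E : Finset (Finset V)} (h : IsAc S E)
    (hE : E.Nonempty) :
    E.card + 2 ≤ ((E.biUnion id).filter
      (fun v => (E.filter (fun f => v ∈ f)).card = 1)).card := by
  classical
  have h1 := treeb_deg h.three
  have h2 := h.dens E (Finset.Subset.refl _) hE
  set D := E.biUnion id with hD
  have h3 : ∀ v ∈ D, 1 ≤ (E.filter (fun f => v ∈ f)).card := by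
    intro v hv
    rw [hD, Finset.mem_biUnion] at hv
    obtain ⟨f, hf, hvf⟩ := hv
    exact Finset.card_pos.mpr ⟨f, Finset.mem_filter.mpr ⟨hf, hvf⟩⟩
  have h4 : ∑ v ∈ D, 2 ≤ ∑ v ∈ D, ((E.filter (fun f => v ∈ f)).card
      + if (E.filter (fun f => v ∈ f)).card = 1 then 1 else 0) := by
    apply Finset.sum_le_sum
    intro v hv
    have := h3 v hv
    split_ifs with h5 <;> omega
  rw [Finset.sum_add_distrib, h1, ← Finset.card_filter] at h4
  simp only [Finset.sum_const, smul_eq_mul] at h4
  omega

theorem IsAc.exists_leaf {S : Finset V} {E : Finset (Finset V)} (h : IsAc S E)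
    (hE : E.Nonempty) : ∃ f u x y, Leaf E f u x y := by
  classical
  have h1 := treeb_many h hE
  set L := (E.biUnion id).filter (fun v => (E.filter (fun f => v ∈ f)).card = 1) with hL
  have hLf : ∀ v ∈ L, ∃ f ∈ E, v ∈ f ∧ ∀ g ∈ E, v ∈ g → g = f := by
    intro v hv
    rw [hL, Finset.mem_filter] at hv
    obtain ⟨f, hf⟩ := Finset.card_eq_one.mp hv.2
    have hf' : f ∈ E.filter (fun f => v ∈ f) := by
      rw [hf]
      exact Finset.mem_singleton_self f
    rw [Finset.mem_filter] at hf'
    refine ⟨f, hf'.1, hf'.2, ?_⟩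
    intro g hg hvg
    have : g ∈ E.filter (fun f => v ∈ f) := Finset.mem_filter.mpr ⟨hg, hvg⟩
    rw [hf, Finset.mem_singleton] at this
    exact this
  choose! F hF using hLf
  obtain ⟨x, hx, y, hy, hxy, hFxy⟩ := Finset.exists_ne_map_eq_of_card_lt_of_maps_to
    (s := L) (t := E) (f := F) (by omega) (fun v hv => (hF v hv).1)
  have hxf := (hF x hx).2.1
  have hyf : y ∈ F x := by
    rw [hFxy]
    exact (hF y hy).2.1
  have hfE := (hF x hx).1
  have hcard : ((F x \ {x, y}) : Finset V).card = 1 := by
    rw [Finset.card_sdiff_of_subset (by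
      intro z hz
      simp only [Finset.mem_insert, Finset.mem_singleton] at hz
      rcases hz with rfl | rfl
      · exact hxf
      · exact hyf), Finset.card_pair hxy, h.three _ hfE]
  obtain ⟨u, hu⟩ := Finset.card_eq_one.mp hcard
  have hu' : u ∈ F x \ {x, y} := by
    rw [hu]
    exact Finset.mem_singleton_self u
  simp only [Finset.mem_sdiff, Finset.mem_insert, Finset.mem_singleton, not_or] at hu'
  refine ⟨F x, u, x, y, ⟨hfE, ?_, hu'.2.1, hu'.2.2, hxy, ?_, ?_⟩⟩
  · symm
    apply Finset.eq_of_subset_of_card_le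
    · intro z hz
      simp only [Finset.mem_insert, Finset.mem_singleton] at hz
      rcases hz with rfl | rfl | rfl
      · exact hu'.1
      · exact hxf
      · exact hyf
    · rw [h.three _ hfE, Finset.card_eq_three.mpr ⟨u, x, y, hu'.2.1, hu'.2.2, hxy, rfl⟩]
  · intro g hg hgf hxg
    exact hgf ((hF x hx).2.2 g hg hxg)
  · intro g hg hgf hyg
    exact hgf (((hF y hy).2.2 g hg hyg).trans hFxy.symm)

theorem IsAc.remove {S : Finset V} {E : Finset (Finset V)} (h : IsAc S E) {f : Finset V}
    {u x y : V} (hl : Leaf E f u x y) : IsAc (S \ {x, y}) (E.erase f) ∧ u ∈ S \ {x, y} := by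
  refine ⟨⟨?_, ?_, ?_⟩, ?_⟩
  · intro g hg
    exact h.three g (Finset.mem_of_mem_erase hg)
  · intro g hg z hz
    have hgE := Finset.mem_of_mem_erase hg
    have hgf := Finset.ne_of_mem_erase hg
    simp only [Finset.mem_sdiff, Finset.mem_insert, Finset.mem_singleton, not_or]
    refine ⟨h.sub g hgE hz, ?_, ?_⟩
    · rintro rfl
      exact hl.x_notMem g hgE hgf hz
    · rintro rfl
      exact hl.y_notMem g hgE hgf hz
  · intro E' hE' hne
    exact h.dens E' (hE'.trans (Finset.erase_subset _ _)) hne
  · simp only [Finset.mem_sdiff, Finset.mem_insert, Finset.mem_singleton, not_or]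
    refine ⟨h.sub f hl.mem ?_, hl.ux, hl.uy⟩
    rw [hl.eq]
    simp

private theorem treeb_pair_sub {S : Finset V} {E : Finset (Finset V)} (h : IsAc S E)
    {f : Finset V} {u x y : V} (hl : Leaf E f u x y) : ({x, y} : Finset V) ⊆ S := by
  intro z hz
  apply h.sub f hl.mem
  rw [hl.eq]
  simp only [Finset.mem_insert, Finset.mem_singleton] at hz ⊢
  tauto

theorem IsTr.remove {S : Finset V} {E : Finset (Finset V)} (h : IsTr S E) {f : Finset V}
    {u x y : V} (hl : Leaf E f u x y) : IsTr (S \ {x, y}) (E.erase f) ∧ u ∈ S \ {x, y} := by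
  obtain ⟨h1, h2⟩ := h.toIsAc.remove hl
  refine ⟨⟨h1, ?_⟩, h2⟩
  rw [Finset.card_sdiff_of_subset (treeb_pair_sub h.toIsAc hl), Finset.card_pair hl.xy,
    Finset.card_erase_of_mem hl.mem, h.card]
  have := Finset.card_pos.mpr ⟨f, hl.mem⟩
  omega

/-- the vertex set is the union of the edges (if there are edges) -/
theorem IsTr.union_eq {S : Finset V} {E : Finset (Finset V)} (h : IsTr S E) (hE : E.Nonempty) :
    E.biUnion id = S := by
  apply Finset.eq_of_subset_of_card_le
  · intro z hz
    rw [Finset.mem_biUnion] at hz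
    obtain ⟨f, hf, hzf⟩ := hz
    exact h.sub f hf hzf
  · rw [h.card]
    exact h.dens E (Finset.Subset.refl _) hE

/-- a leaf edge of a tree with at least two edges has its attachment vertex in another edge -/
theorem IsTr.leaf_other {S : Finset V} {E : Finset (Finset V)} (h : IsTr S E)
    (h2 : 2 ≤ E.card) {f : Finset V} {u x y : V} (hl : Leaf E f u x y) :
    ∃ g ∈ E, g ≠ f ∧ u ∈ g := by
  by_contra hcon
  push Not at hcon
  have hc : (E.erase f).card = E.card - 1 := Finset.card_erase_of_mem hl.mem
  have hne : (E.erase f).Nonempty := Finset.card_pos.mp (by omega)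
  have h3 := h.dens (E.erase f) (Finset.erase_subset _ _) hne
  have hsub : (E.erase f).biUnion id ⊆ S \ f := by
    intro z hz
    rw [Finset.mem_biUnion] at hz
    obtain ⟨g, hg, hzg⟩ := hz
    have hgE := Finset.mem_of_mem_erase hg
    have hgf := Finset.ne_of_mem_erase hg
    rw [Finset.mem_sdiff]
    refine ⟨h.sub g hgE hzg, ?_⟩
    intro hzf
    rw [hl.eq] at hzf
    simp only [Finset.mem_insert, Finset.mem_singleton] at hzf
    rcases hzf with rfl | rfl | rfl
    · exact hcon g hgE hgf hzg
    · exact hl.x_notMem g hgE hgf hzg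
    · exact hl.y_notMem g hgE hgf hzg
  have h4 := Finset.card_le_card hsub
  rw [Finset.card_sdiff_of_subset (h.sub f hl.mem), h.card, h.three f hl.mem] at h4
  omega

end Pool.MP7783b9
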