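import Pool.Agent.H.MP_7783b9_co.TreeB

/-!
# Trees: two leaf edges at different vertices
-/

set_option autoImplicit false

open Finset

namespace Pool.MP7783b9

variable {V : Type*} [DecidableEq V]

private theorem trees_mono {S : Finset V} {E E' : Finset (Finset V)} (h : IsAc S E)
    (hE : E' ⊆ E) : IsAc S E' where
  three f hf := h.three f (hE hf)
  sub f hf := h.sub f (hE hf)
  dens E₁ h₁ h₂ := h.dens E₁ (h₁.trans hE) h₂

private theorem trees_inter {S : Finset V} {E : Finset (Finset V)} (h : IsAc S E)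
    {f g : Finset V} (hf : f ∈ E) (hg : g ∈ E) (hfg : f ≠ g) {a b : V} (haf : a ∈ f)
    (hag : a ∈ g) (hbf : b ∈ f) (hbg : b ∈ g) : a = b :=
  Finset.card_le_one.mp (h.inter_card hf hg hfg) a (Finset.mem_inter.mpr ⟨haf, hag⟩) b
    (Finset.mem_inter.mpr ⟨hbf, hbg⟩)

private theorem trees_u_mem {E : Finset (Finset V)} {f : Finset V} {u x y : V}
    (hl : Leaf E f u x y) : u ∈ f := by
  rw [hl.eq]; simp

private theorem trees_x_mem {E : Finset (Finset V)} {f : Finset V} {u x y : V}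
    (hl : Leaf E f u x y) : x ∈ f := by
  rw [hl.eq]; simp

private theorem trees_y_mem {E : Finset (Finset V)} {f : Finset V} {u x y : V}
    (hl : Leaf E f u x y) : y ∈ f := by
  rw [hl.eq]; simp

/-- in a star every edge is a leaf edge attached at the centre -/
private theorem trees_star_leaf {S : Finset V} {E : Finset (Finset V)} (h : IsAc S E) {c : V}
    (hc : ∀ g ∈ E, c ∈ g) {g : Finset V} (hg : g ∈ E) : ∃ a b, Leaf E g c a b := by
  have h3 : g.card = 3 := h.three g hg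
  have h2 : (g.erase c).card = 2 := by
    rw [Finset.card_erase_of_mem (hc g hg), h3]
  obtain ⟨a, b, hab, he⟩ := Finset.card_eq_two.mp h2
  have ha : a ∈ g.erase c := by rw [he]; simp
  have hb : b ∈ g.erase c := by rw [he]; simp
  have ha' := Finset.mem_erase.mp ha
  have hb' := Finset.mem_erase.mp hb
  refine ⟨a, b, ?_⟩
  refine
    { mem := hg
      eq := ?_
      ux := ha'.1.symm
      uy := hb'.1.symm
      xy := hab
      x_notMem := ?_
      y_notMem := ?_ }
  · rw [← Finset.insert_erase (hc g hg), he]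
  · intro g' hg' hne hag'
    exact ha'.1 (trees_inter h hg' hg hne hag' ha'.2 (hc g' hg') (hc g hg))
  · intro g' hg' hne hbg'
    exact hb'.1 (trees_inter h hg' hg hne hbg' hb'.2 (hc g' hg') (hc g hg))

/-- a leaf edge of `E.erase f` is a leaf edge of `E` if its private vertices are not `u` -/
private theorem trees_lift {E : Finset (Finset V)} {f : Finset V} {u x y : V}
    (hl : Leaf E f u x y) {g : Finset V} {w a b : V} (hg : Leaf (E.erase f) g w a b)
    (ha : a ≠ u) (hb : b ≠ u) : Leaf E g w a b := by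
  have hm := Finset.mem_erase.mp hg.mem
  have hxg : x ∉ g := hl.x_notMem g hm.2 hm.1
  have hyg : y ∉ g := hl.y_notMem g hm.2 hm.1
  have key : ∀ t, t ∈ g → t ≠ u → t ∉ f := by
    intro t htg htu htf
    rw [hl.eq] at htf
    simp only [Finset.mem_insert, Finset.mem_singleton] at htf
    rcases htf with h | h | h
    · exact htu h
    · exact hxg (h ▸ htg)
    · exact hyg (h ▸ htg)
  refine
    { mem := hm.2
      eq := hg.eq
      ux := hg.ux
      uy := hg.uy
      xy := hg.xy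
      x_notMem := ?_
      y_notMem := ?_ }
  · intro g' hg' hne
    by_cases hf : g' = f
    · rw [hf]; exact key a (trees_x_mem hg) ha
    · exact hg.x_notMem g' (Finset.mem_erase.mpr ⟨hf, hg'⟩) hne
  · intro g' hg' hne
    by_cases hf : g' = f
    · rw [hf]; exact key b (trees_y_mem hg) hb
    · exact hg.y_notMem g' (Finset.mem_erase.mpr ⟨hf, hg'⟩) hne

private theorem trees_drop {E : Finset (Finset V)} {f₁ f₂ : Finset V} {u₂ x₂ y₂ : V}
    (h₂ : Leaf E f₂ u₂ x₂ y₂) (hf : f₁ ≠ f₂) : Leaf (E.erase f₁) f₂ u₂ x₂ y₂ where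
  mem := Finset.mem_erase.mpr ⟨hf.symm, h₂.mem⟩
  eq := h₂.eq
  ux := h₂.ux
  uy := h₂.uy
  xy := h₂.xy
  x_notMem g hg hne := h₂.x_notMem g (Finset.mem_erase.mp hg).2 hne
  y_notMem g hg hne := h₂.y_notMem g (Finset.mem_erase.mp hg).2 hne

theorem two_leaves {S : Finset V} {E : Finset (Finset V)} (h : IsTr S E) (hns : NonStar E) :
    ∃ f₁ u₁ x₁ y₁ f₂ u₂ x₂ y₂, Leaf E f₁ u₁ x₁ y₁ ∧ Leaf E f₂ u₂ x₂ y₂ ∧ f₁ ≠ f₂ ∧ u₁ ≠ u₂ := by
  induction hn : E.card using Nat.strong_induction_on generalizing S E with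
  | _ n ih =>
  have hne : E.Nonempty := by
    have hS : S.Nonempty := by
      rw [← Finset.card_pos, h.card]; omega
    obtain ⟨s, -⟩ := hS
    obtain ⟨f, hf, -⟩ := hns s
    exact ⟨f, hf⟩
  obtain ⟨f, u, x, y, hl⟩ := h.exists_leaf hne
  have h' := (h.remove hl).1
  by_cases hns' : NonStar (E.erase f)
  · have hlt : (E.erase f).card < n := by
      rw [← hn]; exact Finset.card_erase_lt_of_mem hl.mem
    obtain ⟨g₁, w₁, a₁, b₁, g₂, w₂, a₂, b₂, hl₁, hl₂, hg, hw⟩ := ih _ hlt h' hns' rfl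
    by_cases hu₁ : u ∈ ({a₁, b₁} : Finset V)
    · have hug : u ∉ g₂ := by
        simp only [Finset.mem_insert, Finset.mem_singleton] at hu₁
        rcases hu₁ with hu | hu
        · rw [hu]; exact hl₁.x_notMem g₂ hl₂.mem hg.symm
        · rw [hu]; exact hl₁.y_notMem g₂ hl₂.mem hg.symm
      refine ⟨f, u, x, y, g₂, w₂, a₂, b₂, hl, trees_lift hl hl₂ ?_ ?_, ?_, ?_⟩
      · rintro rfl; exact hug (trees_x_mem hl₂)
      · rintro rfl; exact hug (trees_y_mem hl₂)
      · exact (Finset.mem_erase.mp hl₂.mem).1.symm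
      · rintro rfl; exact hug (trees_u_mem hl₂)
    by_cases hu₂ : u ∈ ({a₂, b₂} : Finset V)
    · have hug : u ∉ g₁ := by
        simp only [Finset.mem_insert, Finset.mem_singleton] at hu₂
        rcases hu₂ with hu | hu
        · rw [hu]; exact hl₂.x_notMem g₁ hl₁.mem hg
        · rw [hu]; exact hl₂.y_notMem g₁ hl₁.mem hg
      refine ⟨f, u, x, y, g₁, w₁, a₁, b₁, hl, trees_lift hl hl₁ ?_ ?_, ?_, ?_⟩
      · rintro rfl; exact hug (trees_x_mem hl₁)
      · rintro rfl; exact hug (trees_y_mem hl₁)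
      · exact (Finset.mem_erase.mp hl₁.mem).1.symm
      · rintro rfl; exact hug (trees_u_mem hl₁)
    simp only [Finset.mem_insert, Finset.mem_singleton, not_or] at hu₁ hu₂
    exact ⟨g₁, w₁, a₁, b₁, g₂, w₂, a₂, b₂,
      trees_lift hl hl₁ (Ne.symm hu₁.1) (Ne.symm hu₁.2),
      trees_lift hl hl₂ (Ne.symm hu₂.1) (Ne.symm hu₂.2), hg, hw⟩
  · unfold NonStar at hns'
    push Not at hns'
    obtain ⟨c, hc⟩ := hns'
    obtain ⟨g, hg, hug⟩ := hns u
    have hgf : g ≠ f := by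
      rintro rfl; exact hug (trees_u_mem hl)
    have hg' : g ∈ E.erase f := Finset.mem_erase.mpr ⟨hgf, hg⟩
    obtain ⟨a, b, hab⟩ := trees_star_leaf h'.toIsAc hc hg'
    refine ⟨f, u, x, y, g, c, a, b, hl, trees_lift hl hab ?_ ?_, hgf.symm, ?_⟩
    · rintro rfl; exact hug (trees_x_mem hab)
    · rintro rfl; exact hug (trees_y_mem hab)
    · rintro rfl; exact hug (trees_u_mem hab)

/-- in a star at most one edge contains a given vertex other than the centre -/
private theorem trees_filter {S : Finset V} {E : Finset (Finset V)} (h : IsAc S E) {c : V}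
    (hc : ∀ g ∈ E, c ∈ g) {d : V} (hd : d ≠ c) : (E.filter (fun g => d ∈ g)).card ≤ 1 := by
  rw [Finset.card_le_one]
  intro g hg g' hg'
  rw [Finset.mem_filter] at hg hg'
  by_contra hne
  exact hd (trees_inter h hg.1 hg'.1 hne hg.2 hg'.2 (hc g hg.1) (hc g' hg'.1))

/-- a tree with at least four edges in which every vertex misses at least two edges can be
obtained by adding two leaf edges, at different vertices, to a tree which has two edges or is
not a star -/
theorem good_split {S : Finset V} {E : Finset (Finset V)} (h : IsTr S E) (h4 : 4 ≤ E.card)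
    (hns : ∀ c : V, 2 ≤ (E.filter (fun f => c ∉ f)).card) :
    ∃ f₁ u₁ x₁ y₁ f₂ u₂ x₂ y₂, Leaf E f₁ u₁ x₁ y₁ ∧ Leaf E f₂ u₂ x₂ y₂ ∧ f₁ ≠ f₂ ∧ u₁ ≠ u₂ ∧
      (E.card = 4 ∨ NonStar ((E.erase f₁).erase f₂)) := by
  have hNS : NonStar E := by
    intro c
    have h0 : (E.filter (fun f => c ∉ f)).Nonempty := by
      rw [← Finset.card_pos]; have := hns c; omega
    obtain ⟨f, hf⟩ := h0
    rw [Finset.mem_filter] at hf
    exact ⟨f, hf.1, hf.2⟩
  obtain ⟨f₁, u₁, x₁, y₁, f₂, u₂, x₂, y₂, h₁, h₂, hf, hu⟩ := two_leaves h hNS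
  by_cases hE : E.card = 4
  · exact ⟨f₁, u₁, x₁, y₁, f₂, u₂, x₂, y₂, h₁, h₂, hf, hu, Or.inl hE⟩
  by_cases hns2 : NonStar ((E.erase f₁).erase f₂)
  · exact ⟨f₁, u₁, x₁, y₁, f₂, u₂, x₂, y₂, h₁, h₂, hf, hu, Or.inr hns2⟩
  unfold NonStar at hns2
  push Not at hns2
  obtain ⟨c, hc⟩ := hns2
  have hsub : (E.erase f₁).erase f₂ ⊆ E :=
    (Finset.erase_subset _ _).trans (Finset.erase_subset _ _)
  have hac : IsAc S ((E.erase f₁).erase f₂) := trees_mono h.toIsAc hsub
  -- the centre is not in `f₁`, `f₂`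
  have hc₁ : c ∉ f₁ := by
    intro hcf
    have hs : E.filter (fun f => c ∉ f) ⊆ {f₂} := by
      intro g hg
      rw [Finset.mem_filter] at hg
      rw [Finset.mem_singleton]
      by_contra hne
      have hg1 : g ≠ f₁ := by
        rintro rfl; exact hg.2 hcf
      exact hg.2 (hc g (Finset.mem_erase.mpr ⟨hne, Finset.mem_erase.mpr ⟨hg1, hg.1⟩⟩))
    have := Finset.card_le_card hs
    have := hns c
    simp only [Finset.card_singleton] at *
    omega
  have hc₂ : c ∉ f₂ := by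
    intro hcf
    have hs : E.filter (fun f => c ∉ f) ⊆ {f₁} := by
      intro g hg
      rw [Finset.mem_filter] at hg
      rw [Finset.mem_singleton]
      by_contra hne
      have hg1 : g ≠ f₂ := by
        rintro rfl; exact hg.2 hcf
      exact hg.2 (hc g (Finset.mem_erase.mpr ⟨hg1, Finset.mem_erase.mpr ⟨hne, hg.1⟩⟩))
    have := Finset.card_le_card hs
    have := hns c
    simp only [Finset.card_singleton] at *
    omega
  have hcu₁ : c ≠ u₁ := by
    rintro rfl; exact hc₁ (trees_u_mem h₁)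
  have hcu₂ : c ≠ u₂ := by
    rintro rfl; exact hc₂ (trees_u_mem h₂)
  have h₂' : Leaf (E.erase f₁) f₂ u₂ x₂ y₂ := trees_drop h₂ hf
  have hcard : ((E.erase f₁).erase f₂).card = E.card - 2 := by
    rw [Finset.card_erase_of_mem h₂'.mem, Finset.card_erase_of_mem h₁.mem]
    omega
  have hF₁ := trees_filter hac hc hcu₁.symm
  have hF₂ := trees_filter hac hc hcu₂.symm
  -- an edge avoiding `u₁` and `u₂`
  obtain ⟨f₀, hf₀, hu₁f, hu₂f⟩ : ∃ g ∈ (E.erase f₁).erase f₂, u₁ ∉ g ∧ u₂ ∉ g := by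
    by_contra hcon
    push Not at hcon
    have hs : (E.erase f₁).erase f₂ ⊆
        ((E.erase f₁).erase f₂).filter (fun g => u₁ ∈ g) ∪
          ((E.erase f₁).erase f₂).filter (fun g => u₂ ∈ g) := by
      intro g hg
      rw [Finset.mem_union, Finset.mem_filter, Finset.mem_filter]
      by_cases hgu : u₁ ∈ g
      · exact Or.inl ⟨hg, hgu⟩
      · exact Or.inr ⟨hg, hcon g hg hgu⟩
    have h1 := Finset.card_le_card hs
    have h2 := Finset.card_union_le
      (((E.erase f₁).erase f₂).filter (fun g => u₁ ∈ g))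
      (((E.erase f₁).erase f₂).filter (fun g => u₂ ∈ g))
    omega
  obtain ⟨a, b, hab⟩ := trees_star_leaf hac hc hf₀
  have hau₁ : a ≠ u₁ := by
    rintro rfl; exact hu₁f (trees_x_mem hab)
  have hau₂ : a ≠ u₂ := by
    rintro rfl; exact hu₂f (trees_x_mem hab)
  have hbu₁ : b ≠ u₁ := by
    rintro rfl; exact hu₁f (trees_y_mem hab)
  have hbu₂ : b ≠ u₂ := by
    rintro rfl; exact hu₂f (trees_y_mem hab)
  have hleaf : Leaf E f₀ c a b :=
    trees_lift h₁ (trees_lift h₂' hab hau₂ hbu₂) hau₁ hbu₁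
  have hm := Finset.mem_erase.mp hf₀
  have hm' := Finset.mem_erase.mp hm.2
  refine ⟨f₀, c, a, b, f₁, u₁, x₁, y₁, hleaf, h₁, hm'.1, hcu₁, Or.inr ?_⟩
  intro d
  by_cases hd : d = c
  · refine ⟨f₂, ?_, ?_⟩
    · exact Finset.mem_erase.mpr ⟨hf.symm, Finset.mem_erase.mpr ⟨hm.1.symm, h₂.mem⟩⟩
    · rw [hd]; exact hc₂
  · have hFd := trees_filter hac hc hd
    by_contra hcon
    push Not at hcon
    have hs : ((E.erase f₁).erase f₂).erase f₀ ⊆
        ((E.erase f₁).erase f₂).filter (fun g => d ∈ g) := by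
      intro g hg
      have hg1 := Finset.mem_erase.mp hg
      have hg2 := Finset.mem_erase.mp hg1.2
      have hg3 := Finset.mem_erase.mp hg2.2
      rw [Finset.mem_filter]
      refine ⟨hg1.2, hcon g ?_⟩
      exact Finset.mem_erase.mpr ⟨hg3.1, Finset.mem_erase.mpr ⟨hg1.1, hg3.2⟩⟩
    have h1 := Finset.card_le_card hs
    rw [Finset.card_erase_of_mem hf₀, hcard] at h1
    omega

/-- what remains after the removal of two leaf edges at different vertices -/
theorem remove_two {S : Finset V} {E : Finset (Finset V)} (h : IsTr S E) {f₁ f₂ : Finset V}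
    {u₁ x₁ y₁ u₂ x₂ y₂ : V} (h₁ : Leaf E f₁ u₁ x₁ y₁) (h₂ : Leaf E f₂ u₂ x₂ y₂)
    (hf : f₁ ≠ f₂) :
    IsTr (S \ {x₁, y₁, x₂, y₂}) ((E.erase f₁).erase f₂) ∧ u₁ ∈ S \ {x₁, y₁, x₂, y₂} ∧
      u₂ ∈ S \ {x₁, y₁, x₂, y₂} ∧ [x₁, y₁, x₂, y₂].Nodup := by
  have h₂' : Leaf (E.erase f₁) f₂ u₂ x₂ y₂ := trees_drop h₂ hf
  obtain ⟨ht, hu₁⟩ := h.remove h₁
  obtain ⟨ht', hu₂⟩ := ht.remove h₂'
  have hS : (S \ {x₁, y₁}) \ {x₂, y₂} = S \ {x₁, y₁, x₂, y₂} := by
    ext t
    simp only [Finset.mem_sdiff, Finset.mem_insert, Finset.mem_singleton]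
    tauto
  have hx₂ : x₂ ∉ f₁ := h₂.x_notMem f₁ h₁.mem hf
  have hy₂ : y₂ ∉ f₁ := h₂.y_notMem f₁ h₁.mem hf
  have hux : u₁ ≠ x₂ := by
    rintro rfl; exact hx₂ (trees_u_mem h₁)
  have huy : u₁ ≠ y₂ := by
    rintro rfl; exact hy₂ (trees_u_mem h₁)
  have hxx : x₁ ≠ x₂ := by
    rintro rfl; exact hx₂ (trees_x_mem h₁)
  have hxy : x₁ ≠ y₂ := by
    rintro rfl; exact hy₂ (trees_x_mem h₁)
  have hyx : y₁ ≠ x₂ := by
    rintro rfl; exact hx₂ (trees_y_mem h₁)
  have hyy : y₁ ≠ y₂ := by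
    rintro rfl; exact hy₂ (trees_y_mem h₁)
  rw [hS] at ht' hu₂
  refine ⟨ht', ?_, hu₂, ?_⟩
  · simp only [Finset.mem_sdiff, Finset.mem_insert, Finset.mem_singleton] at hu₁ ⊢
    tauto
  · simp only [List.nodup_cons, List.mem_cons, List.not_mem_nil, or_false, not_or,
      List.nodup_nil, and_true, not_false_eq_true]
    exact ⟨⟨h₁.xy, hxx, hxy⟩, ⟨hyx, hyy⟩, h₂.xy⟩

end Pool.MP7783b9
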