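import Pool.Agent.H.MP_7783b9_co.PaschC
import Pool.Agent.H.MP_7783b9_co.StarG

/-!
# The upper bound for trees
-/

set_option autoImplicit false

open Finset

namespace Pool.MP7783b9

variable {α V : Type*} [DecidableEq α] [DecidableEq V]

private theorem upper_rot (a b c : α) : ({a, b, c} : Finset α) = {b, c, a} := by
  ext z
  simp only [Finset.mem_insert, Finset.mem_singleton]
  tauto

theorem fano_of_pasch (R : Finset α → Prop) (U : Finset α) (p : α) (hp : p ∈ U) (W : Finset α)
    (hW : W ⊆ U.erase p) (h : ∀ x ∈ W, ∀ y ∈ W, x ≠ y → ¬ R {p, x, y}) (hP : Pasch R W) :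
    BlueFano R U := by
  obtain ⟨u, v, a, b, c, d, hu, hv, ha, hb, hc, hd, hnd, h1, h2, h3, h4⟩ := hP
  have hne : ∀ z ∈ W, p ≠ z := by
    intro z hz
    exact (Finset.ne_of_mem_erase (hW hz)).symm
  have hmem : ∀ z ∈ W, z ∈ U := fun z hz => Finset.mem_of_mem_erase (hW hz)
  simp only [List.nodup_cons, List.mem_cons, List.not_mem_nil, or_false, not_or,
    List.nodup_nil, and_true, not_false_eq_true] at hnd
  obtain ⟨⟨huv, hua, hub, huc, hud⟩, ⟨hva, hvb, hvc, hvd⟩, ⟨hab, hac, had⟩, ⟨hbc, hbd⟩, hcd⟩ := hnd
  have hpu := hne u hu
  have hpv := hne v hv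
  have hpa := hne a ha
  have hpb := hne b hb
  have hpc := hne c hc
  have hpd := hne d hd
  refine ⟨![p, u, a, v, b, d, c], ?_, ?_, ?_⟩
  · have hinj : [p, u, a, v, b, d, c].Nodup := by
      simp only [List.nodup_cons, List.mem_cons, List.not_mem_nil, or_false, not_or,
        List.nodup_nil, and_true, not_false_eq_true]
      refine ⟨⟨hpu, hpa, hpv, hpb, hpd, hpc⟩, ⟨hua, huv, hub, hud, huc⟩,
        ⟨Ne.symm hva, hab, had, hac⟩, ⟨hvb, hvd, hvc⟩, ⟨hbd, hbc⟩, Ne.symm hcd⟩
    have := List.nodup_iff_injective_get.mp hinj
    intro i j hij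
    apply this
    fin_cases i <;> fin_cases j <;> exact hij
  · intro i
    fin_cases i
    · exact hp
    · exact hmem u hu
    · exact hmem a ha
    · exact hmem v hv
    · exact hmem b hb
    · exact hmem d hd
    · exact hmem c hc
  · intro f hf
    simp only [fano, Finset.mem_insert, Finset.mem_singleton] at hf
    rcases hf with rfl | rfl | rfl | rfl | rfl | rfl | rfl
    · have : Finset.image ![p, u, a, v, b, d, c] ({0, 1, 3} : Finset (Fin 7)) = {p, u, v} := by
        simp [Finset.image_insert]
      rw [this]
      exact h u hu v hv huv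
    · have : Finset.image ![p, u, a, v, b, d, c] ({1, 2, 4} : Finset (Fin 7)) = {u, a, b} := by
        simp [Finset.image_insert]
      rw [this]
      exact h1
    · have : Finset.image ![p, u, a, v, b, d, c] ({2, 3, 5} : Finset (Fin 7)) = {a, v, d} := by
        simp [Finset.image_insert]
      rw [this, upper_rot]
      exact h4
    · have : Finset.image ![p, u, a, v, b, d, c] ({3, 4, 6} : Finset (Fin 7)) = {v, b, c} := by
        simp [Finset.image_insert]
      rw [this]
      exact h3
    · have : Finset.image ![p, u, a, v, b, d, c] ({4, 5, 0} : Finset (Fin 7)) = {b, d, p} := by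
        simp [Finset.image_insert]
      rw [this, upper_rot, upper_rot]
      exact h b hb d hd hbd
    · have : Finset.image ![p, u, a, v, b, d, c] ({5, 6, 1} : Finset (Fin 7)) = {d, c, u} := by
        simp [Finset.image_insert]
      rw [this, upper_rot, upper_rot, Finset.pair_comm d c]
      exact h2
    · have : Finset.image ![p, u, a, v, b, d, c] ({6, 0, 2} : Finset (Fin 7)) = {c, p, a} := by
        simp [Finset.image_insert]
      rw [this, upper_rot]
      exact h a ha c hc hac

theorem BlueFano.mono {R : Finset α → Prop} {U U' : Finset α} (h : U ⊆ U')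
    (hF : BlueFano R U) : BlueFano R U' := by
  obtain ⟨ψ, h1, h2, h3⟩ := hF
  exact ⟨ψ, h1, fun i => h (h2 i), h3⟩

private theorem upper_hasRed_mono {R : Finset α → Prop} {S : Finset V} {E : Finset (Finset V)}
    {W W' : Finset α} (h : W ⊆ W') (hr : HasRed R S E W) : HasRed R S E W' := by
  obtain ⟨φ, h1, h2, h3⟩ := hr
  exact ⟨φ, h1, fun v hv => h (h2 v hv), h3⟩

theorem tree_upper (R : Finset α → Prop) (S : Finset V) (E : Finset (Finset V)) (h : IsTr S E)
    (h2 : 2 ≤ E.card) (U : Finset α) (hU : U.card = 4 * E.card + 1) :
    HasRed R S E U ∨ BlueFano R U := by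
  by_cases hE : E.card = 2 ∨ NonStar E
  · by_cases hg : ∀ v ∈ U, ∀ D ⊆ U, v ∈ D → D.card + 1 ≤ 2 * E.card →
      ∃ x ∈ U \ D, ∃ y ∈ U \ D, x ≠ y ∧ R {v, x, y}
    · left
      exact greedy R U (Finset.card_pos.mp (by omega)) S E h hg
    · push Not at hg
      obtain ⟨v, hv, D, hD, hvD, hDc, hall⟩ := hg
      have hc : 2 * E.card + 2 ≤ (U \ D).card := by
        rw [Finset.card_sdiff_of_subset hD]
        omega
      obtain ⟨W, hWs, hWc⟩ := Finset.exists_subset_card_eq hc
      rcases pasch_claim R E.card S E h rfl h2 hE W hWc with hP | hr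
      · right
        refine fano_of_pasch R U v hv W ?_ ?_ hP
        · intro z hz
          have hz' := hWs hz
          rw [Finset.mem_sdiff] at hz'
          refine Finset.mem_erase.mpr ⟨?_, hz'.1⟩
          rintro rfl
          exact hz'.2 hvD
        · intro x hx y hy hxy
          exact hall x (hWs hx) y (hWs hy) hxy
      · left
        exact upper_hasRed_mono (hWs.trans Finset.sdiff_subset) hr
  · rw [not_or] at hE
    obtain ⟨hE2, hns⟩ := hE
    unfold NonStar at hns
    push Not at hns
    obtain ⟨c, hc⟩ := hns
    by_cases hm : ∃ c' ∈ U, Mat (link R c') (U.erase c') E.card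
    · obtain ⟨c', hc', hm'⟩ := hm
      left
      exact star_embed R U E.card (by omega) S E h rfl c hc c' hc' hm'
    · right
      push Not at hm
      obtain ⟨p, hp, W, hW, hall, hP⟩ := star_good R U E.card (by omega) hU hm
      exact fano_of_pasch R U p hp W hW hall hP

/-- trees with at most one edge -/
theorem tree_small (R : Finset α → Prop) (S : Finset V) (E : Finset (Finset V)) (h : IsTr S E)
    (U : Finset α) (h0 : E.card = 0 ∧ 1 ≤ U.card ∨ E.card = 1 ∧ 7 ≤ U.card) :
    HasRed R S E U ∨ BlueFano R U := by
  rcases h0 with ⟨hE, hU⟩ | ⟨hE, hU⟩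
  · left
    have hS := h.card
    rw [hE] at hS
    obtain ⟨s, hs⟩ := Finset.card_eq_one.mp hS
    obtain ⟨u, hu⟩ := Finset.card_pos.mp hU
    rw [Finset.card_eq_zero] at hE
    refine ⟨fun _ => u, ?_, fun _ _ => hu, ?_⟩
    · intro x hx y hy _
      rw [hs] at hx hy
      simp only [Finset.coe_singleton, Set.mem_singleton_iff] at hx hy
      rw [hx, hy]
    · intro f hf
      rw [hE] at hf
      exact absurd hf (Finset.notMem_empty f)
  · have hS := h.card
    rw [hE] at hS
    obtain ⟨f, hf⟩ := Finset.card_eq_one.mp hE
    have hfE : f ∈ E := by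
      rw [hf]
      exact Finset.mem_singleton_self f
    have hfS : f = S := Finset.eq_of_subset_of_card_le (h.sub f hfE) (by
      rw [h.three f hfE, hS])
    by_cases hR : ∃ T ⊆ U, T.card = 3 ∧ R T
    · left
      obtain ⟨T, hT, hTc, hRT⟩ := hR
      obtain ⟨a', b', c', hab', hac', hbc', rfl⟩ := Finset.card_eq_three.mp hTc
      obtain ⟨a, b, c, hab, hac, hbc, hfe⟩ := Finset.card_eq_three.mp (h.three f hfE)
      have hS' : S = {a, b, c} := by rw [← hfS, hfe]
      have e1 : (fun v => if v = a then a' else if v = b then b' else c') a = a' := by simp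
      have e2 : (fun v => if v = a then a' else if v = b then b' else c') b = b' := by
        simp [Ne.symm hab]
      have e3 : (fun v => if v = a then a' else if v = b then b' else c') c = c' := by
        simp [Ne.symm hac, Ne.symm hbc]
      refine ⟨fun v => if v = a then a' else if v = b then b' else c', ?_, ?_, ?_⟩
      · intro x hx y hy hxy
        rw [hS'] at hx hy
        simp only [Finset.coe_insert, Finset.coe_singleton, Set.mem_insert_iff,
          Set.mem_singleton_iff] at hx hy
        rcases hx with rfl | rfl | rfl <;> rcases hy with rfl | rfl | rfl <;>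
          first
            | rfl
            | (exfalso; rw [e1, e2] at hxy; exact hab' hxy)
            | (exfalso; rw [e1, e3] at hxy; exact hac' hxy)
            | (exfalso; rw [e2, e1] at hxy; exact hab' hxy.symm)
            | (exfalso; rw [e3, e1] at hxy; exact hac' hxy.symm)
            | (exfalso; rw [e2, e3] at hxy; exact hbc' hxy)
            | (exfalso; rw [e3, e2] at hxy; exact hbc' hxy.symm)
      · intro v _
        apply hT
        simp only [Finset.mem_insert, Finset.mem_singleton]
        split_ifs
        · exact Or.inl rfl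
        · exact Or.inr (Or.inl rfl)
        · exact Or.inr (Or.inr rfl)
      · intro g hg
        rw [hf, Finset.mem_singleton] at hg
        subst hg
        have : g.image (fun v => if v = a then a' else if v = b then b' else c')
            = {a', b', c'} := by
          simp only at e1 e2 e3
          rw [hfe, Finset.image_insert, Finset.image_insert, Finset.image_singleton]
          simp only
          rw [e1, e2, e3]
        rw [this]
        exact hRT
    · right
      push Not at hR
      obtain ⟨W, hWs, hWc⟩ := Finset.exists_subset_card_eq hU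
      let e := (Finset.equivFinOfCardEq hWc).symm
      refine ⟨fun i => (e i : α), ?_, ?_, ?_⟩
      · intro i j hij
        exact e.injective (Subtype.ext hij)
      · intro i
        exact hWs (e i).2
      · intro f hf
        have hinj : Function.Injective (fun i => (e i : α)) := by
          intro i j hij
          exact e.injective (Subtype.ext hij)
        refine hR _ ?_ ?_
        · intro z hz
          rw [Finset.mem_image] at hz
          obtain ⟨i, _, rfl⟩ := hz
          exact hWs (e i).2
        · rw [Finset.card_image_of_injective _ hinj]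
          simp only [fano, Finset.mem_insert, Finset.mem_singleton] at hf
          rcases hf with rfl | rfl | rfl | rfl | rfl | rfl | rfl <;> rfl

end Pool.MP7783b9
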